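import Pool.Agent.Q98.NS.Yz2

/-!
# Normal operators plus operators of a Schatten class: chains at the essential points
-/

set_option autoImplicit false

namespace Pool.Agent.Q98.NS

open MeasureTheory Set Metric Filter Topology
open Matrix
open scoped ENNReal NNReal ComplexConjugate InnerProductSpace
open Pool.Agent.Y283.NK (lm LogBd ct ea IsMul)
open Pool.Agent.Q98.RB
open Pool.Agent.Q98.NR

/-- Hilbert spaces are reflexive -/
theorem refl_hilbert (H : Type) [NormedAddCommGroup H] [InnerProductSpace ℂ H] [CompleteSpace H] :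
    Refl H := by
  intro F
  let G : StrongDual ℂ H := LinearMap.mkContinuous
    { toFun := fun x => conj (F (InnerProductSpace.toDual ℂ H x))
      map_add' := fun x y => by rw [map_add, map_add, map_add]
      map_smul' := fun c x => by
        rw [LinearIsometryEquiv.map_smulₛₗ, map_smul, smul_eq_mul, map_mul, Complex.conj_conj]
        rfl } ‖F‖ (fun x => by
      show ‖conj (F (InnerProductSpace.toDual ℂ H x))‖ ≤ _
      rw [RCLike.norm_conj]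
      refine (F.le_opNorm _).trans (le_of_eq ?_)
      rw [LinearIsometryEquiv.norm_map])
  refine ⟨(InnerProductSpace.toDual ℂ H).symm G, ?_⟩
  ext y
  obtain ⟨x, rfl⟩ := (InnerProductSpace.toDual ℂ H).surjective y
  rw [NormedSpace.dual_def, InnerProductSpace.toDual_apply_apply, ← inner_conj_symm,
    InnerProductSpace.toDual_symm_apply]
  show conj (conj (F (InnerProductSpace.toDual ℂ H x))) = _
  rw [Complex.conj_conj]

variable {S : Type} [MeasurableSpace S] {μ : Measure S} [SigmaFinite μ] {φ : S → ℂ} {R : ℝ}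
variable {N : Lp ℂ 2 μ →L[ℂ] Lp ℂ 2 μ}
variable {p : ℝ} {b : ℕ → ℕ} {lam Q : ℝ≥0} {u v : ℕ → Lp ℂ 2 μ} {C : ℝ≥0}

theorem below2 (hφ : Measurable φ) (hb : ∀ s, ‖φ s‖ ≤ R) (hΨ : Cal N R (mcal μ hφ hb)) (h1 : 1 < p)
    (h2 : p < 2) (hu : WS p b lam Q u C) (hv : WS p b lam Q v C) {t : ℂ} {ρ : ℝ} {B : ℝ≥0} {a : ℂ}
    {r : ℝ} (hr : 0 < r) (hD : closedBall a r ⊆ ball 0 ρ)
    {K : Lp ℂ 2 μ →L[ℂ] Lp ℂ 2 μ} (hK : Tendsto (Ks u (vv v)) atTop (𝓝 K))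
    (hG : ∃ᶠ n in atTop, Gd2 φ u v t ρ B n) (hno : ¬ HasCh (N + t • K) a r) :
    ∃ c : ℝ, 0 < c ∧ ∀ x, ‖x‖ ≤ c * ‖(N + t • K) x - a • x‖ := by
  have hX := refl_hilbert (Lp ℂ 2 μ)
  have h3 := ubp ((N + t • K) - a • (1 : Lp ℂ 2 μ →L[ℂ] Lp ℂ 2 μ)) (fun y => by
    obtain ⟨Λ, hΛ, h0⟩ := y02 hφ hb hΨ h1 h2 hu hv t B hr hD y
    refine ⟨Λ, hΛ, fun x => ?_⟩
    show ‖y x‖ ≤ Λ * ‖(N + t • K) x - a • x‖
    refine le_of_forall_pos_le_add fun ε hε => ?_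
    obtain ⟨δ, hδ⟩ : ∃ δ : ℝ, δ = min 1 (ε / (‖x‖ + 1)) := ⟨_, rfl⟩
    have hδ0 : 0 < δ := by
      rw [hδ]
      positivity
    obtain ⟨m, Y, hY, hE⟩ := dual_alt hX (N + t • K) a hr hno y hδ0
    have hlim : Tendsto (fun n => ∑ k ∈ Finset.range (m + 1),
        r ^ k * ‖res (N + t • Ks u (vv v) n) a y Y k‖) atTop
        (𝓝 (∑ k ∈ Finset.range (m + 1), r ^ k * ‖res (N + t • K) a y Y k‖)) := by
      refine tendsto_finsetSum _ fun k _ => Tendsto.const_mul _ (Tendsto.norm ?_)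
      exact ((res_cont a y Y k).tendsto (N + t • K)).comp
        (tendsto_const_nhds.add (hK.const_smul t))
    have hev : ∀ᶠ n in atTop, ∑ k ∈ Finset.range (m + 1),
        r ^ k * ‖res (N + t • Ks u (vv v) n) a y Y k‖ ≤ 1 :=
      (hlim.eventually_lt_const (hE.trans_le (by rw [hδ]; exact min_le_left _ _))).mono
        fun n hn => hn.le
    obtain ⟨n, hn1, hn2⟩ := (hG.and_eventually hev).exists
    have hb := h0 n hn1 m Y hY hn2 (a • x - (N + t • K) x)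
    have h4 : ‖res (N + t • K) a y Y 0‖ ≤ δ := by
      have h5 : r ^ 0 * ‖res (N + t • K) a y Y 0‖ ≤
          ∑ k ∈ Finset.range (m + 1), r ^ k * ‖res (N + t • K) a y Y k‖ :=
        Finset.single_le_sum (f := fun k => r ^ k * ‖res (N + t • K) a y Y k‖)
          (fun k _ => by positivity) (Finset.mem_range.2 (Nat.succ_pos m))
      rw [pow_zero, one_mul] at h5
      exact h5.trans hE.le
    have e : y x = Y 0 (a • x - (N + t • K) x) - res (N + t • K) a y Y 0 x := by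
      show y x = Y 0 (a • x - (N + t • K) x) - (a • Y 0 x - Y 0 ((N + t • K) x) - y x)
      rw [map_sub, map_smul]
      ring
    have h6 : δ * ‖x‖ ≤ ε := by
      have h7 : δ ≤ ε / (‖x‖ + 1) := by
        rw [hδ]
        exact min_le_right _ _
      calc δ * ‖x‖ ≤ δ * (‖x‖ + 1) := by
            refine mul_le_mul_of_nonneg_left ?_ hδ0.le
            linarith
        _ ≤ ε / (‖x‖ + 1) * (‖x‖ + 1) := mul_le_mul_of_nonneg_right h7 (by positivity)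
        _ = ε := by
            have := norm_nonneg x
            field_simp
    calc ‖y x‖ ≤ ‖Y 0 (a • x - (N + t • K) x)‖ + ‖res (N + t • K) a y Y 0 x‖ := by
          rw [e]
          exact norm_sub_le _ _
      _ ≤ Λ * ‖a • x - (N + t • K) x‖ + δ * ‖x‖ :=
          add_le_add hb ((ContinuousLinearMap.le_opNorm _ _).trans
            (mul_le_mul_of_nonneg_right h4 (norm_nonneg _)))
      _ ≤ _ := by
          rw [norm_sub_rev]
          linarith)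
  exact h3

/-- chains at the essential points -/
theorem chains2 (hφ : Measurable φ) (hb : ∀ s, ‖φ s‖ ≤ R) (hΨ : Cal N R (mcal μ hφ hb))
    (h1 : 1 < p) (h2 : p < 2) (hu : WS p b lam Q u C) (hv : WS p b lam Q v C) {t : ℂ}
    {K : Lp ℂ 2 μ →L[ℂ] Lp ℂ 2 μ} (hK : Tendsto (Ks u (vv v)) atTop (𝓝 K))
    (hG : ∀ ρ : ℕ, ∃ B : ℝ≥0, ∃ᶠ n in atTop, Gd2 φ u v t ρ B n) {a : ℂ}
    (hE : Ess (mcal μ hφ hb) a) {r : ℝ} (hr : 0 < r) : HasCh (N + t • K) a r := by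
  by_contra hno
  obtain ⟨ρ, hρ⟩ := exists_nat_gt (‖a‖ + r)
  obtain ⟨B, hB⟩ := hG ρ
  refine not_below hΨ hK t a hE (below2 hφ hb hΨ h1 h2 hu hv hr (ρ := ρ) ?_ hK hB hno)
  intro z hz
  rw [mem_closedBall, dist_eq_norm] at hz
  rw [mem_ball_zero_iff]
  calc ‖z‖ = ‖(z - a) + a‖ := by rw [sub_add_cancel]
    _ ≤ ‖z - a‖ + ‖a‖ := norm_add_le _ _
    _ < ρ := by linarith

/-- almost every coupling is good -/
theorem sel_ball2 (hφ : Measurable φ) (h1 : 1 < p) (h2 : p < 2) (hu : WS p b lam Q u C)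
    (hv : WS p b lam Q v C) (m : Measure ℂ) [SFinite m] (hm : LogBd m) {r ρ : ℝ} (hr : 0 < r) :
    ∀ᵐ t ∂(m.restrict (ball (0:ℂ) r)), ∃ B : ℝ≥0, ∃ᶠ n in atTop, Gd2 φ u v t ρ B n := by
  obtain ⟨D, hD⟩ := pot2 m hm h1.le h2.le hr
  obtain ⟨A, hA⟩ := exists_AB h1 h2 ρ
  have hfin : (D : ℝ≥0∞) * (A * C + A * C) ≠ ⊤ := by
    have hAC : (A : ℝ≥0∞) * C ≠ ⊤ := ENNReal.mul_ne_top ENNReal.coe_ne_top ENNReal.coe_ne_top
    exact ENNReal.mul_ne_top ENNReal.coe_ne_top (ENNReal.add_ne_top.2 ⟨hAC, hAC⟩)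
  obtain ⟨C', hC'⟩ : ∃ C' : ℝ≥0, (C' : ℝ≥0∞) = _ := ⟨_, ENNReal.coe_toNNReal hfin⟩
  have m2 : ∀ n, Measurable (GG φ p b lam Q u n) := fun n => GG_meas hφ n
  have m3 : ∀ n, Measurable (GG φ p b lam Q v n) := fun n => GG_meas hφ n
  have hsel := Pool.Agent.Y487.NK.main_sel m r ρ
    (fun n z t => lm ‖det2 (t • CM φ u v n z)‖) C'
    (fun n => Pool.Agent.Y604.NK.meas_lm.comp (det2_meas hφ u v n).norm) (fun n => ?_)
  · filter_upwards [hsel] with t ht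
    obtain ⟨I, B, hI, h⟩ := ht
    refine ⟨B, ?_⟩
    exact (Nat.frequently_atTop_iff_infinite.2 hI).mono h
  rw [hC']
  have hpt : ∀ᵐ z ∂(volume.restrict (ball (0:ℂ) ρ)), ∫⁻ t in ball (0:ℂ) r,
      lm ‖det2 (t • CM φ u v n z)‖ ∂m ≤ D * (GG φ p b lam Q u n z + GG φ p b lam Q v n z) := by
    have h3 : ∀ w : ℕ → Lp ℂ 2 μ, WS p b lam Q w C → ∀ᵐ z ∂(volume.restrict (ball (0:ℂ) ρ)),
        GG φ p b lam Q w n z ≠ ⊤ := by
      intro w hw
      have h4 : ∫⁻ z in ball (0:ℂ) ρ, GG φ p b lam Q w n z ≠ ⊤ :=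
        ne_top_of_le_ne_top (ENNReal.mul_ne_top ENNReal.coe_ne_top ENNReal.coe_ne_top)
          (GG_int hφ hw n fun w => (hA w).2)
      filter_upwards [ae_lt_top (GG_meas hφ n) h4] with z hz using hz.ne
    filter_upwards [h3 u hu, h3 v hv] with z h5 h6
    have h7 := hD n _ _ (pf_CM hφ hu hv h1 h5 h6)
    rwa [ENNReal.ofReal_toReal (ENNReal.add_ne_top.2 ⟨h5, h6⟩)] at h7
  have m4 : Measurable fun z => GG φ p b lam Q u n z + GG φ p b lam Q v n z := (m2 n).add (m3 n)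
  calc ∫⁻ z in ball (0:ℂ) ρ, ∫⁻ t in ball (0:ℂ) r, lm ‖det2 (t • CM φ u v n z)‖ ∂m
      ≤ ∫⁻ z in ball (0:ℂ) ρ, D * (GG φ p b lam Q u n z + GG φ p b lam Q v n z) :=
        lintegral_mono_ae hpt
    _ = D * ((∫⁻ z in ball (0:ℂ) ρ, GG φ p b lam Q u n z) +
        ∫⁻ z in ball (0:ℂ) ρ, GG φ p b lam Q v n z) := by
        rw [lintegral_const_mul _ m4, lintegral_add_left (m2 n)]
    _ ≤ _ := mul_le_mul' le_rfl (add_le_add (GG_int hφ hu n fun w => (hA w).2)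
        (GG_int hφ hv n fun w => (hA w).2))

theorem sel2 (hφ : Measurable φ) (h1 : 1 < p) (h2 : p < 2) (hu : WS p b lam Q u C)
    (hv : WS p b lam Q v C) (m : Measure ℂ) [SFinite m] (hm : LogBd m) :
    ∀ᵐ t ∂m, ∀ ρ : ℕ, ∃ B : ℝ≥0, ∃ᶠ n in atTop, Gd2 φ u v t ρ B n := by
  have h3 : ∀ r : ℕ, ∀ᵐ t ∂(m.restrict (ball (0:ℂ) (r + 1))), ∀ ρ : ℕ, ∃ B : ℝ≥0,
      ∃ᶠ n in atTop, Gd2 φ u v t ρ B n := fun r =>
    ae_all_iff.2 fun ρ => sel_ball2 hφ h1 h2 hu hv m hm (by positivity)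
  have h4 : ∀ r : ℕ, ∀ᵐ t ∂m, t ∈ ball (0:ℂ) (r + 1) → ∀ ρ : ℕ, ∃ B : ℝ≥0,
      ∃ᶠ n in atTop, Gd2 φ u v t ρ B n := fun r => (ae_restrict_iff' measurableSet_ball).1 (h3 r)
  filter_upwards [ae_all_iff.2 h4] with t ht
  obtain ⟨r, hr⟩ := exists_nat_gt ‖t‖
  refine ht r ?_
  rw [mem_ball_zero_iff]
  linarith

end Pool.Agent.Q98.NS
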