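import Pool.Agent.Q98.NS.Wts

/-!
# Normal operators plus operators of a Schatten class: the right side of the equation
-/

set_option autoImplicit false

namespace Pool.Agent.Q98.NS

open MeasureTheory Set Metric Filter Topology
open Matrix
open scoped ENNReal NNReal ComplexConjugate InnerProductSpace
open Pool.Agent.Y283.NK (lm LogBd ct ea IsMul)
open Pool.Agent.Q98.RB
open Pool.Agent.Q98.NR

variable {S : Type} [MeasurableSpace S] {μ : Measure S} {φ : S → ℂ}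

theorem cg_right {ι : Type} [Fintype ι] (hφ : Measurable φ) {G : S → ℂ}
    {F : ι → S → ℂ} (hG : Measurable G) (hF : ∀ i, Measurable (F i)) {z : ℂ}
    (h1 : eg μ φ G z ≠ ⊤) (h2 : ∀ i, eg μ φ (F i) z ≠ ⊤) (f : ι → ℂ) :
    cg μ φ G (fun s => ∑ k, f k * F k s) z = ∑ k, f k * cg μ φ G (F k) z := by
  have h3 := cg_comb hφ (κ := Unit) (G := fun _ => G) (F := F) (fun _ => hG) hF (fun _ => h1) h2
    (fun _ => 1) f
  simpa using h3

theorem cg_left {κ : Type} [Fintype κ] (hφ : Measurable φ) {G : κ → S → ℂ}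
    {F : S → ℂ} (hG : ∀ i, Measurable (G i)) (hF : Measurable F) {z : ℂ}
    (h1 : ∀ i, eg μ φ (G i) z ≠ ⊤) (h2 : eg μ φ F z ≠ ⊤) (g : κ → ℂ) :
    cg μ φ (fun s => ∑ i, g i * G i s) F z = ∑ i, conj (g i) * cg μ φ (G i) F z := by
  have h3 := cg_comb hφ (ι := Unit) (G := G) (F := fun _ => F) hG (fun _ => hF) h1 (fun _ => h2)
    g (fun _ => 1)
  simpa using h3

/-- the vector of a functional -/
noncomputable def rz (w : StrongDual ℂ (Lp ℂ 2 μ)) : Lp ℂ 2 μ :=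
  (InnerProductSpace.toDual ℂ (Lp ℂ 2 μ)).symm w

theorem rz_spec (w : StrongDual ℂ (Lp ℂ 2 μ)) : innerSL ℂ (rz w) = w := by
  ext x
  rw [innerSL_apply_apply]
  exact InnerProductSpace.toDual_symm_apply

theorem rz_norm (w : StrongDual ℂ (Lp ℂ 2 μ)) : ‖rz w‖ = ‖w‖ :=
  (InnerProductSpace.toDual ℂ (Lp ℂ 2 μ)).symm.norm_map w

theorem rz_enorm (w : StrongDual ℂ (Lp ℂ 2 μ)) : ‖rz w‖ₑ = ‖w‖ₑ :=
  (InnerProductSpace.toDual ℂ (Lp ℂ 2 μ)).symm.enorm_map w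

/-- the right side -/
noncomputable def bc (φ : S → ℂ) (a : ℂ) (y : StrongDual ℂ (Lp ℂ 2 μ))
    (E : ℕ → StrongDual ℂ (Lp ℂ 2 μ)) (m : ℕ) (F : S → ℂ) (z : ℂ) : ℂ :=
  cg μ φ (rz y) F z + ∑ k ∈ Finset.range (m + 1), (z - a) ^ k * cg μ φ (rz (E k)) F z

/-- the factor of the bound -/
noncomputable def be (φ : S → ℂ) (r : ℝ) (y : StrongDual ℂ (Lp ℂ 2 μ))
    (E : ℕ → StrongDual ℂ (Lp ℂ 2 μ)) (m : ℕ) (z : ℂ) : ℝ≥0∞ :=
  (eg μ φ (rz y) z) ^ (1 / 2 : ℝ) +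
    ∑ k ∈ Finset.range (m + 1), ENNReal.ofReal (r ^ k) * (eg μ φ (rz (E k)) z) ^ (1 / 2 : ℝ)

theorem eg_top_of {F : S → ℂ} {z : ℂ} (h : (eg μ φ F z) ^ (1 / 2 : ℝ) ≠ ⊤) : eg μ φ F z ≠ ⊤ := by
  intro h0
  rw [h0, ENNReal.top_rpow_of_pos (by norm_num)] at h
  exact h rfl

theorem be_fin {r : ℝ} (hr : 0 < r) {y : StrongDual ℂ (Lp ℂ 2 μ)}
    {E : ℕ → StrongDual ℂ (Lp ℂ 2 μ)} {m : ℕ} {z : ℂ} (h : be φ r y E m z ≠ ⊤) :
    eg μ φ (rz y) z ≠ ⊤ ∧ ∀ k ∈ Finset.range (m + 1), eg μ φ (rz (E k)) z ≠ ⊤ := by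
  unfold be at h
  obtain ⟨h1, h2⟩ := ENNReal.add_ne_top.1 h
  refine ⟨eg_top_of h1, fun k hk => ?_⟩
  have h3 := ENNReal.sum_ne_top.1 h2 k hk
  refine eg_top_of fun h4 => h3 ?_
  rw [h4, ENNReal.mul_top]
  simpa using pow_pos hr k

theorem bc_le (hφ : Measurable φ) {a : ℂ} {r : ℝ} (y : StrongDual ℂ (Lp ℂ 2 μ))
    (E : ℕ → StrongDual ℂ (Lp ℂ 2 μ)) (m : ℕ) {F : S → ℂ} (hF : Measurable F) {z : ℂ}
    (hz : z ∈ closedBall a r) :
    ‖bc φ a y E m F z‖ₑ ≤ be φ r y E m z * (eg μ φ F z) ^ (1 / 2 : ℝ) := by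
  have hzr : ‖z - a‖ ≤ r := by
    rwa [mem_closedBall, dist_eq_norm] at hz
  unfold bc be
  rw [add_mul, Finset.sum_mul]
  refine (enorm_add_le _ _).trans (add_le_add (cg_le hφ (coe_meas _) hF z) ?_)
  refine (enorm_sum_le _ _).trans (Finset.sum_le_sum fun k _ => ?_)
  rw [enorm_mul, mul_assoc]
  refine mul_le_mul' ?_ (cg_le hφ (coe_meas _) hF z)
  rw [← ofReal_norm, norm_pow]
  exact ENNReal.ofReal_le_ofReal (pow_le_pow_left₀ (norm_nonneg _) hzr k)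

theorem bc_lin (hφ : Measurable φ) {a : ℂ} {r : ℝ} (hr : 0 < r) {y : StrongDual ℂ (Lp ℂ 2 μ)}
    {E : ℕ → StrongDual ℂ (Lp ℂ 2 μ)} {m : ℕ} {ι : Type} [Fintype ι] {F : ι → S → ℂ}
    (hF : ∀ i, Measurable (F i)) {z : ℂ} (hz : be φ r y E m z ≠ ⊤)
    (h2 : ∀ i, eg μ φ (F i) z ≠ ⊤) (f : ι → ℂ) :
    bc φ a y E m (fun s => ∑ k, f k * F k s) z = ∑ k, f k * bc φ a y E m (F k) z := by
  obtain ⟨h3, h4⟩ := be_fin hr hz
  unfold bc
  rw [cg_right hφ (coe_meas _) hF h3 h2]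
  have h5 : ∀ k ∈ Finset.range (m + 1), (z - a) ^ k * cg μ φ (rz (E k))
      (fun s => ∑ i, f i * F i s) z = ∑ i, f i * ((z - a) ^ k * cg μ φ (rz (E k)) (F i) z) := by
    intro k hk
    rw [cg_right hφ (coe_meas _) hF (h4 k hk) h2, Finset.mul_sum]
    refine Finset.sum_congr rfl fun i _ => ?_
    ring
  rw [Finset.sum_congr rfl h5, Finset.sum_comm, ← Finset.sum_add_distrib]
  refine Finset.sum_congr rfl fun i _ => ?_
  rw [← Finset.mul_sum, mul_add]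

/-- the energies are integrable -/
theorem eg_ball [SigmaFinite μ] (hφ : Measurable φ) {ρ : ℝ} {A : ℝ≥0}
    (hA : ∀ w : ℂ, ∫⁻ z in ball (0:ℂ) ρ, ‖z - w‖ₑ⁻¹ ≤ A) (f : Lp ℂ 2 μ) :
    ∫⁻ z in ball (0:ℂ) ρ, eg μ φ f z ≤ A * ‖f‖ₑ ^ 2 := by
  have h1 : eg μ φ f = ep μ φ 1 f := by
    funext z
    unfold eg ep
    simp only [ENNReal.rpow_one]
  rw [h1, ← lint_sq]
  refine ep_ball hφ (coe_meas _) fun w => ?_
  simp only [ENNReal.rpow_one]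
  exact hA w

theorem sq_add_le (x y : ℝ≥0∞) : (x + y) ^ 2 ≤ 2 * x ^ 2 + 2 * y ^ 2 := by
  have h1 := ENNReal.rpow_add_le_mul_rpow_add_rpow x y (p := 2) (by norm_num)
  rw [ENNReal.rpow_two, ENNReal.rpow_two, ENNReal.rpow_two] at h1
  have h2 : (2:ℝ≥0∞) ^ ((2:ℝ) - 1) = 2 := by
    norm_num
  rw [h2, mul_add] at h1
  exact h1

theorem inv_sq_le {x w : ℝ≥0∞} (hx : x ≤ w) (hw0 : w ≠ 0) (hwt : w ≠ ⊤) : w⁻¹ * x ^ 2 ≤ x := by
  calc w⁻¹ * x ^ 2 = w⁻¹ * x * x := by ring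
    _ ≤ w⁻¹ * w * x := by gcongr
    _ = x := by rw [ENNReal.inv_mul_cancel hw0 hwt, one_mul]

theorem rpow_half_sq (x : ℝ≥0∞) : (x ^ (1 / 2 : ℝ)) ^ 2 = x := by
  rw [← ENNReal.rpow_two, ← ENNReal.rpow_mul]
  norm_num

theorem be_int [SigmaFinite μ] (hφ : Measurable φ) {ρ : ℝ} {A : ℝ≥0}
    (hA : ∀ w : ℂ, ∫⁻ z in ball (0:ℂ) ρ, ‖z - w‖ₑ⁻¹ ≤ A) {a : ℂ} {r : ℝ} (hr : 0 < r)
    (hD : closedBall a r ⊆ ball 0 ρ) (y : StrongDual ℂ (Lp ℂ 2 μ))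
    (E : ℕ → StrongDual ℂ (Lp ℂ 2 μ)) (m : ℕ)
    (hE : ∑ k ∈ Finset.range (m + 1), r ^ k * ‖E k‖ ≤ 1) :
    ∫⁻ z in closedBall a r, be φ r y E m z ^ 2 ≤ 2 * (A * ‖y‖ₑ ^ 2) + 2 * (3 * A) := by
  have hm : ∀ w : StrongDual ℂ (Lp ℂ 2 μ), Measurable (eg μ φ (rz w)) := fun w =>
    eg_meas hφ (coe_meas _)
  -- the weights
  obtain ⟨w, hw⟩ : ∃ w : ℕ → ℝ≥0∞, w = fun k => ENNReal.ofReal (r ^ k * ‖E k‖) + 2⁻¹ ^ k :=
    ⟨_, rfl⟩
  have hw0 : ∀ k, w k ≠ 0 := by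
    intro k
    rw [hw]
    have : (2⁻¹ : ℝ≥0∞) ^ k ≠ 0 := pow_ne_zero k (by simp)
    simp [this]
  have hwt : ∀ k, w k ≠ ⊤ := by
    intro k
    rw [hw]
    exact ENNReal.add_ne_top.2 ⟨ENNReal.ofReal_ne_top, ENNReal.pow_ne_top (by simp)⟩
  have hws : ∑ k ∈ Finset.range (m + 1), w k ≤ 3 := by
    rw [hw, Finset.sum_add_distrib]
    have h1 : ∑ k ∈ Finset.range (m + 1), ENNReal.ofReal (r ^ k * ‖E k‖) ≤ 1 := by
      rw [← ENNReal.ofReal_sum_of_nonneg fun k _ => by positivity, ← ENNReal.ofReal_one]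
      exact ENNReal.ofReal_le_ofReal hE
    have h2 : ∑ k ∈ Finset.range (m + 1), (2⁻¹ : ℝ≥0∞) ^ k ≤ 2 := by
      refine (ENNReal.sum_le_tsum _).trans ?_
      rw [ENNReal.tsum_geometric, ENNReal.one_sub_inv_two, inv_inv]
    calc _ ≤ (1:ℝ≥0∞) + 2 := add_le_add h1 h2
      _ = 3 := by norm_num
  -- the square of the sum
  have hpt : ∀ z, be φ r y E m z ^ 2 ≤ 2 * eg μ φ (rz y) z +
      2 * (3 * ∑ k ∈ Finset.range (m + 1), (w k)⁻¹ *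
        (ENNReal.ofReal (r ^ k) ^ 2 * eg μ φ (rz (E k)) z)) := by
    intro z
    unfold be
    refine (sq_add_le _ _).trans (add_le_add (by rw [rpow_half_sq]) ?_)
    refine mul_le_mul' le_rfl ((sq_sum_le _ w hw0 hwt _).trans (mul_le_mul' hws ?_))
    refine Finset.sum_le_sum fun k _ => mul_le_mul' le_rfl ?_
    rw [mul_pow, rpow_half_sq]
  have m1 : ∀ k, Measurable fun z => (w k)⁻¹ *
      (ENNReal.ofReal (r ^ k) ^ 2 * eg μ φ (rz (E k)) z) := fun k =>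
    ((hm (E k)).const_mul _).const_mul _
  have m2 : Measurable fun z => ∑ k ∈ Finset.range (m + 1), (w k)⁻¹ *
      (ENNReal.ofReal (r ^ k) ^ 2 * eg μ φ (rz (E k)) z) :=
    Finset.measurable_sum _ fun k _ => m1 k
  have m3 : Measurable fun z => 3 * ∑ k ∈ Finset.range (m + 1), (w k)⁻¹ *
      (ENNReal.ofReal (r ^ k) ^ 2 * eg μ φ (rz (E k)) z) := m2.const_mul _
  have m4 : Measurable fun z => 2 * eg μ φ (rz y) z := (hm y).const_mul _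
  have hI : ∀ w : StrongDual ℂ (Lp ℂ 2 μ), ∫⁻ z in closedBall a r, eg μ φ (rz w) z ≤
      A * ‖w‖ₑ ^ 2 := fun w => by
    refine (lintegral_mono_set hD).trans ?_
    rw [← rz_enorm]
    exact eg_ball hφ hA (rz w)
  calc _ ≤ ∫⁻ z in closedBall a r, (2 * eg μ φ (rz y) z +
        2 * (3 * ∑ k ∈ Finset.range (m + 1), (w k)⁻¹ *
          (ENNReal.ofReal (r ^ k) ^ 2 * eg μ φ (rz (E k)) z))) := lintegral_mono fun z => hpt z
    _ = 2 * (∫⁻ z in closedBall a r, eg μ φ (rz y) z) +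
        2 * (3 * ∑ k ∈ Finset.range (m + 1), (w k)⁻¹ * (ENNReal.ofReal (r ^ k) ^ 2 *
          ∫⁻ z in closedBall a r, eg μ φ (rz (E k)) z)) := by
        rw [lintegral_add_left m4, lintegral_const_mul _ (hm y), lintegral_const_mul _ m3,
          lintegral_const_mul _ m2, lintegral_finsetSum _ fun k _ => m1 k]
        congr 3
        refine Finset.sum_congr rfl fun k _ => ?_
        have m5 : Measurable fun z => ENNReal.ofReal (r ^ k) ^ 2 * eg μ φ (rz (E k)) z :=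
          (hm (E k)).const_mul _
        rw [lintegral_const_mul _ m5, lintegral_const_mul _ (hm (E k))]
    _ ≤ 2 * (A * ‖y‖ₑ ^ 2) + 2 * (3 * ∑ k ∈ Finset.range (m + 1),
          A * ENNReal.ofReal (r ^ k * ‖E k‖)) := by
        refine add_le_add (mul_le_mul' le_rfl (hI y)) (mul_le_mul' le_rfl (mul_le_mul' le_rfl
          (Finset.sum_le_sum fun k _ => ?_)))
        have h1 : ENNReal.ofReal (r ^ k * ‖E k‖) ≤ w k := by
          rw [hw]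
          exact le_self_add
        calc (w k)⁻¹ * (ENNReal.ofReal (r ^ k) ^ 2 * ∫⁻ z in closedBall a r, eg μ φ (rz (E k)) z)
            ≤ (w k)⁻¹ * (ENNReal.ofReal (r ^ k) ^ 2 * (A * ‖E k‖ₑ ^ 2)) :=
              mul_le_mul' le_rfl (mul_le_mul' le_rfl (hI (E k)))
          _ = A * ((w k)⁻¹ * ENNReal.ofReal (r ^ k * ‖E k‖) ^ 2) := by
              rw [ENNReal.ofReal_mul (by positivity), ofReal_norm]
              ring
          _ ≤ A * ENNReal.ofReal (r ^ k * ‖E k‖) :=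
              mul_le_mul' le_rfl (inv_sq_le h1 (hw0 k) (hwt k))
    _ ≤ 2 * (A * ‖y‖ₑ ^ 2) + 2 * (3 * (A * 1)) := by
        refine add_le_add le_rfl (mul_le_mul' le_rfl (mul_le_mul' le_rfl ?_))
        rw [← Finset.mul_sum]
        refine mul_le_mul' le_rfl ?_
        rw [← ENNReal.ofReal_sum_of_nonneg fun k _ => by positivity, ← ENNReal.ofReal_one]
        exact ENNReal.ofReal_le_ofReal hE
    _ = _ := by rw [mul_one]

end Pool.Agent.Q98.NS
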