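import Pool.Agent.Q98.NS.Det

/-!
# Normal operators plus operators of a Schatten class: quadratic forms in orthonormal bases
-/

set_option autoImplicit false

namespace Pool.Agent.Q98.NS

open MeasureTheory Set Metric Filter Topology
open Matrix
open scoped ENNReal NNReal ComplexConjugate

/-- convexity -/
theorem jen {ι : Type} (s : Finset ι) {p : ℝ} (hp : 1 ≤ p) (w f : ι → ℝ≥0∞) :
    (∑ i ∈ s, w i * f i) ^ p ≤ (∑ i ∈ s, w i) ^ (p - 1) * ∑ i ∈ s, w i * f i ^ p := by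
  have hp0 : 0 < p := by linarith
  have h1 := ENNReal.rpow_le_rpow (ENNReal.inner_le_weight_mul_Lp_of_nonneg s hp w f) hp0.le
  rw [ENNReal.mul_rpow_of_nonneg _ _ hp0.le, ← ENNReal.rpow_mul, ← ENNReal.rpow_mul,
    inv_mul_cancel₀ hp0.ne', ENNReal.rpow_one] at h1
  have e : (1 - p⁻¹) * p = p - 1 := by
    rw [sub_mul, inv_mul_cancel₀ hp0.ne', one_mul]
  rw [e] at h1
  exact h1

/-- Hölder's inequality with the weight `w` -/
theorem hol {S : Type} [MeasurableSpace S] {μ : Measure S} {f w : S → ℝ≥0∞} (hf : Measurable f)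
    (hw : Measurable w) {p : ℝ} (hp : 1 < p) (hft : ∀ s, f s ≠ ⊤) :
    (∫⁻ s, f s * w s ∂μ) ^ p ≤ (∫⁻ s, f s ∂μ) ^ (p - 1) * ∫⁻ s, f s * w s ^ p ∂μ := by
  have hp0 : 0 < p := by linarith
  have hq : (p / (p - 1)).HolderConjugate p := (Real.HolderConjugate.conjExponent hp).symm
  have hq0 : 0 < p / (p - 1) := hq.pos
  have h1 := ENNReal.lintegral_mul_le_Lp_mul_Lq μ hq (f := fun s => f s ^ (1 - p⁻¹))
    (g := fun s => f s ^ p⁻¹ * w s) (hf.pow_const _).aemeasurable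
    ((hf.pow_const _).mul hw).aemeasurable
  have e1 : ∀ s, ((fun s => f s ^ (1 - p⁻¹)) * fun s => f s ^ p⁻¹ * w s) s = f s * w s := by
    intro s
    rw [Pi.mul_apply, ← mul_assoc]
    congr 1
    rcases eq_or_ne (f s) 0 with h0 | h0
    · rw [h0, ENNReal.zero_rpow_of_pos (inv_pos.2 hp0), mul_zero]
    · rw [← ENNReal.rpow_add _ _ h0 (hft s)]
      simp
  have e2 : ∀ s, (f s ^ (1 - p⁻¹)) ^ (p / (p - 1)) = f s := by
    intro s
    rw [← ENNReal.rpow_mul]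
    have : (1 - p⁻¹) * (p / (p - 1)) = 1 := by
      have : p - 1 ≠ 0 := by linarith
      field_simp
    rw [this, ENNReal.rpow_one]
  have e3 : ∀ s, (f s ^ p⁻¹ * w s) ^ p = f s * w s ^ p := by
    intro s
    rw [ENNReal.mul_rpow_of_nonneg _ _ hp0.le, ← ENNReal.rpow_mul, inv_mul_cancel₀ hp0.ne',
      ENNReal.rpow_one]
  simp only [e1, e2, e3] at h1
  have h2 := ENNReal.rpow_le_rpow h1 hp0.le
  rw [ENNReal.mul_rpow_of_nonneg _ _ hp0.le, ← ENNReal.rpow_mul, ← ENNReal.rpow_mul,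
    one_div_mul_cancel hp0.ne', ENNReal.rpow_one] at h2
  have e4 : 1 / (p / (p - 1)) * p = p - 1 := by
    have : p - 1 ≠ 0 := by linarith
    field_simp
  rw [e4] at h2
  exact h2

/-- squares of sums, with weights -/
theorem sq_sum_le {ι : Type} (s : Finset ι) (w : ι → ℝ≥0∞) (hw0 : ∀ i, w i ≠ 0)
    (hwt : ∀ i, w i ≠ ⊤) (a : ι → ℝ≥0∞) :
    (∑ i ∈ s, a i) ^ 2 ≤ (∑ i ∈ s, w i) * ∑ i ∈ s, (w i)⁻¹ * a i ^ 2 := by
  have h1 := jen s (p := 2) (by norm_num) w (fun i => (w i)⁻¹ * a i)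
  have e1 : ∀ i, w i * ((w i)⁻¹ * a i) = a i := fun i => by
    rw [← mul_assoc, ENNReal.mul_inv_cancel (hw0 i) (hwt i), one_mul]
  have e2 : ∀ i, w i * ((w i)⁻¹ * a i) ^ (2:ℝ) = (w i)⁻¹ * a i ^ 2 := fun i => by
    rw [ENNReal.rpow_two, mul_pow, ← mul_assoc, pow_two (w i)⁻¹, ← mul_assoc,
      ENNReal.mul_inv_cancel (hw0 i) (hwt i), one_mul]
  simp only [e1, e2] at h1
  have e3 : (2:ℝ) - 1 = 1 := by norm_num
  rw [e3, ENNReal.rpow_one, ENNReal.rpow_two] at h1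
  exact h1

section blocks

variable {S : Type} [MeasurableSpace S] {μ : Measure S} {n : ℕ}

/-- the part of the combination in the block `j` -/
noncomputable def bl (b : Fin n → ℕ) (F : Fin n → S → ℂ) (g : Fin n → ℂ) (j : ℕ) (s : S) : ℂ :=
  ∑ i ∈ Finset.univ.filter (fun i => b i = j), g i * F i s

theorem bl_meas (b : Fin n → ℕ) {F : Fin n → S → ℂ} (hF : ∀ i, Measurable (F i)) (g : Fin n → ℂ)
    (j : ℕ) : Measurable (bl b F g j) :=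
  Finset.measurable_sum _ fun i _ => (hF i).const_mul (g i)

omit [MeasurableSpace S] in
theorem bl_sum (b : Fin n → ℕ) (F : Fin n → S → ℂ) (g : Fin n → ℂ) (s : S) :
    ∑ i, g i * F i s = ∑ j ∈ Finset.univ.image b, bl b F g j s := by
  unfold bl
  exact (Finset.sum_fiberwise_of_maps_to (fun i _ => Finset.mem_image_of_mem b
    (Finset.mem_univ i)) _).symm

/-- the constants of the blocks -/
noncomputable def cb (lam : ℝ≥0) (Q : ℝ≥0) (p : ℝ) (j : ℕ) : ℝ≥0∞ :=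
  ((1 - lam : ℝ≥0∞)⁻¹) ^ (2 * p - 1) * ((lam : ℝ≥0∞) ^ j * ((((lam : ℝ≥0∞) ^ j)⁻¹) ^ 2) ^ p *
    (Q * (2⁻¹ : ℝ≥0∞) ^ j) ^ (p - 1))

theorem geo_le (lam : ℝ≥0) (s : Finset ℕ) :
    ∑ j ∈ s, (lam : ℝ≥0∞) ^ j ≤ (1 - lam : ℝ≥0∞)⁻¹ := by
  rw [← ENNReal.tsum_geometric]
  exact ENNReal.sum_le_tsum s

/-- the form of a combination of unit length -/
theorem blk_one {F : Fin n → S → ℂ} (hF : ∀ i, Measurable (F i)) {w : S → ℝ≥0∞}
    (hw : Measurable w) (b : Fin n → ℕ) {lam Q : ℝ≥0} (hl0 : lam ≠ 0) {p : ℝ}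
    (hp : 1 < p) (g : Fin n → ℂ)
    (hB : ∀ j, ∫⁻ s, ‖bl b F g j s‖ₑ ^ 2 ∂μ ≤ Q * (2⁻¹ : ℝ≥0∞) ^ j) :
    (∫⁻ s, ‖∑ i, g i * F i s‖ₑ ^ 2 * w s ∂μ) ^ p ≤
      ∑ j ∈ Finset.univ.image b, cb lam Q p j * ∫⁻ s, ‖bl b F g j s‖ₑ ^ 2 * w s ^ p ∂μ := by
  have hp0 : 0 < p := by linarith
  set J := Finset.univ.image b with hJ
  obtain ⟨W, hW⟩ : ∃ W : ℝ≥0∞, W = (1 - lam : ℝ≥0∞)⁻¹ := ⟨_, rfl⟩
  have hgeo : ∑ j ∈ J, (lam : ℝ≥0∞) ^ j ≤ W := by
    rw [hW]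
    exact geo_le lam J
  have hl : (lam : ℝ≥0∞) ≠ 0 := by exact_mod_cast hl0
  have hlj0 : ∀ j : ℕ, (lam : ℝ≥0∞) ^ j ≠ 0 := fun j => pow_ne_zero j hl
  have hljt : ∀ j : ℕ, (lam : ℝ≥0∞) ^ j ≠ ⊤ := fun j => ENNReal.pow_ne_top ENNReal.coe_ne_top
  have hm : ∀ j, Measurable fun s => ‖bl b F g j s‖ₑ ^ 2 := fun j =>
    (bl_meas b hF g j).enorm.pow_const 2
  -- the form of the sum
  have h1 : ∫⁻ s, ‖∑ i, g i * F i s‖ₑ ^ 2 * w s ∂μ ≤
      W * ∑ j ∈ J, ((lam : ℝ≥0∞) ^ j)⁻¹ * ∫⁻ s, ‖bl b F g j s‖ₑ ^ 2 * w s ∂μ := by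
    calc ∫⁻ s, ‖∑ i, g i * F i s‖ₑ ^ 2 * w s ∂μ
        ≤ ∫⁻ s, W * ∑ j ∈ J, ((lam : ℝ≥0∞) ^ j)⁻¹ * (‖bl b F g j s‖ₑ ^ 2 * w s) ∂μ := by
          refine lintegral_mono fun s => ?_
          have h2 : ‖∑ i, g i * F i s‖ₑ ≤ ∑ j ∈ J, ‖bl b F g j s‖ₑ := by
            rw [bl_sum]
            exact enorm_sum_le _ _
          calc ‖∑ i, g i * F i s‖ₑ ^ 2 * w s ≤ (∑ j ∈ J, ‖bl b F g j s‖ₑ) ^ 2 * w s := by
                gcongr
            _ ≤ ((∑ j ∈ J, (lam : ℝ≥0∞) ^ j) *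
                ∑ j ∈ J, ((lam : ℝ≥0∞) ^ j)⁻¹ * ‖bl b F g j s‖ₑ ^ 2) * w s := by
                gcongr
                exact sq_sum_le J _ hlj0 hljt _
            _ ≤ (W * ∑ j ∈ J, ((lam : ℝ≥0∞) ^ j)⁻¹ * ‖bl b F g j s‖ₑ ^ 2) * w s := by
                gcongr
            _ = _ := by
                rw [mul_assoc, Finset.sum_mul]
                congr 1
                refine Finset.sum_congr rfl fun j _ => ?_
                rw [mul_assoc]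
      _ = _ := by
          have m1 : ∀ j, Measurable fun s => ‖bl b F g j s‖ₑ ^ 2 * w s := fun j => (hm j).mul hw
          have m2 : ∀ j, Measurable fun s => ((lam : ℝ≥0∞) ^ j)⁻¹ * (‖bl b F g j s‖ₑ ^ 2 * w s) :=
            fun j => (m1 j).const_mul _
          have m3 : Measurable fun s => ∑ j ∈ J, ((lam : ℝ≥0∞) ^ j)⁻¹ *
              (‖bl b F g j s‖ₑ ^ 2 * w s) := Finset.measurable_sum _ fun j _ => m2 j
          rw [lintegral_const_mul _ m3, lintegral_finsetSum _ fun j _ => m2 j]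
          congr 1
          refine Finset.sum_congr rfl fun j _ => ?_
          exact lintegral_const_mul _ (m1 j)
  have h2 : ∀ j, (∫⁻ s, ‖bl b F g j s‖ₑ ^ 2 * w s ∂μ) ^ p ≤
      (Q * (2⁻¹ : ℝ≥0∞) ^ j) ^ (p - 1) * ∫⁻ s, ‖bl b F g j s‖ₑ ^ 2 * w s ^ p ∂μ := by
    intro j
    refine (hol (hm j) hw hp fun s => ENNReal.pow_ne_top enorm_ne_top).trans ?_
    exact mul_le_mul' (ENNReal.rpow_le_rpow (hB j) (by linarith)) le_rfl
  have hW1 : 1 ≤ W := by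
    rw [hW, ENNReal.one_le_inv]
    exact tsub_le_self
  calc (∫⁻ s, ‖∑ i, g i * F i s‖ₑ ^ 2 * w s ∂μ) ^ p
      ≤ (W * ∑ j ∈ J, ((lam : ℝ≥0∞) ^ j)⁻¹ * ∫⁻ s, ‖bl b F g j s‖ₑ ^ 2 * w s ∂μ) ^ p :=
        ENNReal.rpow_le_rpow h1 hp0.le
    _ = W ^ p * (∑ j ∈ J, (lam : ℝ≥0∞) ^ j * ((((lam : ℝ≥0∞) ^ j)⁻¹) ^ 2 *
        ∫⁻ s, ‖bl b F g j s‖ₑ ^ 2 * w s ∂μ)) ^ p := by
        rw [ENNReal.mul_rpow_of_nonneg _ _ hp0.le]
        congr 2
        refine Finset.sum_congr rfl fun j _ => ?_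
        rw [pow_two, ← mul_assoc, ← mul_assoc, ENNReal.mul_inv_cancel (hlj0 j) (hljt j), one_mul]
    _ ≤ W ^ p * (W ^ (p - 1) * ∑ j ∈ J, (lam : ℝ≥0∞) ^ j * ((((lam : ℝ≥0∞) ^ j)⁻¹) ^ 2 *
        ∫⁻ s, ‖bl b F g j s‖ₑ ^ 2 * w s ∂μ) ^ p) := by
        refine mul_le_mul' le_rfl ((jen J hp.le _ _).trans (mul_le_mul' ?_ le_rfl))
        exact ENNReal.rpow_le_rpow hgeo (by linarith)
    _ = W ^ (2 * p - 1) * ∑ j ∈ J, (lam : ℝ≥0∞) ^ j * ((((lam : ℝ≥0∞) ^ j)⁻¹) ^ 2 *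
        ∫⁻ s, ‖bl b F g j s‖ₑ ^ 2 * w s ∂μ) ^ p := by
        rw [← mul_assoc]
        congr 1
        rw [← ENNReal.rpow_add_of_nonneg _ _ hp0.le (by linarith)]
        congr 1
        ring
    _ ≤ W ^ (2 * p - 1) * ∑ j ∈ J, (lam : ℝ≥0∞) ^ j * (((((lam : ℝ≥0∞) ^ j)⁻¹) ^ 2) ^ p *
        ((Q * (2⁻¹ : ℝ≥0∞) ^ j) ^ (p - 1) * ∫⁻ s, ‖bl b F g j s‖ₑ ^ 2 * w s ^ p ∂μ)) := by
        refine mul_le_mul' le_rfl (Finset.sum_le_sum fun j _ => mul_le_mul' le_rfl ?_)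
        rw [ENNReal.mul_rpow_of_nonneg _ _ hp0.le]
        exact mul_le_mul' le_rfl (h2 j)
    _ = _ := by
        rw [Finset.mul_sum]
        refine Finset.sum_congr rfl fun j _ => ?_
        unfold cb
        rw [hW]
        ring

/-- the sum over an orthonormal basis -/
theorem blk_basis {F : Fin n → S → ℂ} (hF : ∀ i, Measurable (F i)) {w : S → ℝ≥0∞}
    (hw : Measurable w) (b : Fin n → ℕ) {lam Q : ℝ≥0} (hl0 : lam ≠ 0) {p : ℝ}
    (hp : 1 < p) (hB : ∀ g : Fin n → ℂ, ∑ i, ‖g i‖ ^ 2 ≤ 1 → ∀ j,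
      ∫⁻ s, ‖bl b F g j s‖ₑ ^ 2 ∂μ ≤ Q * (2⁻¹ : ℝ≥0∞) ^ j)
    (U : Matrix (Fin n) (Fin n) ℂ) (hU : U * star U = 1) :
    ∑ k, (∫⁻ s, ‖∑ i, U i k * F i s‖ₑ ^ 2 * w s ∂μ) ^ p ≤
      ∑ i, cb lam Q p (b i) * ∫⁻ s, ‖F i s‖ₑ ^ 2 * w s ^ p ∂μ := by
  -- the columns have length one
  have hcol : ∀ k, ∑ i, ‖U i k‖ ^ 2 ≤ 1 := by
    intro k
    have h1 : star U * U = 1 := mul_eq_one_comm.1 hU
    have h2 : (star U * U) k k = 1 := by rw [h1, Matrix.one_apply_eq]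
    rw [Matrix.mul_apply] at h2
    have h3 : ((∑ i, ‖U i k‖ ^ 2 : ℝ) : ℂ) = 1 := by
      rw [← h2, Complex.ofReal_sum]
      refine Finset.sum_congr rfl fun i _ => ?_
      rw [Matrix.star_apply, RCLike.star_def, mul_comm, Complex.mul_conj,
        Complex.normSq_eq_norm_sq]
    have h4 : (∑ i, ‖U i k‖ ^ 2 : ℝ) = 1 := by exact_mod_cast h3
    exact h4.le
  -- Parseval for the blocks
  have hpars : ∀ (j : ℕ) (s : S), ∑ k, ‖bl b F (fun i => U i k) j s‖ₑ ^ 2 =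
      ∑ i ∈ Finset.univ.filter (fun i => b i = j), ‖F i s‖ₑ ^ 2 := by
    intro j s
    have h1 := unit_norm U hU (fun i => if b i = j then F i s else 0)
    have e1 : ∀ k, ((fun i => if b i = j then F i s else 0) ᵥ* U) k =
        bl b F (fun i => U i k) j s := by
      intro k
      rw [Matrix.vecMul, dotProduct]
      unfold bl
      rw [Finset.sum_filter]
      refine Finset.sum_congr rfl fun i _ => ?_
      split_ifs
      · ring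
      · rw [zero_mul]
    simp only [e1] at h1
    have e2 : ∑ i, ‖(if b i = j then F i s else 0 : ℂ)‖ ^ 2 =
        ∑ i ∈ Finset.univ.filter (fun i => b i = j), ‖F i s‖ ^ 2 := by
      rw [Finset.sum_filter]
      refine Finset.sum_congr rfl fun i _ => ?_
      split_ifs
      · rfl
      · simp
    rw [e2] at h1
    have e3 : ∀ z : ℂ, ‖z‖ₑ ^ 2 = ENNReal.ofReal (‖z‖ ^ 2) := fun z => by
      rw [ENNReal.ofReal_pow (norm_nonneg _), ofReal_norm]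
    simp only [e3]
    rw [← ENNReal.ofReal_sum_of_nonneg fun k _ => by positivity,
      ← ENNReal.ofReal_sum_of_nonneg fun k _ => by positivity, h1]
  calc ∑ k, (∫⁻ s, ‖∑ i, U i k * F i s‖ₑ ^ 2 * w s ∂μ) ^ p
      ≤ ∑ k, ∑ j ∈ Finset.univ.image b, cb lam Q p j *
          ∫⁻ s, ‖bl b F (fun i => U i k) j s‖ₑ ^ 2 * w s ^ p ∂μ :=
        Finset.sum_le_sum fun k _ => blk_one hF hw b hl0 hp _ (hB _ (hcol k))
    _ = ∑ j ∈ Finset.univ.image b, cb lam Q p j *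
          ∫⁻ s, (∑ k, ‖bl b F (fun i => U i k) j s‖ₑ ^ 2) * w s ^ p ∂μ := by
        rw [Finset.sum_comm]
        refine Finset.sum_congr rfl fun j _ => ?_
        rw [← Finset.mul_sum]
        congr 1
        have m1 : ∀ k, Measurable fun s => ‖bl b F (fun i => U i k) j s‖ₑ ^ 2 * w s ^ p :=
          fun k => ((bl_meas b hF _ j).enorm.pow_const 2).mul (hw.pow_const p)
        rw [← lintegral_finsetSum _ fun k _ => m1 k]
        refine lintegral_congr fun s => ?_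
        rw [Finset.sum_mul]
    _ = ∑ j ∈ Finset.univ.image b, ∑ i ∈ Finset.univ.filter (fun i => b i = j), cb lam Q p (b i) *
          ∫⁻ s, ‖F i s‖ₑ ^ 2 * w s ^ p ∂μ := by
        refine Finset.sum_congr rfl fun j _ => ?_
        have m1 : ∀ i, Measurable fun s => ‖F i s‖ₑ ^ 2 * w s ^ p :=
          fun i => ((hF i).enorm.pow_const 2).mul (hw.pow_const p)
        simp only [hpars, Finset.sum_mul]
        rw [lintegral_finsetSum _ fun i _ => m1 i, Finset.mul_sum]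
        refine Finset.sum_congr rfl fun i hi => ?_
        rw [(Finset.mem_filter.1 hi).2]
    _ = _ := Finset.sum_fiberwise_of_maps_to (fun i _ => Finset.mem_image_of_mem b
          (Finset.mem_univ i)) _

/-- the form of one combination of unit length -/
theorem blk_unit {F : Fin n → S → ℂ} (hF : ∀ i, Measurable (F i)) {w : S → ℝ≥0∞}
    (hw : Measurable w) (b : Fin n → ℕ) {lam Q : ℝ≥0} (hl0 : lam ≠ 0) {p : ℝ}
    (hp : 1 < p) (hB : ∀ g : Fin n → ℂ, ∑ i, ‖g i‖ ^ 2 ≤ 1 → ∀ j,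
      ∫⁻ s, ‖bl b F g j s‖ₑ ^ 2 ∂μ ≤ Q * (2⁻¹ : ℝ≥0∞) ^ j)
    (g : Fin n → ℂ) (hg : ∑ i, ‖g i‖ ^ 2 ≤ 1) :
    (∫⁻ s, ‖∑ i, g i * F i s‖ₑ ^ 2 * w s ∂μ) ^ p ≤
      ∑ i, cb lam Q p (b i) * ∫⁻ s, ‖F i s‖ₑ ^ 2 * w s ^ p ∂μ := by
  have hcs : ∀ (j : ℕ) (s : S), ‖bl b F g j s‖ₑ ^ 2 ≤
      ∑ i ∈ Finset.univ.filter (fun i => b i = j), ‖F i s‖ₑ ^ 2 := by
    intro j s
    have e3 : ∀ z : ℂ, ‖z‖ₑ ^ 2 = ENNReal.ofReal (‖z‖ ^ 2) := fun z => by
      rw [ENNReal.ofReal_pow (norm_nonneg _), ofReal_norm]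
    simp only [e3]
    rw [← ENNReal.ofReal_sum_of_nonneg fun k _ => by positivity]
    refine ENNReal.ofReal_le_ofReal ?_
    have h1 := Pool.Agent.Q98.NR.cs (Finset.univ.filter (fun i => b i = j)) g (fun i => F i s)
    have h2 : ∑ i ∈ Finset.univ.filter (fun i => b i = j), ‖g i‖ ^ 2 ≤ 1 :=
      (Finset.sum_le_sum_of_subset_of_nonneg (Finset.filter_subset _ _)
        fun i _ _ => by positivity).trans hg
    have h3 : 0 ≤ ∑ i ∈ Finset.univ.filter (fun i => b i = j), ‖F i s‖ ^ 2 :=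
      Finset.sum_nonneg fun i _ => by positivity
    have h4 : 0 ≤ ∑ i ∈ Finset.univ.filter (fun i => b i = j), ‖g i‖ ^ 2 :=
      Finset.sum_nonneg fun i _ => by positivity
    calc ‖bl b F g j s‖ ^ 2 ≤ (Real.sqrt (∑ i ∈ Finset.univ.filter (fun i => b i = j), ‖g i‖ ^ 2) *
          Real.sqrt (∑ i ∈ Finset.univ.filter (fun i => b i = j), ‖F i s‖ ^ 2)) ^ 2 :=
          pow_le_pow_left₀ (norm_nonneg _) h1 2
      _ = (∑ i ∈ Finset.univ.filter (fun i => b i = j), ‖g i‖ ^ 2) *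
          ∑ i ∈ Finset.univ.filter (fun i => b i = j), ‖F i s‖ ^ 2 := by
          rw [mul_pow, Real.sq_sqrt h4, Real.sq_sqrt h3]
      _ ≤ 1 * ∑ i ∈ Finset.univ.filter (fun i => b i = j), ‖F i s‖ ^ 2 :=
          mul_le_mul_of_nonneg_right h2 h3
      _ = _ := one_mul _
  calc _ ≤ ∑ j ∈ Finset.univ.image b, cb lam Q p j *
          ∫⁻ s, ‖bl b F g j s‖ₑ ^ 2 * w s ^ p ∂μ := blk_one hF hw b hl0 hp g (hB g hg)
    _ ≤ ∑ j ∈ Finset.univ.image b, cb lam Q p j *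
          ∫⁻ s, (∑ i ∈ Finset.univ.filter (fun i => b i = j), ‖F i s‖ₑ ^ 2) * w s ^ p ∂μ := by
        refine Finset.sum_le_sum fun j _ => mul_le_mul' le_rfl (lintegral_mono fun s => ?_)
        exact mul_le_mul' (hcs j s) le_rfl
    _ = ∑ j ∈ Finset.univ.image b, ∑ i ∈ Finset.univ.filter (fun i => b i = j), cb lam Q p (b i) *
          ∫⁻ s, ‖F i s‖ₑ ^ 2 * w s ^ p ∂μ := by
        refine Finset.sum_congr rfl fun j _ => ?_
        have m1 : ∀ i, Measurable fun s => ‖F i s‖ₑ ^ 2 * w s ^ p :=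
          fun i => ((hF i).enorm.pow_const 2).mul (hw.pow_const p)
        simp only [Finset.sum_mul]
        rw [lintegral_finsetSum _ fun i _ => m1 i, Finset.mul_sum]
        refine Finset.sum_congr rfl fun i hi => ?_
        rw [(Finset.mem_filter.1 hi).2]
    _ = _ := Finset.sum_fiberwise_of_maps_to (fun i _ => Finset.mem_image_of_mem b
          (Finset.mem_univ i)) _

end blocks

end Pool.Agent.Q98.NS
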