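import Pool.Agent.Q98.NS.Blk
import Pool.Agent.Q98.NR.Ess2
import Pool.Agent.Y604.NK.MEAS

/-!
# Normal operators plus operators of a Schatten class: the calculus and the Cauchy transforms
-/

set_option autoImplicit false

namespace Pool.Agent.Q98.NS

open MeasureTheory Set Metric Filter Topology
open scoped ENNReal NNReal ComplexConjugate InnerProductSpace
open Pool.Agent.Y283.NK (lm LogBd ct ea IsMul)
open Pool.Agent.Q98.RB
open Pool.Agent.Q98.NR
open Pool.Agent.Y271.RO (ht Bd hCTG)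

variable {S : Type} [MeasurableSpace S] {μ : Measure S}

/-! ### The calculus -/

theorem mul_memLp {ψ : S → ℂ} (hψ : Measurable ψ) {M : ℝ} (hM : ∀ s, ‖ψ s‖ ≤ M) (f : Lp ℂ 2 μ) :
    MemLp (fun s => ψ s * f s) 2 μ :=
  MemLp.of_le_mul (c := M) (Lp.memLp f) (hψ.aestronglyMeasurable.mul (Lp.aestronglyMeasurable f))
    (Eventually.of_forall fun s => by
      rw [norm_mul]
      exact mul_le_mul_of_nonneg_right (hM s) (norm_nonneg _))

/-- the multiplication operator -/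
noncomputable def mulL {ψ : S → ℂ} (hψ : Measurable ψ) {M : ℝ} (hM : ∀ s, ‖ψ s‖ ≤ M) :
    Lp ℂ 2 μ →L[ℂ] Lp ℂ 2 μ :=
  LinearMap.mkContinuous
    { toFun := fun f => (mul_memLp hψ hM f).toLp _
      map_add' := fun f g => by
        refine Lp.ext ?_
        filter_upwards [(mul_memLp hψ hM (f + g)).coeFn_toLp, (mul_memLp hψ hM f).coeFn_toLp,
          (mul_memLp hψ hM g).coeFn_toLp, Lp.coeFn_add f g,
          Lp.coeFn_add ((mul_memLp hψ hM f).toLp _) ((mul_memLp hψ hM g).toLp _)]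
          with s h1 h2 h3 h4 h5
        rw [h1, h5, Pi.add_apply, h2, h3, h4, Pi.add_apply, mul_add]
      map_smul' := fun c f => by
        refine Lp.ext ?_
        filter_upwards [(mul_memLp hψ hM (c • f)).coeFn_toLp, (mul_memLp hψ hM f).coeFn_toLp,
          Lp.coeFn_smul c f, Lp.coeFn_smul c ((mul_memLp hψ hM f).toLp _)]
          with s h1 h2 h3 h4
        rw [RingHom.id_apply, h1, h4, Pi.smul_apply, h2, h3, Pi.smul_apply, smul_eq_mul,
          smul_eq_mul]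
        ring } M (fun f => by
      refine Lp.norm_le_mul_norm_of_ae_le_mul ?_
      filter_upwards [(mul_memLp hψ hM f).coeFn_toLp] with s h1
      show ‖((mul_memLp hψ hM f).toLp _ : S → ℂ) s‖ ≤ _
      rw [h1, norm_mul]
      exact mul_le_mul_of_nonneg_right (hM s) (norm_nonneg _))

theorem mulL_ae {ψ : S → ℂ} (hψ : Measurable ψ) {M : ℝ} (hM : ∀ s, ‖ψ s‖ ≤ M) (f : Lp ℂ 2 μ) :
    ⇑(mulL hψ hM f) =ᵐ[μ] fun s => ψ s * f s :=
  (mul_memLp hψ hM f).coeFn_toLp

theorem mulL_norm {ψ : S → ℂ} (hψ : Measurable ψ) {M : ℝ} (hM : ∀ s, ‖ψ s‖ ≤ M) (h0 : 0 ≤ M) :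
    ‖(mulL hψ hM : Lp ℂ 2 μ →L[ℂ] Lp ℂ 2 μ)‖ ≤ M :=
  LinearMap.mkContinuous_norm_le _ h0 _

section cal

variable {φ : S → ℂ} {R : ℝ}

/-- `φ` with values in the disc -/
def ph (hb : ∀ s, ‖φ s‖ ≤ R) (s : S) : DD R := ⟨φ s, mem_closedBall_zero_iff.2 (hb s)⟩

theorem ph_meas (hφ : Measurable φ) (hb : ∀ s, ‖φ s‖ ≤ R) : Measurable (ph hb) :=
  hφ.subtype_mk

theorem comp_meas (hφ : Measurable φ) (hb : ∀ s, ‖φ s‖ ≤ R) (h : C(DD R, ℂ)) :
    Measurable (fun s => h (ph hb s)) :=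
  h.continuous.measurable.comp (ph_meas hφ hb)

omit [MeasurableSpace S] in
theorem comp_bd (hb : ∀ s, ‖φ s‖ ≤ R) (h : C(DD R, ℂ)) (s : S) : ‖h (ph hb s)‖ ≤ ‖h‖ :=
  h.norm_coe_le_norm _

/-- the calculus of the multiplication by `φ` -/
noncomputable def mcal (μ : Measure S) (hφ : Measurable φ) (hb : ∀ s, ‖φ s‖ ≤ R) :
    C(DD R, ℂ) →ₐ[ℂ] (Lp ℂ 2 μ →L[ℂ] Lp ℂ 2 μ) :=
  AlgHom.ofLinearMap
    { toFun := fun h => mulL (comp_meas hφ hb h) (comp_bd hb h)
      map_add' := fun h k => by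
        ext1 f
        refine Lp.ext ?_
        filter_upwards [mulL_ae (comp_meas hφ hb (h + k)) (comp_bd hb (h + k)) f,
          mulL_ae (comp_meas hφ hb h) (comp_bd hb h) f, mulL_ae (comp_meas hφ hb k) (comp_bd hb k) f,
          Lp.coeFn_add (mulL (comp_meas hφ hb h) (comp_bd hb h) f)
            (mulL (comp_meas hφ hb k) (comp_bd hb k) f)] with s h1 h2 h3 h4
        have e : (mulL (comp_meas hφ hb h) (comp_bd hb h) +
            mulL (comp_meas hφ hb k) (comp_bd hb k) : Lp ℂ 2 μ →L[ℂ] Lp ℂ 2 μ) f =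
            mulL (comp_meas hφ hb h) (comp_bd hb h) f +
            mulL (comp_meas hφ hb k) (comp_bd hb k) f := rfl
        rw [h1, e, h4, Pi.add_apply, h2, h3, ContinuousMap.add_apply, add_mul]
      map_smul' := fun c h => by
        ext1 f
        refine Lp.ext ?_
        filter_upwards [mulL_ae (comp_meas hφ hb (c • h)) (comp_bd hb (c • h)) f,
          mulL_ae (comp_meas hφ hb h) (comp_bd hb h) f,
          Lp.coeFn_smul c (mulL (comp_meas hφ hb h) (comp_bd hb h) f)] with s h1 h2 h3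
        have e : (c • mulL (comp_meas hφ hb h) (comp_bd hb h) : Lp ℂ 2 μ →L[ℂ] Lp ℂ 2 μ) f =
            c • mulL (comp_meas hφ hb h) (comp_bd hb h) f := rfl
        rw [RingHom.id_apply, h1, e, h3, Pi.smul_apply, h2, ContinuousMap.smul_apply, smul_eq_mul,
          smul_eq_mul]
        ring }
    (by
      ext1 f
      refine Lp.ext ?_
      filter_upwards [mulL_ae (comp_meas hφ hb 1) (comp_bd hb 1) f] with s h1
      show (mulL (comp_meas hφ hb 1) (comp_bd hb 1) f : S → ℂ) s = f s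
      rw [h1, ContinuousMap.one_apply, one_mul])
    (fun h k => by
      ext1 f
      refine Lp.ext ?_
      filter_upwards [mulL_ae (comp_meas hφ hb (h * k)) (comp_bd hb (h * k)) f,
        mulL_ae (comp_meas hφ hb h) (comp_bd hb h) (mulL (comp_meas hφ hb k) (comp_bd hb k) f),
        mulL_ae (comp_meas hφ hb k) (comp_bd hb k) f] with s h1 h2 h3
      show (mulL (comp_meas hφ hb (h * k)) (comp_bd hb (h * k)) f : S → ℂ) s =
        (mulL (comp_meas hφ hb h) (comp_bd hb h) (mulL (comp_meas hφ hb k) (comp_bd hb k) f) :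
          S → ℂ) s
      rw [h1, h2, h3, ContinuousMap.mul_apply, mul_assoc])

theorem mcal_ae (hφ : Measurable φ) (hb : ∀ s, ‖φ s‖ ≤ R) (h : C(DD R, ℂ)) (f : Lp ℂ 2 μ) :
    ⇑(mcal μ hφ hb h f) =ᵐ[μ] fun s => h (ph hb s) * f s :=
  mulL_ae (comp_meas hφ hb h) (comp_bd hb h) f

theorem mcal_op (hφ : Measurable φ) (hb : ∀ s, ‖φ s‖ ≤ R) {h : ℂ → ℂ} (hh : Continuous h)
    (f : Lp ℂ 2 μ) : ⇑(op (mcal μ hφ hb) h f) =ᵐ[μ] fun s => h (φ s) * f s := by
  filter_upwards [mcal_ae hφ hb (rs R h) f] with s h1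
  show (mcal μ hφ hb (rs R h) f : S → ℂ) s = _
  rw [h1, rs_apply hh]
  rfl

theorem mcal_cal (hφ : Measurable φ) (hb : ∀ s, ‖φ s‖ ≤ R) (hR : 0 < R)
    {N : Lp ℂ 2 μ →L[ℂ] Lp ℂ 2 μ} (hN : IsMul φ N) : Cal N R (mcal μ hφ hb) := by
  refine ⟨hR, ?_, ?_⟩
  · refine AddMonoidHomClass.continuous_of_bound (mcal μ hφ hb) 1 fun h => ?_
    rw [one_mul]
    exact mulL_norm (comp_meas hφ hb h) (comp_bd hb h) (norm_nonneg _)
  · ext1 f
    refine Lp.ext ?_
    filter_upwards [mcal_ae hφ hb ⟨Subtype.val, continuous_subtype_val⟩ f, hN.eq f] with s h1 h2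
    rw [h1, h2]
    rfl

/-! ### The Cauchy transforms -/

theorem isK_ct [SigmaFinite μ] (hφ : Measurable φ) (hb : ∀ s, ‖φ s‖ ≤ R) (w x : Lp ℂ 2 μ) :
    IsK (mcal μ hφ hb) (innerSL ℂ w) x (ct φ w x) := by
  obtain ⟨h1, -, h2⟩ := hCTG S μ φ hφ w x
  refine ⟨h1, fun c r M g hg => ?_⟩
  obtain ⟨h3, h4⟩ := h2 c r M g hg
  refine ⟨h3, ?_⟩
  rw [← h4]
  have hc : Continuous (ht g) := by
    by_cases hr : 0 < r
    · exact ht_cont hr hg
    · have hg0 : g = 0 := by
        funext z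
        exact hg.supp z (by rw [ball_eq_empty.2 (not_lt.1 hr)]; exact notMem_empty z)
      have : ht g = fun _ => 0 := by
        funext l
        rw [hg0]
        simp [ht]
      rw [this]
      exact continuous_const
  rw [innerSL_apply_apply, L2.inner_def]
  refine integral_congr_ae ?_
  filter_upwards [mcal_op hφ hb hc x] with s h5
  rw [h5, RCLike.inner_apply]
  ring

end cal

end Pool.Agent.Q98.NS
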