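import Pool.Agent.Q98.NS.Cau

/-!
# Normal operators plus operators of a Schatten class: the energies
-/

set_option autoImplicit false

namespace Pool.Agent.Q98.NS

open MeasureTheory Set Metric Filter Topology
open Matrix
open scoped ENNReal NNReal ComplexConjugate InnerProductSpace
open Pool.Agent.Y283.NK (lm LogBd ct ea IsMul)
open Pool.Agent.Q98.RB
open Pool.Agent.Q98.NR
open Pool.Agent.Y271.RO (ht Bd hCTG)

variable {S : Type} [MeasurableSpace S]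

/-- the energy -/
noncomputable def eg (μ : Measure S) (φ : S → ℂ) (F : S → ℂ) (z : ℂ) : ℝ≥0∞ :=
  ∫⁻ s, ‖F s‖ₑ ^ 2 * ‖z - φ s‖ₑ⁻¹ ∂μ

/-- the Cauchy transform -/
noncomputable def cg (μ : Measure S) (φ : S → ℂ) (G F : S → ℂ) (z : ℂ) : ℂ :=
  ∫ s, conj (G s) * F s * (z - φ s)⁻¹ ∂μ

/-- the energy of order `p` -/
noncomputable def ep (μ : Measure S) (φ : S → ℂ) (p : ℝ) (F : S → ℂ) (z : ℂ) : ℝ≥0∞ :=
  ∫⁻ s, ‖F s‖ₑ ^ 2 * (‖z - φ s‖ₑ⁻¹) ^ p ∂μ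

variable {μ : Measure S} {φ : S → ℂ}

theorem ea_eq (f : Lp ℂ 2 μ) (z : ℂ) : ea φ f z = eg μ φ f z := rfl

theorem ct_eq (g f : Lp ℂ 2 μ) (z : ℂ) : ct φ g f z = cg μ φ g f z := rfl

theorem pt_le (a b w : ℂ) : ‖conj a * b * w⁻¹‖ₑ ≤
    (‖a‖ₑ * (‖w‖ₑ⁻¹) ^ (1 / 2 : ℝ)) * (‖b‖ₑ * (‖w‖ₑ⁻¹) ^ (1 / 2 : ℝ)) := by
  by_cases hw : w = 0
  · rw [hw]
    simp
  have h1 : (‖w‖ₑ⁻¹) ^ (1 / 2 : ℝ) * (‖w‖ₑ⁻¹) ^ (1 / 2 : ℝ) = ‖w‖ₑ⁻¹ := by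
    rw [← ENNReal.rpow_add_of_nonneg _ _ (by norm_num) (by norm_num)]
    norm_num
  rw [enorm_mul, enorm_mul, enorm_inv hw, RCLike.enorm_conj]
  calc ‖a‖ₑ * ‖b‖ₑ * ‖w‖ₑ⁻¹ = ‖a‖ₑ * ‖b‖ₑ * ((‖w‖ₑ⁻¹) ^ (1 / 2 : ℝ) * (‖w‖ₑ⁻¹) ^ (1 / 2 : ℝ)) := by
        rw [h1]
    _ ≤ _ := le_of_eq (by ring)

theorem sq_pt (a w : ℂ) : (‖a‖ₑ * (‖w‖ₑ⁻¹) ^ (1 / 2 : ℝ)) ^ (2:ℝ) = ‖a‖ₑ ^ 2 * ‖w‖ₑ⁻¹ := by
  rw [ENNReal.mul_rpow_of_nonneg _ _ (by norm_num), ← ENNReal.rpow_mul, ENNReal.rpow_two]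
  norm_num

theorem ker_meas (hφ : Measurable φ) (z : ℂ) : Measurable fun s => ‖z - φ s‖ₑ⁻¹ :=
  (measurable_const.sub hφ).enorm.inv

theorem lint_cs (hφ : Measurable φ) {G F : S → ℂ} (hG : Measurable G) (hF : Measurable F) (z : ℂ) :
    ∫⁻ s, ‖conj (G s) * F s * (z - φ s)⁻¹‖ₑ ∂μ ≤
      (eg μ φ G z) ^ (1 / 2 : ℝ) * (eg μ φ F z) ^ (1 / 2 : ℝ) := by
  have h1 := ENNReal.lintegral_mul_le_Lp_mul_Lq μ Real.HolderConjugate.two_two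
    (f := fun s => ‖G s‖ₑ * (‖z - φ s‖ₑ⁻¹) ^ (1 / 2 : ℝ))
    (g := fun s => ‖F s‖ₑ * (‖z - φ s‖ₑ⁻¹) ^ (1 / 2 : ℝ))
    (hG.enorm.mul ((ker_meas hφ z).pow_const _)).aemeasurable
    (hF.enorm.mul ((ker_meas hφ z).pow_const _)).aemeasurable
  simp only [sq_pt] at h1
  refine (lintegral_mono fun s => ?_).trans h1
  exact pt_le _ _ _

theorem cg_le (hφ : Measurable φ) {G F : S → ℂ} (hG : Measurable G) (hF : Measurable F) (z : ℂ) :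
    ‖cg μ φ G F z‖ₑ ≤ (eg μ φ G z) ^ (1 / 2 : ℝ) * (eg μ φ F z) ^ (1 / 2 : ℝ) :=
  (enorm_integral_le_lintegral_enorm _).trans (lint_cs hφ hG hF z)

theorem cg_int (hφ : Measurable φ) {G F : S → ℂ} (hG : Measurable G) (hF : Measurable F) {z : ℂ}
    (h1 : eg μ φ G z ≠ ⊤) (h2 : eg μ φ F z ≠ ⊤) :
    Integrable (fun s => conj (G s) * F s * (z - φ s)⁻¹) μ := by
  refine ⟨?_, ?_⟩
  · exact (((Complex.continuous_conj.measurable.comp hG).mul hF).mul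
      (measurable_const.sub hφ).inv).aestronglyMeasurable
  · refine lt_of_le_of_lt (lint_cs hφ hG hF z) (ENNReal.mul_lt_top ?_ ?_)
    · exact lt_top_iff_ne_top.2 (ENNReal.rpow_ne_top_of_nonneg (by norm_num) h1)
    · exact lt_top_iff_ne_top.2 (ENNReal.rpow_ne_top_of_nonneg (by norm_num) h2)

theorem cg_comb {κ ι : Type} [Fintype κ] [Fintype ι] (hφ : Measurable φ) {G : κ → S → ℂ}
    {F : ι → S → ℂ} (hG : ∀ i, Measurable (G i)) (hF : ∀ i, Measurable (F i)) {z : ℂ}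
    (h1 : ∀ i, eg μ φ (G i) z ≠ ⊤) (h2 : ∀ i, eg μ φ (F i) z ≠ ⊤) (g : κ → ℂ) (f : ι → ℂ) :
    cg μ φ (fun s => ∑ i, g i * G i s) (fun s => ∑ k, f k * F k s) z =
      ∑ i, ∑ k, conj (g i) * f k * cg μ φ (G i) (F k) z := by
  have hi : ∀ i k, Integrable (fun s => conj (g i) * f k *
      (conj (G i s) * F k s * (z - φ s)⁻¹)) μ := fun i k =>
    (cg_int hφ (hG i) (hF k) (h1 i) (h2 k)).const_mul _
  have e1 : ∀ i k, conj (g i) * f k * cg μ φ (G i) (F k) z =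
      ∫ s, conj (g i) * f k * (conj (G i s) * F k s * (z - φ s)⁻¹) ∂μ := fun i k => by
    unfold cg
    rw [integral_const_mul]
  simp only [e1]
  have e2 : ∀ i, ∑ k, ∫ s, conj (g i) * f k * (conj (G i s) * F k s * (z - φ s)⁻¹) ∂μ =
      ∫ s, ∑ k, conj (g i) * f k * (conj (G i s) * F k s * (z - φ s)⁻¹) ∂μ := fun i => by
    rw [integral_finsetSum _ fun k _ => hi i k]
  simp only [e2]
  rw [← integral_finsetSum _ fun i _ => integrable_finsetSum _ fun k _ => hi i k]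
  unfold cg
  refine integral_congr_ae (Eventually.of_forall fun s => ?_)
  simp only [map_sum, map_mul]
  rw [Finset.sum_mul_sum, Finset.sum_mul]
  refine Finset.sum_congr rfl fun i _ => ?_
  rw [Finset.sum_mul]
  refine Finset.sum_congr rfl fun k _ => ?_
  ring

/-! ### Integrals over discs -/

theorem ep_meas2 (hφ : Measurable φ) (p : ℝ) {F : S → ℂ} (hF : Measurable F) :
    Measurable (fun q : ℂ × S => ‖F q.2‖ₑ ^ 2 * (‖q.1 - φ q.2‖ₑ⁻¹) ^ p) := by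
  have h1 : Measurable (fun q : ℂ × S => F q.2) := hF.comp measurable_snd
  have h2 : Measurable (fun q : ℂ × S => q.1 - φ q.2) :=
    measurable_fst.sub (hφ.comp measurable_snd)
  exact (h1.enorm.pow_const 2).mul (h2.enorm.inv.pow_const p)

theorem ep_meas [SigmaFinite μ] (hφ : Measurable φ) (p : ℝ) {F : S → ℂ} (hF : Measurable F) :
    Measurable (ep μ φ p F) := by
  unfold ep
  exact Measurable.lintegral_prod_right'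
    (f := fun q : ℂ × S => ‖F q.2‖ₑ ^ 2 * (‖q.1 - φ q.2‖ₑ⁻¹) ^ p) (ep_meas2 hφ p hF)

theorem eg_meas [SigmaFinite μ] (hφ : Measurable φ) {F : S → ℂ} (hF : Measurable F) :
    Measurable (eg μ φ F) := by
  have h1 : eg μ φ F = ep μ φ 1 F := by
    funext z
    unfold eg ep
    simp only [ENNReal.rpow_one]
  rw [h1]
  exact ep_meas hφ 1 hF

theorem ep_ball [SigmaFinite μ] (hφ : Measurable φ) {p : ℝ} {F : S → ℂ} (hF : Measurable F) {R : ℝ}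
    {C : ℝ≥0} (hC : ∀ w : ℂ, ∫⁻ z in ball (0:ℂ) R, (‖z - w‖ₑ⁻¹) ^ p ≤ C) :
    ∫⁻ z in ball (0:ℂ) R, ep μ φ p F z ≤ C * ∫⁻ s, ‖F s‖ₑ ^ 2 ∂μ := by
  unfold ep
  rw [lintegral_lintegral_swap (f := fun (z : ℂ) (s : S) => ‖F s‖ₑ ^ 2 * (‖z - φ s‖ₑ⁻¹) ^ p)
    (ep_meas2 hφ p hF).aemeasurable]
  have m1 : ∀ w : ℂ, Measurable fun z : ℂ => (‖z - w‖ₑ⁻¹) ^ p := fun w =>
    (measurable_id.sub measurable_const).enorm.inv.pow_const p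
  calc ∫⁻ s, (∫⁻ z in ball (0:ℂ) R, ‖F s‖ₑ ^ 2 * (‖z - φ s‖ₑ⁻¹) ^ p) ∂μ
      ≤ ∫⁻ s, C * ‖F s‖ₑ ^ 2 ∂μ := by
        refine lintegral_mono fun s => ?_
        rw [lintegral_const_mul _ (m1 _), mul_comm]
        exact mul_le_mul_left (hC (φ s)) _
    _ = C * ∫⁻ s, ‖F s‖ₑ ^ 2 ∂μ := by
        rw [lintegral_const_mul _ (hF.enorm.pow_const 2)]

theorem lint_sq (f : Lp ℂ 2 μ) : ∫⁻ s, ‖f s‖ₑ ^ 2 ∂μ = ‖f‖ₑ ^ 2 := by
  rw [Pool.Agent.Y604.NK.lint_sq, ENNReal.ofReal_pow (norm_nonneg _), ofReal_norm]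

theorem coe_meas (f : Lp ℂ 2 μ) : Measurable (fun s => f s) := (Lp.stronglyMeasurable f).measurable

end Pool.Agent.Q98.NS
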