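import Pool.Agent.Y978.NK.DET
import Pool.Agent.Y891.NK.POT
import Pool.Agent.Q98.NR.Pot
import Pool.Agent.Q98.NR.Ell

/-!
# Normal operators plus operators of a Schatten class: the regularised determinant

For an `n × n` matrix `A` the hypothesis `PF p A G` is that the sums of the `p`-th powers of the
diagonal entries of `A` in all orthonormal bases are at most `G`.  Then `det (1 - A) exp (tr A)` and
the inverse of `1 - A` are bounded in terms of `G`, `1 ≤ p ≤ 2`.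
-/

set_option autoImplicit false

namespace Pool.Agent.Q98.NS

open MeasureTheory Set Metric Filter Topology Matrix
open scoped ENNReal NNReal ComplexConjugate
open Pool.Agent.Y283.NK (lm LogBd)
open Pool.Agent.Q98.NR (lm_exp)

/-- the regularised determinant of `1 - A` -/
noncomputable def det2 {n : ℕ} (A : Matrix (Fin n) (Fin n) ℂ) : ℂ :=
  ((1 : Matrix (Fin n) (Fin n) ℂ) - A).det * Complex.exp A.trace

/-- the sums of powers of the diagonal entries in all orthonormal bases are bounded -/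
def PF (p : ℝ) {n : ℕ} (A : Matrix (Fin n) (Fin n) ℂ) (G : ℝ) : Prop :=
  ∀ U : Matrix (Fin n) (Fin n) ℂ, U * star U = 1 → ∑ k, ‖(star U * A * U) k k‖ ^ p ≤ G

theorem PF.nonneg {p : ℝ} {n : ℕ} {A : Matrix (Fin n) (Fin n) ℂ} {G : ℝ} (h : PF p A G) :
    0 ≤ G := by
  have h1 := h 1 (by simp)
  exact (Finset.sum_nonneg fun i _ => Real.rpow_nonneg (norm_nonneg _) _).trans h1

/-! ### One factor -/

theorem one_sub_le (w : ℂ) : ‖1 - w‖ ≤ Real.exp (-w.re + ‖w‖ ^ 2 / 2) := by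
  have h1 : ‖1 - w‖ ^ 2 = 1 + (-(2 * w.re) + ‖w‖ ^ 2) := by
    rw [← Complex.normSq_eq_norm_sq, ← Complex.normSq_eq_norm_sq, Complex.normSq_apply,
      Complex.normSq_apply]
    simp
    ring
  have h2 : ‖1 - w‖ ^ 2 ≤ (Real.exp (-w.re + ‖w‖ ^ 2 / 2)) ^ 2 := by
    rw [h1, ← Real.exp_nat_mul]
    have := Real.add_one_le_exp (-(2 * w.re) + ‖w‖ ^ 2)
    push_cast
    calc 1 + (-(2 * w.re) + ‖w‖ ^ 2) ≤ Real.exp (-(2 * w.re) + ‖w‖ ^ 2) := by linarith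
      _ = _ := by ring_nf
  exact (pow_le_pow_iff_left₀ (norm_nonneg _) (Real.exp_pos _).le two_ne_zero).1 h2

theorem fac_le (w : ℂ) {p : ℝ} (h1 : 1 ≤ p) (h2 : p ≤ 2) :
    ‖(1 - w) * Complex.exp w‖ ≤ Real.exp (2 * ‖w‖ ^ p) := by
  rw [norm_mul, Complex.norm_exp]
  have hw := norm_nonneg w
  rcases le_total ‖w‖ 1 with h | h
  · have h3 : ‖w‖ ^ 2 ≤ ‖w‖ ^ p := by
      rcases hw.eq_or_lt with h0 | h0
      · rw [← h0]
        simp
        rw [Real.zero_rpow (by linarith)]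
      · rw [← Real.rpow_two]
        exact Real.rpow_le_rpow_of_exponent_ge h0 h h2
    have h4 : 0 ≤ ‖w‖ ^ p := Real.rpow_nonneg hw _
    calc ‖1 - w‖ * Real.exp w.re ≤ Real.exp (-w.re + ‖w‖ ^ 2 / 2) * Real.exp w.re :=
          mul_le_mul_of_nonneg_right (one_sub_le w) (Real.exp_pos _).le
      _ = Real.exp (‖w‖ ^ 2 / 2) := by
          rw [← Real.exp_add]
          congr 1
          ring
      _ ≤ _ := Real.exp_le_exp.2 (by linarith)
  · have h3 : ‖w‖ ≤ ‖w‖ ^ p := by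
      calc ‖w‖ = ‖w‖ ^ (1:ℝ) := (Real.rpow_one _).symm
        _ ≤ _ := Real.rpow_le_rpow_of_exponent_le h h1
    have h4 : ‖1 - w‖ ≤ Real.exp ‖w‖ := by
      calc ‖1 - w‖ ≤ ‖(1:ℂ)‖ + ‖w‖ := norm_sub_le _ _
        _ = ‖w‖ + 1 := by rw [norm_one, add_comm]
        _ ≤ _ := Real.add_one_le_exp _
    have h5 : Real.exp w.re ≤ Real.exp ‖w‖ := Real.exp_le_exp.2 (Complex.re_le_norm w)
    calc ‖1 - w‖ * Real.exp w.re ≤ Real.exp ‖w‖ * Real.exp ‖w‖ :=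
          mul_le_mul h4 h5 (Real.exp_pos _).le (Real.exp_pos _).le
      _ = Real.exp (2 * ‖w‖) := by rw [← Real.exp_add]; congr 1; ring
      _ ≤ _ := Real.exp_le_exp.2 (by linarith)

/-- the lower bound for small `w` -/
theorem fac_ge (w : ℂ) (h : ‖w‖ ≤ 1 / 2) :
    (‖(1 - w) * Complex.exp w‖)⁻¹ ≤ Real.exp (4 * ‖w‖ ^ 2) := by
  have hw := norm_nonneg w
  have h0 : 1 / 2 ≤ ‖1 - w‖ := by
    have := norm_sub_norm_le (1:ℂ) w
    rw [norm_one] at this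
    linarith
  have hne : (1 - w) ≠ 0 := by
    intro h1
    rw [h1, norm_zero] at h0
    linarith
  obtain ⟨v, hv⟩ : ∃ v : ℂ, v = -w / (1 - w) := ⟨_, rfl⟩
  have h1 : (1 - w)⁻¹ = 1 - v := by
    rw [hv]
    field_simp
    ring
  have hvn : ‖v‖ ≤ 2 * ‖w‖ := by
    rw [hv, norm_div, norm_neg, div_le_iff₀ (by linarith)]
    nlinarith
  have hre : -v.re ≤ w.re + 2 * ‖w‖ ^ 2 := by
    have e : -v = w + w * w / (1 - w) := by
      rw [hv]
      field_simp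
      ring
    have e2 : -v.re = w.re + (w * w / (1 - w)).re := by
      rw [← Complex.neg_re, e, Complex.add_re]
    rw [e2]
    have h3 : (w * w / (1 - w)).re ≤ 2 * ‖w‖ ^ 2 := by
      refine (Complex.re_le_norm _).trans ?_
      rw [norm_div, norm_mul, div_le_iff₀ (by linarith)]
      nlinarith [mul_nonneg hw hw]
    linarith
  rw [norm_mul, Complex.norm_exp, mul_inv, ← norm_inv, h1, ← Real.exp_neg]
  calc ‖1 - v‖ * Real.exp (-w.re) ≤ Real.exp (-v.re + ‖v‖ ^ 2 / 2) * Real.exp (-w.re) :=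
        mul_le_mul_of_nonneg_right (one_sub_le v) (Real.exp_pos _).le
    _ = Real.exp (-v.re + ‖v‖ ^ 2 / 2 - w.re) := by
        rw [← Real.exp_add]
        congr 1
    _ ≤ _ := by
        refine Real.exp_le_exp.2 ?_
        have h4 : ‖v‖ ^ 2 ≤ (2 * ‖w‖) ^ 2 := pow_le_pow_left₀ (norm_nonneg _) hvn 2
        nlinarith

/-! ### The determinant -/

theorem trace_conj {n : ℕ} (A U : Matrix (Fin n) (Fin n) ℂ) (hU : U * star U = 1) :
    (star U * A * U).trace = A.trace := by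
  rw [Matrix.trace_mul_comm, ← mul_assoc, hU, one_mul]

/-- the determinant as a product, for all multiples of a matrix at once -/
theorem det2_prod {n : ℕ} (A : Matrix (Fin n) (Fin n) ℂ) :
    ∃ U : Matrix (Fin n) (Fin n) ℂ, U * star U = 1 ∧ ∀ t : ℂ,
      det2 (t • A) = ∏ k, ((1 - t * (star U * A * U) k k) *
        Complex.exp (t * (star U * A * U) k k)) := by
  obtain ⟨U, hU, hdet⟩ := Pool.Agent.Y978.NK.schur_det n A
  refine ⟨U, hU, fun t => ?_⟩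
  unfold det2
  rw [hdet t, Finset.prod_mul_distrib, ← Complex.exp_sum, Matrix.trace_smul,
    ← trace_conj A U hU, smul_eq_mul, Matrix.trace, Finset.mul_sum]
  rfl

theorem det2_bd {n : ℕ} {A : Matrix (Fin n) (Fin n) ℂ} {p G : ℝ} (h1 : 1 ≤ p) (h2 : p ≤ 2)
    (h : PF p A G) : ‖det2 A‖ ≤ Real.exp (2 * G) := by
  obtain ⟨U, hU, hd⟩ := det2_prod A
  have h3 := hd 1
  rw [one_smul] at h3
  rw [h3, norm_prod]
  calc ∏ k, ‖(1 - 1 * (star U * A * U) k k) * Complex.exp (1 * (star U * A * U) k k)‖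
      ≤ ∏ k, Real.exp (2 * ‖(star U * A * U) k k‖ ^ p) := by
        refine Finset.prod_le_prod (fun k _ => norm_nonneg _) fun k _ => ?_
        rw [one_mul]
        exact fac_le _ h1 h2
    _ = Real.exp (2 * ∑ k, ‖(star U * A * U) k k‖ ^ p) := by
        rw [← Real.exp_sum, Finset.mul_sum]
    _ ≤ _ := Real.exp_le_exp.2 (by linarith [h U hU])

theorem PF.smul {n : ℕ} {A : Matrix (Fin n) (Fin n) ℂ} {p G : ℝ} (h : PF p A G) (t : ℂ) :
    PF p (t • A) (‖t‖ ^ p * G) := by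
  intro U hU
  have e : ∀ k, ‖(star U * (t • A) * U) k k‖ ^ p = ‖t‖ ^ p * ‖(star U * A * U) k k‖ ^ p := by
    intro k
    rw [Matrix.mul_smul, Matrix.smul_mul, Matrix.smul_apply, smul_eq_mul, norm_mul,
      Real.mul_rpow (norm_nonneg _) (norm_nonneg _)]
  simp only [e]
  rw [← Finset.mul_sum]
  exact mul_le_mul_of_nonneg_left (h U hU) (Real.rpow_nonneg (norm_nonneg _) _)

/-- unitary matrices preserve the norm -/
theorem unit_norm {n : ℕ} (U : Matrix (Fin n) (Fin n) ℂ) (hU : U * star U = 1) (x : Fin n → ℂ) :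
    ∑ k, ‖(x ᵥ* U) k‖ ^ 2 = ∑ k, ‖x k‖ ^ 2 := by
  have h1 : ∀ y : Fin n → ℂ, ((∑ k, ‖y k‖ ^ 2 : ℝ) : ℂ) = y ⬝ᵥ star y := by
    intro y
    rw [dotProduct, Complex.ofReal_sum]
    refine Finset.sum_congr rfl fun k _ => ?_
    rw [Pi.star_apply, RCLike.star_def, Complex.mul_conj, Complex.normSq_eq_norm_sq]
  have h2 : ((∑ k, ‖(x ᵥ* U) k‖ ^ 2 : ℝ) : ℂ) = ((∑ k, ‖x k‖ ^ 2 : ℝ) : ℂ) := by
    rw [h1, h1, Matrix.star_vecMul, Matrix.dotProduct_mulVec, Matrix.vecMul_vecMul,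
      ← Matrix.star_eq_conjTranspose, hU, Matrix.vecMul_one]
  exact_mod_cast h2

/-- unitary matrices preserve the norm -/
theorem unit_norm' {n : ℕ} (U : Matrix (Fin n) (Fin n) ℂ) (hU : U * star U = 1) (y : Fin n → ℂ) :
    ∑ k, ‖(star U *ᵥ y) k‖ ^ 2 = ∑ k, ‖y k‖ ^ 2 := by
  have h1 := unit_norm U hU (star y)
  have e1 : ∀ k, ‖(star y ᵥ* U) k‖ = ‖(star U *ᵥ y) k‖ := by
    intro k
    have h2 : star (star y ᵥ* U) = star U *ᵥ y := by
      rw [Matrix.star_vecMul, star_star, Matrix.star_eq_conjTranspose]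
    rw [← h2, Pi.star_apply, norm_star]
  have e2 : ∀ k, ‖(star y) k‖ = ‖y k‖ := fun k => by rw [Pi.star_apply, norm_star]
  simpa only [e1, e2] using h1

theorem add_rpow_le' {a b p : ℝ} (ha : 0 ≤ a) (hb : 0 ≤ b) (h1 : 1 ≤ p) (h2 : p ≤ 2) :
    (a + b) ^ p ≤ 2 * (a ^ p + b ^ p) := by
  have h4 : (a + b) ^ p ≤ 2 ^ (p - 1) * (a ^ p + b ^ p) := by
    have h5 := NNReal.rpow_add_le_mul_rpow_add_rpow ⟨a, ha⟩ ⟨b, hb⟩ h1
    exact_mod_cast h5
  refine h4.trans ?_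
  refine mul_le_mul_of_nonneg_right ?_ (by positivity)
  calc (2:ℝ) ^ (p - 1) ≤ 2 ^ (1:ℝ) := Real.rpow_le_rpow_of_exponent_le (by norm_num) (by linarith)
    _ = 2 := Real.rpow_one 2

/-- a perturbation of rank one -/
theorem PF.add_rank {n : ℕ} {A : Matrix (Fin n) (Fin n) ℂ} {p G : ℝ} (h1 : 1 ≤ p) (h2 : p ≤ 2)
    (h : PF p A G) (x y : Fin n → ℂ) (hx : ∑ k, ‖x k‖ ^ 2 ≤ 1) (hy : ∑ k, ‖y k‖ ^ 2 ≤ 1) :
    PF p (A + Matrix.vecMulVec y x) (2 * (G + 1)) := by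
  intro U hU
  have e : ∀ k, (star U * (A + Matrix.vecMulVec y x) * U) k k =
      (star U * A * U) k k + (star U *ᵥ y) k * (x ᵥ* U) k := by
    intro k
    rw [Matrix.mul_add, Matrix.add_mul, Matrix.add_apply]
    congr 1
    rw [Matrix.mul_vecMulVec, Matrix.vecMulVec_mul, Matrix.vecMulVec_apply]
  have hx' := unit_norm U hU x
  have hy' := unit_norm' U hU y
  have hb : ∀ k, ‖(star U *ᵥ y) k * (x ᵥ* U) k‖ ^ p ≤
      (‖(star U *ᵥ y) k‖ ^ 2 + ‖(x ᵥ* U) k‖ ^ 2) / 2 := by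
    intro k
    have h3 : ‖(star U *ᵥ y) k * (x ᵥ* U) k‖ ≤
        (‖(star U *ᵥ y) k‖ ^ 2 + ‖(x ᵥ* U) k‖ ^ 2) / 2 := by
      rw [norm_mul]
      nlinarith [sq_nonneg (‖(star U *ᵥ y) k‖ - ‖(x ᵥ* U) k‖)]
    have h4 : (‖(star U *ᵥ y) k‖ ^ 2 + ‖(x ᵥ* U) k‖ ^ 2) / 2 ≤ 1 := by
      have h5 : ‖(star U *ᵥ y) k‖ ^ 2 ≤ 1 :=
        (Finset.single_le_sum (f := fun k => ‖(star U *ᵥ y) k‖ ^ 2)
          (fun i _ => by positivity) (Finset.mem_univ k)).trans (hy'.trans_le hy)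
      have h6 : ‖(x ᵥ* U) k‖ ^ 2 ≤ 1 :=
        (Finset.single_le_sum (f := fun k => ‖(x ᵥ* U) k‖ ^ 2)
          (fun i _ => by positivity) (Finset.mem_univ k)).trans (hx'.trans_le hx)
      linarith
    have h7 : ‖(star U *ᵥ y) k * (x ᵥ* U) k‖ ≤ 1 := h3.trans h4
    calc ‖(star U *ᵥ y) k * (x ᵥ* U) k‖ ^ p ≤ ‖(star U *ᵥ y) k * (x ᵥ* U) k‖ ^ (1:ℝ) :=
          Real.rpow_le_rpow_of_exponent_ge' (norm_nonneg _) h7 zero_le_one h1
      _ ≤ _ := by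
          rw [Real.rpow_one]
          exact h3
  simp only [e]
  calc ∑ k, ‖(star U * A * U) k k + (star U *ᵥ y) k * (x ᵥ* U) k‖ ^ p
      ≤ ∑ k, 2 * (‖(star U * A * U) k k‖ ^ p +
        (‖(star U *ᵥ y) k‖ ^ 2 + ‖(x ᵥ* U) k‖ ^ 2) / 2) := by
        refine Finset.sum_le_sum fun k _ => ?_
        refine (Real.rpow_le_rpow (norm_nonneg _) (norm_add_le _ _) (by linarith)).trans ?_
        refine (add_rpow_le' (norm_nonneg _) (norm_nonneg _) h1 h2).trans ?_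
        have := hb k
        linarith
    _ = 2 * ((∑ k, ‖(star U * A * U) k k‖ ^ p) +
        ((∑ k, ‖(star U *ᵥ y) k‖ ^ 2) + ∑ k, ‖(x ᵥ* U) k‖ ^ 2) / 2) := by
        rw [← Finset.mul_sum, Finset.sum_add_distrib, ← Finset.sum_div, Finset.sum_add_distrib]
    _ ≤ _ := by
        rw [hx', hy']
        have := h U hU
        linarith

/-- the entries of the inverse -/
theorem inv_bd {n : ℕ} {A : Matrix (Fin n) (Fin n) ℂ} {p G : ℝ} (h1 : 1 ≤ p) (h2 : p ≤ 2)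
    (h : PF p A G) (hd : ((1 : Matrix (Fin n) (Fin n) ℂ) - A).det ≠ 0) (x y : Fin n → ℂ)
    (hx : ∑ k, ‖x k‖ ^ 2 ≤ 1) (hy : ∑ k, ‖y k‖ ^ 2 ≤ 1) :
    ‖x ⬝ᵥ ((1 : Matrix (Fin n) (Fin n) ℂ) - A)⁻¹ *ᵥ y‖ * ‖det2 A‖ ≤ Real.exp (4 * G + 6) := by
  set M := (1 : Matrix (Fin n) (Fin n) ℂ) - A with hM
  have hG := h.nonneg
  have h3 := det2_bd h1 h2 (h.add_rank h1 h2 x y hx hy)
  have h4 := det2_bd h1 h2 h
  have hdet : (1 - (A + Matrix.vecMulVec y x)).det = M.det * (1 - x ⬝ᵥ M⁻¹ *ᵥ y) := by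
    have e1 : (1 - (A + Matrix.vecMulVec y x)) = M +
        Matrix.replicateCol Unit (-y) * Matrix.replicateRow Unit x := by
      rw [hM, ← Matrix.vecMulVec_eq, Matrix.neg_vecMulVec]
      abel
    rw [e1, Matrix.det_add_replicateCol_mul_replicateRow (isUnit_iff_ne_zero.2 hd)]
    congr 1
    rw [Matrix.mul_assoc, ← Matrix.replicateCol_mulVec]
    have e2 : (1 : Matrix Unit Unit ℂ) + Matrix.replicateRow Unit x *
        Matrix.replicateCol Unit (M⁻¹ *ᵥ -y) = Matrix.of fun _ _ => 1 - x ⬝ᵥ M⁻¹ *ᵥ y := by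
      ext i j
      rw [Matrix.add_apply, Matrix.replicateRow_mul_replicateCol_apply, Matrix.mulVec_neg,
        dotProduct_neg, Matrix.one_apply_eq]
      simp [sub_eq_add_neg]
    rw [e2, Matrix.det_unique]
    rfl
  have hdet2 : det2 (A + Matrix.vecMulVec y x) =
      det2 A * (1 - x ⬝ᵥ M⁻¹ *ᵥ y) * Complex.exp (x ⬝ᵥ y) := by
    unfold det2
    rw [hdet, Matrix.trace_add, Matrix.trace_vecMulVec, Complex.exp_add, dotProduct_comm y x]
    ring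
  have hxy : ‖x ⬝ᵥ y‖ ≤ 1 := by
    rw [dotProduct]
    refine (Pool.Agent.Q98.NR.cs Finset.univ x y).trans ?_
    have e1 : Real.sqrt (∑ i, ‖x i‖ ^ 2) ≤ 1 := by
      rw [Real.sqrt_le_left zero_le_one, one_pow]
      exact hx
    have e2 : Real.sqrt (∑ i, ‖y i‖ ^ 2) ≤ 1 := by
      rw [Real.sqrt_le_left zero_le_one, one_pow]
      exact hy
    calc _ ≤ (1:ℝ) * 1 := mul_le_mul e1 e2 (Real.sqrt_nonneg _) zero_le_one
      _ = 1 := one_mul 1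
  have hexp : Real.exp (-1) ≤ ‖Complex.exp (x ⬝ᵥ y)‖ := by
    rw [Complex.norm_exp]
    refine Real.exp_le_exp.2 ?_
    have := Complex.abs_re_le_norm (x ⬝ᵥ y)
    have := (abs_le.1 (this.trans hxy)).1
    exact this
  have h5 : ‖det2 A‖ * ‖1 - x ⬝ᵥ M⁻¹ *ᵥ y‖ ≤ Real.exp (2 * (2 * (G + 1)) + 1) := by
    rw [hdet2, norm_mul, norm_mul] at h3
    have h6 : ‖det2 A‖ * ‖1 - x ⬝ᵥ M⁻¹ *ᵥ y‖ * Real.exp (-1) ≤ Real.exp (2 * (2 * (G + 1))) :=
      (mul_le_mul_of_nonneg_left hexp (by positivity)).trans h3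
    calc _ = ‖det2 A‖ * ‖1 - x ⬝ᵥ M⁻¹ *ᵥ y‖ * Real.exp (-1) * Real.exp 1 := by
          rw [mul_assoc _ (Real.exp (-1)), ← Real.exp_add]
          simp
      _ ≤ Real.exp (2 * (2 * (G + 1))) * Real.exp 1 :=
          mul_le_mul_of_nonneg_right h6 (Real.exp_pos _).le
      _ = _ := by rw [← Real.exp_add]
  have h7 : ‖x ⬝ᵥ M⁻¹ *ᵥ y‖ ≤ 1 + ‖1 - x ⬝ᵥ M⁻¹ *ᵥ y‖ := by
    calc ‖x ⬝ᵥ M⁻¹ *ᵥ y‖ = ‖1 - (1 - x ⬝ᵥ M⁻¹ *ᵥ y)‖ := by rw [sub_sub_cancel]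
      _ ≤ ‖(1:ℂ)‖ + ‖1 - x ⬝ᵥ M⁻¹ *ᵥ y‖ := norm_sub_le _ _
      _ = _ := by rw [norm_one]
  calc ‖x ⬝ᵥ M⁻¹ *ᵥ y‖ * ‖det2 A‖ ≤ (1 + ‖1 - x ⬝ᵥ M⁻¹ *ᵥ y‖) * ‖det2 A‖ :=
        mul_le_mul_of_nonneg_right h7 (norm_nonneg _)
    _ = ‖det2 A‖ + ‖det2 A‖ * ‖1 - x ⬝ᵥ M⁻¹ *ᵥ y‖ := by ring
    _ ≤ Real.exp (2 * G) + Real.exp (2 * (2 * (G + 1)) + 1) := add_le_add h4 h5
    _ ≤ Real.exp (4 * G + 5) + Real.exp (4 * G + 5) := by
        refine add_le_add (Real.exp_le_exp.2 (by linarith)) (Real.exp_le_exp.2 (by linarith))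
    _ = 2 * Real.exp (4 * G + 5) := by ring
    _ ≤ Real.exp 1 * Real.exp (4 * G + 5) := by
        refine mul_le_mul_of_nonneg_right ?_ (Real.exp_pos _).le
        have := Real.add_one_le_exp (1:ℝ)
        linarith
    _ = _ := by
        rw [← Real.exp_add]
        congr 1
        ring

/-- solutions of linear systems -/
theorem solve2 {n : ℕ} {A : Matrix (Fin n) (Fin n) ℂ} {p G : ℝ} (h1 : 1 ≤ p) (h2 : p ≤ 2)
    (h : PF p A G) (hd : ((1 : Matrix (Fin n) (Fin n) ℂ) - A).det ≠ 0) (l b : Fin n → ℂ)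
    (hl : l ᵥ* (1 - A) = b) :
    Real.sqrt (∑ i, ‖l i‖ ^ 2) * ‖det2 A‖ ≤
      Real.sqrt (∑ i, ‖b i‖ ^ 2) * Real.exp (4 * G + 6) := by
  set M := (1 : Matrix (Fin n) (Fin n) ℂ) - A with hM
  have hinv : l = b ᵥ* M⁻¹ := by
    rw [← hl, Matrix.vecMul_vecMul, Matrix.mul_nonsing_inv _ (isUnit_iff_ne_zero.2 hd),
      Matrix.vecMul_one]
  obtain ⟨β, hβ⟩ : ∃ β, β = Real.sqrt (∑ i, ‖b i‖ ^ 2) := ⟨_, rfl⟩
  obtain ⟨lam, hlam⟩ : ∃ lam, lam = Real.sqrt (∑ i, ‖l i‖ ^ 2) := ⟨_, rfl⟩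
  have hβ2 : β ^ 2 = ∑ i, ‖b i‖ ^ 2 := by
    rw [hβ]
    exact Real.sq_sqrt (Finset.sum_nonneg fun i _ => by positivity)
  have hlam2 : lam ^ 2 = ∑ i, ‖l i‖ ^ 2 := by
    rw [hlam]
    exact Real.sq_sqrt (Finset.sum_nonneg fun i _ => by positivity)
  have hβ0 : 0 ≤ β := by rw [hβ]; exact Real.sqrt_nonneg _
  have hlam0 : 0 ≤ lam := by rw [hlam]; exact Real.sqrt_nonneg _
  rw [← hβ, ← hlam]
  rcases hβ0.eq_or_lt with hb | hb
  · have hb0 : b = 0 := by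
      rw [← hb] at hβ2
      have h3 : ∑ i, ‖b i‖ ^ 2 = 0 := by rw [← hβ2]; ring
      funext i
      have h4 := (Finset.sum_eq_zero_iff_of_nonneg (fun i _ => by positivity)).1 h3 i
        (Finset.mem_univ i)
      simpa using h4
    have hl0 : l = 0 := by rw [hinv, hb0, Matrix.zero_vecMul]
    have : lam = 0 := by
      rw [hlam, hl0]
      simp
    rw [this, zero_mul]
    positivity
  rcases hlam0.eq_or_lt with hc | hc
  · rw [← hc, zero_mul]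
    positivity
  have hbc : (β : ℂ) ≠ 0 := by exact_mod_cast hb.ne'
  have hcc : (lam : ℂ) ≠ 0 := by exact_mod_cast hc.ne'
  have hx : ∑ k, ‖b k / β‖ ^ 2 ≤ 1 := by
    have e : ∀ k, ‖b k / (β : ℂ)‖ ^ 2 = ‖b k‖ ^ 2 / β ^ 2 := by
      intro k
      rw [norm_div, Complex.norm_real, Real.norm_of_nonneg hβ0, div_pow]
    simp only [e]
    rw [← Finset.sum_div, ← hβ2, div_self (by positivity)]
  have hy : ∑ k, ‖conj (l k) / (lam : ℂ)‖ ^ 2 ≤ 1 := by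
    have e : ∀ k, ‖conj (l k) / (lam : ℂ)‖ ^ 2 = ‖l k‖ ^ 2 / lam ^ 2 := by
      intro k
      rw [norm_div, Complex.norm_real, RCLike.norm_conj, Real.norm_of_nonneg hlam0, div_pow]
    simp only [e]
    rw [← Finset.sum_div, ← hlam2, div_self (by positivity)]
  have h3 := inv_bd h1 h2 h hd (fun k => b k / β) (fun k => conj (l k) / lam) hx hy
  have e1 : (fun k => b k / (β : ℂ)) ⬝ᵥ M⁻¹ *ᵥ (fun k => conj (l k) / (lam : ℂ)) =
      (lam : ℂ) / β := by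
    rw [Matrix.dotProduct_mulVec]
    have e2 : (fun k => b k / (β : ℂ)) ᵥ* M⁻¹ = fun k => l k / (β : ℂ) := by
      have e3 : (fun k => b k / (β : ℂ)) = (β : ℂ)⁻¹ • b := by
        funext k
        rw [Pi.smul_apply, smul_eq_mul, div_eq_inv_mul]
      rw [e3, Matrix.smul_vecMul, ← hinv]
      funext k
      rw [Pi.smul_apply, smul_eq_mul, div_eq_inv_mul]
    rw [e2, dotProduct]
    have e4 : ∀ k, l k / (β : ℂ) * (conj (l k) / (lam : ℂ)) =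
        ((‖l k‖ ^ 2 : ℝ) : ℂ) / (β * lam) := by
      intro k
      rw [div_mul_div_comm, Complex.mul_conj, Complex.normSq_eq_norm_sq]
    simp only [e4]
    rw [← Finset.sum_div, ← Complex.ofReal_sum, ← hlam2]
    push_cast
    field_simp
  rw [e1, norm_div, Complex.norm_real, Complex.norm_real, Real.norm_of_nonneg hlam0,
    Real.norm_of_nonneg hβ0] at h3
  calc lam * ‖det2 A‖ = β * (lam / β * ‖det2 A‖) := by field_simp
    _ ≤ β * Real.exp (4 * G + 6) := mul_le_mul_of_nonneg_left h3 hβ0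

end Pool.Agent.Q98.NS
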