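import Pool.Agent.Q98.NS.Bet

/-!
# Normal operators plus operators of a Schatten class: the polynomials of the duality are bounded
-/

set_option autoImplicit false

namespace Pool.Agent.Q98.NS

open MeasureTheory Set Metric Filter Topology
open Matrix
open scoped ENNReal NNReal ComplexConjugate InnerProductSpace
open Pool.Agent.Y283.NK (lm LogBd ct ea IsMul)
open Pool.Agent.Q98.RB
open Pool.Agent.Q98.NR

variable {S : Type} [MeasurableSpace S] {μ : Measure S} [SigmaFinite μ] {φ : S → ℂ} {R : ℝ}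
variable {N : Lp ℂ 2 μ →L[ℂ] Lp ℂ 2 μ}

/-- the functionals of the vectors -/
noncomputable def vv (v : ℕ → Lp ℂ 2 μ) (i : ℕ) : Lp ℂ 2 μ →L[ℂ] ℂ := innerSL ℂ (v i)

/-- the equation for the polynomials -/
theorem key2 (hφ : Measurable φ) (hb : ∀ s, ‖φ s‖ ≤ R) (hΨ : Cal N R (mcal μ hφ hb))
    (u v : ℕ → Lp ℂ 2 μ) (t a : ℂ) (n : ℕ)
    (y : StrongDual ℂ (Lp ℂ 2 μ)) (Y : ℕ → StrongDual ℂ (Lp ℂ 2 μ)) (m : ℕ)
    (hY : ∀ k, m ≤ k → Y k = 0) (x : Lp ℂ 2 μ) :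
    ∀ᵐ z, hp Y a m x z = bc φ a y (res (N + t • Ks u (vv v) n) a y Y) m x z +
      t * ∑ i ∈ Finset.range n, hp Y a m (u i) z * ct φ (v i) x z := by
  have hK : ∀ w : StrongDual ℂ (Lp ℂ 2 μ), Kf hΨ w x =ᵐ[volume] ct φ (rz w) x := by
    intro w
    have h1 := isK_ct (μ := μ) hφ hb (rz w) x
    rw [rz_spec] at h1
    exact (Kf_spec hΨ w x).unique h1
  have hv : ∀ i, Kf hΨ (vv v i) x =ᵐ[volume] ct φ (v i) x := fun i =>
    (Kf_spec hΨ (vv v i) x).unique (isK_ct (μ := μ) hφ hb (v i) x)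
  filter_upwards [key hΨ u (vv v) t a n y Y m hY x, hK y,
    ae_all_iff.2 fun k => hK (res (N + t • Ks u (vv v) n) a y Y k), ae_all_iff.2 hv]
    with z h1 h2 h3 h4
  rw [h1]
  unfold bb bc
  rw [h2]
  simp only [h3, h4]
  rfl

theorem det2_meas (hφ : Measurable φ) (u v : ℕ → Lp ℂ 2 μ) (n : ℕ) :
    Measurable (fun p : ℂ × ℂ => det2 (p.2 • CM φ u v n p.1)) := by
  have hct : ∀ g f : Lp ℂ 2 μ, Measurable (ct φ g f) := fun g f =>
    Pool.Agent.Y604.NK.meas_ct hφ g f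
  unfold det2
  refine Measurable.mul ?_ ?_
  · simp only [Matrix.det_apply']
    refine Finset.measurable_sum _ fun σ _ => ?_
    refine Measurable.const_mul ?_ _
    refine Finset.measurable_prod _ fun i _ => ?_
    have h1 : (fun p : ℂ × ℂ => ((1 : Matrix (Fin n) (Fin n) ℂ) -
        p.2 • CM φ u v n p.1) (σ i) i) =
        fun p : ℂ × ℂ => (1 : Matrix (Fin n) (Fin n) ℂ) (σ i) i -
          p.2 * ct φ (v (σ i)) (u i) p.1 := by
      funext p
      simp [CM, Matrix.sub_apply]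
    rw [h1]
    exact measurable_const.sub (measurable_snd.mul ((hct _ _).comp measurable_fst))
  · refine Complex.continuous_exp.measurable.comp ?_
    unfold Matrix.trace
    refine Finset.measurable_sum _ fun i _ => ?_
    have h1 : (fun p : ℂ × ℂ => (p.2 • CM φ u v n p.1).diag i) =
        fun p : ℂ × ℂ => p.2 * ct φ (v i) (u i) p.1 := by
      funext p
      simp [CM, Matrix.diag]
    rw [h1]
    exact measurable_snd.mul ((hct _ _).comp measurable_fst)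

/-- the determinants are good for infinitely many `n` -/
def Gd2 (φ : S → ℂ) (u v : ℕ → Lp ℂ 2 μ) (t : ℂ) (ρ : ℝ) (B : ℝ≥0) (n : ℕ) : Prop :=
  ∫⁻ z in ball (0:ℂ) ρ, lm ‖det2 (t • CM φ u v n z)‖ ≤ B

/-- the constants of the area integrals -/
def AB (p ρ : ℝ) (A : ℝ≥0) : Prop :=
  ∀ w : ℂ, ∫⁻ z in ball (0:ℂ) ρ, ‖z - w‖ₑ⁻¹ ≤ A ∧ ∫⁻ z in ball (0:ℂ) ρ, (‖z - w‖ₑ⁻¹) ^ p ≤ A

theorem exists_AB {p : ℝ} (h1 : 1 < p) (h2 : p < 2) (ρ : ℝ) : ∃ A : ℝ≥0, AB p ρ A := by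
  obtain ⟨A₁, hA₁⟩ := Pool.Agent.Y891.NK.main_area ρ
  obtain ⟨A₂, hA₂⟩ := area_p h1 h2 ρ
  refine ⟨max A₁ A₂, fun w => ⟨(hA₁ w).trans ?_, (hA₂ w).trans ?_⟩⟩
  · exact_mod_cast le_max_left _ _
  · exact_mod_cast le_max_right _ _

variable {p : ℝ} {b : ℕ → ℕ} {lam Q : ℝ≥0} {u v : ℕ → Lp ℂ 2 μ} {C : ℝ≥0}

/-- the majorant -/
noncomputable def g1 (φ : S → ℂ) (p : ℝ) (b : ℕ → ℕ) (lam Q : ℝ≥0) (u v : ℕ → Lp ℂ 2 μ) (t : ℂ)
    (r : ℝ) (y : StrongDual ℂ (Lp ℂ 2 μ)) (E : ℕ → StrongDual ℂ (Lp ℂ 2 μ)) (m n : ℕ) (z : ℂ) :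
    ℝ≥0∞ :=
  lm ‖det2 (t • CM φ u v n z)‖ + (be φ r y E m z ^ 2 + (GG φ p b lam Q u n z +
    (4 * ENNReal.ofReal (‖t‖ ^ p) * (GG φ p b lam Q u n z + GG φ p b lam Q v n z) + 6)))

theorem be_meas (hφ : Measurable φ) (r : ℝ) (y : StrongDual ℂ (Lp ℂ 2 μ))
    (E : ℕ → StrongDual ℂ (Lp ℂ 2 μ)) (m : ℕ) : Measurable (be φ r y E m) := by
  unfold be
  exact ((eg_meas hφ (coe_meas _)).pow_const _).add (Finset.measurable_sum _ fun k _ =>
    ((eg_meas hφ (coe_meas _)).pow_const _).const_mul _)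

theorem lmd_meas (hφ : Measurable φ) (u v : ℕ → Lp ℂ 2 μ) (t : ℂ) (n : ℕ) :
    Measurable fun z => lm ‖det2 (t • CM φ u v n z)‖ :=
  Pool.Agent.Y604.NK.meas_lm.comp
    (((det2_meas hφ u v n).comp (measurable_id.prodMk measurable_const)).norm)

theorem g1_meas (hφ : Measurable φ) (t : ℂ) (r : ℝ) (y : StrongDual ℂ (Lp ℂ 2 μ))
    (E : ℕ → StrongDual ℂ (Lp ℂ 2 μ)) (m n : ℕ) :
    Measurable (g1 φ p b lam Q u v t r y E m n) := by
  unfold g1
  exact (lmd_meas hφ u v t n).add (((be_meas hφ r y E m).pow_const 2).add ((GG_meas hφ n).add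
    ((((GG_meas hφ n).add (GG_meas hφ n)).const_mul _).add measurable_const)))

theorem g1_int (hφ : Measurable φ) (hu : WS p b lam Q u C) (hv : WS p b lam Q v C) {t : ℂ}
    {B : ℝ≥0} {n : ℕ} {ρ : ℝ} (hG : Gd2 φ u v t ρ B n) {A : ℝ≥0} (hA : AB p ρ A) {a : ℂ} {r : ℝ}
    (hr : 0 < r) (hD : closedBall a r ⊆ ball 0 ρ) (y : StrongDual ℂ (Lp ℂ 2 μ))
    (E : ℕ → StrongDual ℂ (Lp ℂ 2 μ)) (m : ℕ)
    (hE : ∑ k ∈ Finset.range (m + 1), r ^ k * ‖E k‖ ≤ 1) :
    ∫⁻ z in closedBall a r, g1 φ p b lam Q u v t r y E m n z ≤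
      B + ((2 * (A * ‖y‖ₑ ^ 2) + 2 * (3 * A)) + (A * C +
        (4 * ENNReal.ofReal (‖t‖ ^ p) * (A * C + A * C) + 6 * volume (ball (0:ℂ) ρ)))) := by
  have m0 := lmd_meas hφ u v t n
  have m1 : Measurable fun z => be φ r y E m z ^ 2 := (be_meas hφ r y E m).pow_const 2
  have m2 : Measurable (GG φ p b lam Q u n) := GG_meas hφ n
  have m3 : Measurable (GG φ p b lam Q v n) := GG_meas hφ n
  have m4 : Measurable fun z => GG φ p b lam Q u n z + GG φ p b lam Q v n z := m2.add m3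
  have m5 : Measurable fun z => 4 * ENNReal.ofReal (‖t‖ ^ p) *
      (GG φ p b lam Q u n z + GG φ p b lam Q v n z) := m4.const_mul _
  unfold g1
  rw [lintegral_add_left m0, lintegral_add_left m1, lintegral_add_left m2, lintegral_add_left m5,
    lintegral_const_mul _ m4, lintegral_add_left m2, lintegral_const,
    Measure.restrict_apply_univ]
  have hI : ∀ w : ℕ → Lp ℂ 2 μ, WS p b lam Q w C →
      ∫⁻ z in closedBall a r, GG φ p b lam Q w n z ≤ A * C := fun w hw =>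
    (lintegral_mono_set hD).trans (GG_int hφ hw n fun w => (hA w).2)
  refine add_le_add ((lintegral_mono_set hD).trans hG) (add_le_add
    (be_int hφ (fun w => (hA w).1) hr hD y E m hE) (add_le_add (hI u hu) (add_le_add
    (mul_le_mul' le_rfl (add_le_add (hI u hu) (hI v hv))) (mul_le_mul' le_rfl (measure_mono hD)))))

theorem sqrt_exp_bd {β γ : ℝ≥0∞} {q : ℝ} (hq0 : 0 ≤ q) (hq : q ≤ 1) :
    (β * γ ^ q).toReal ≤ Real.exp ((β ^ 2).toReal + γ.toReal) := by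
  rw [ENNReal.toReal_mul, ← ENNReal.toReal_rpow, ENNReal.toReal_pow, Real.exp_add]
  have hx : 0 ≤ β.toReal := ENNReal.toReal_nonneg
  have hy : 0 ≤ γ.toReal := ENNReal.toReal_nonneg
  have h1 : β.toReal ≤ Real.exp (β.toReal ^ 2) := by
    have := Real.add_one_le_exp (β.toReal ^ 2)
    nlinarith [sq_nonneg (β.toReal - 1)]
  have h2 : γ.toReal ^ q ≤ Real.exp γ.toReal := by
    have h3 : γ.toReal ^ q ≤ γ.toReal + 1 := by
      rcases le_total γ.toReal 1 with h | h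
      · have := Real.rpow_le_one hy h hq0
        linarith
      · calc γ.toReal ^ q ≤ γ.toReal ^ (1:ℝ) := Real.rpow_le_rpow_of_exponent_le h hq
          _ = γ.toReal := Real.rpow_one _
          _ ≤ _ := by linarith
    exact h3.trans (Real.add_one_le_exp _)
  exact mul_le_mul h1 h2 (Real.rpow_nonneg hy _) (Real.exp_pos _).le

omit [SigmaFinite μ] in
theorem eg_half (hφ : Measurable φ) (hW : WS p b lam Q u C) (hp : 1 < p) {n : ℕ} (g : Fin n → ℂ)
    (hg : ∑ i, ‖g i‖ ^ 2 ≤ 1) (z : ℂ) :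
    (eg μ φ (fun s => ∑ i, g i * u i s) z) ^ (1 / 2 : ℝ) ≤
      GG φ p b lam Q u n z ^ (1 / (2 * p)) := by
  have h1 := ENNReal.rpow_le_rpow (eg_unit hφ hW hp g hg z) (z := 1 / (2 * p)) (by positivity)
  rw [← ENNReal.rpow_mul] at h1
  have e : p * (1 / (2 * p)) = 1 / 2 := by
    have : p ≠ 0 := by linarith
    field_simp
  rwa [e] at h1

omit [SigmaFinite μ] in
/-- combinations of unit length of the right sides -/
theorem bc_unit (hφ : Measurable φ) (hu : WS p b lam Q u C) (hp : 1 < p) {n : ℕ} {a : ℂ} {r : ℝ}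
    (hr : 0 < r) (y : StrongDual ℂ (Lp ℂ 2 μ)) (E : ℕ → StrongDual ℂ (Lp ℂ 2 μ)) (m : ℕ) {z : ℂ}
    (hz : z ∈ closedBall a r) (hbe : be φ r y E m z ≠ ⊤) (hG : GG φ p b lam Q u n z ≠ ⊤)
    (d : Fin n → ℂ) (hd : ∑ i, ‖d i‖ ^ 2 ≤ 1) :
    ‖∑ i, d i * bc φ a y E m (u i) z‖ ≤
      Real.exp ((be φ r y E m z ^ 2).toReal + (GG φ p b lam Q u n z).toReal) := by
  have mF : Measurable fun s => ∑ i : Fin n, d i * u i s :=
    Finset.measurable_sum _ fun i _ => (coe_meas (u i)).const_mul _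
  have e := bc_lin (m := m) (a := a) hφ hr (F := fun i : Fin n => ⇑(u i)) (fun i => coe_meas _) hbe
    (fun i => eg_fin hφ hu hp hG i) d
  have h5 := bc_le hφ y E m mF hz
  have h6 : be φ r y E m z * GG φ p b lam Q u n z ^ (1 / (2 * p)) ≠ ⊤ :=
    ENNReal.mul_ne_top hbe (ENNReal.rpow_ne_top_of_nonneg (by positivity) hG)
  have h7 := ENNReal.toReal_mono h6 (h5.trans (mul_le_mul' le_rfl (eg_half hφ hu hp d hd z)))
  rw [toReal_enorm] at h7
  have hq : 1 / (2 * p) ≤ 1 := by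
    rw [div_le_one (by linarith)]
    linarith
  rw [← e]
  exact h7.trans (sqrt_exp_bd (by positivity) hq)

theorem ell2 (hφ : Measurable φ) (hb : ∀ s, ‖φ s‖ ≤ R) (hΨ : Cal N R (mcal μ hφ hb)) (h1 : 1 < p)
    (h2 : p < 2) (hu : WS p b lam Q u C) (hv : WS p b lam Q v C) (t : ℂ) {ρ : ℝ} (B : ℝ≥0) {a : ℂ}
    {r : ℝ} (hr : 0 < r) (hD : closedBall a r ⊆ ball 0 ρ) (y : StrongDual ℂ (Lp ℂ 2 μ)) :
    ∃ Λ : ℝ, 0 < Λ ∧ ∀ n, Gd2 φ u v t ρ B n → ∀ (m : ℕ) (Y : ℕ → StrongDual ℂ (Lp ℂ 2 μ)),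
      (∀ k, m ≤ k → Y k = 0) →
      ∑ k ∈ Finset.range (m + 1), r ^ k * ‖res (N + t • Ks u (vv v) n) a y Y k‖ ≤ 1 →
      ∀ w ∈ closedBall a (r / 2), Real.sqrt (∑ i : Fin n, ‖hp Y a m (u i) w‖ ^ 2) ≤ Λ := by
  have hp0 : (0:ℝ) ≤ p := by linarith
  obtain ⟨A, hA⟩ := exists_AB h1 h2 ρ
  obtain ⟨A₀, hA₀⟩ : ∃ A₀ : ℝ≥0∞, A₀ = B + ((2 * (A * ‖y‖ₑ ^ 2) + 2 * (3 * A)) + (A * C +
        (4 * ENNReal.ofReal (‖t‖ ^ p) * (A * C + A * C) + 6 * volume (ball (0:ℂ) ρ)))) := ⟨_, rfl⟩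
  have hA₀t : A₀ ≠ ⊤ := by
    have hV : volume (ball (0:ℂ) ρ) ≠ ⊤ := measure_ball_lt_top.ne
    have hy : ‖y‖ₑ ^ 2 ≠ ⊤ := ENNReal.pow_ne_top enorm_ne_top
    have hAt : (A : ℝ≥0∞) ≠ ⊤ := ENNReal.coe_ne_top
    have hAC : (A : ℝ≥0∞) * C ≠ ⊤ := ENNReal.mul_ne_top hAt ENNReal.coe_ne_top
    rw [hA₀]
    refine ENNReal.add_ne_top.2 ⟨ENNReal.coe_ne_top, ENNReal.add_ne_top.2 ⟨ENNReal.add_ne_top.2
      ⟨ENNReal.mul_ne_top (by simp) (ENNReal.mul_ne_top hAt hy), ENNReal.mul_ne_top (by simp)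
      (ENNReal.mul_ne_top (by simp) hAt)⟩, ENNReal.add_ne_top.2 ⟨hAC, ENNReal.add_ne_top.2
      ⟨ENNReal.mul_ne_top (ENNReal.mul_ne_top (by simp) ENNReal.ofReal_ne_top)
      (ENNReal.add_ne_top.2 ⟨hAC, hAC⟩), ENNReal.mul_ne_top (by simp) hV⟩⟩⟩⟩
  have hAA : A₀ ≤ ENNReal.ofReal (A₀.toReal + 1) := by
    calc A₀ = ENNReal.ofReal A₀.toReal := (ENNReal.ofReal_toReal hA₀t).symm
      _ ≤ _ := ENNReal.ofReal_le_ofReal (by linarith)
  have hA0 : 0 < A₀.toReal + 1 := by positivity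
  refine ⟨Real.exp ((A₀.toReal + 1) / (r / 2) ^ 2), Real.exp_pos _, ?_⟩
  intro n hG m Y hY hE w hw
  refine cs_sup _ (Real.exp_pos _).le fun c hc => ?_
  set E := res (N + t • Ks u (vv v) n) a y Y with hEdef
  have hI := g1_int hφ hu hv hG hA hr hD y E m hE
  rw [← hA₀] at hI
  -- the equation
  have hkey : ∀ᵐ z, ∀ k : Fin n, hp Y a m (u k) z = bc φ a y E m (u k) z +
      t * ∑ i ∈ Finset.range n, hp Y a m (u i) z * ct φ (v i) (u k) z :=
    ae_all_iff.2 fun k => key2 hφ hb hΨ u v t a n y Y m hY (u k)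
  have hfin : ∀ᵐ z ∂(volume.restrict (closedBall a r)), g1 φ p b lam Q u v t r y E m n z ≠ ⊤ := by
    filter_upwards [ae_lt_top (g1_meas hφ t r y E m n) (ne_top_of_le_ne_top hA₀t hI)] with z hz
      using hz.ne
  have hbound : ∀ᵐ z ∂(volume.restrict (closedBall a r)),
      ‖∑ i, c i * hp Y a m (u i) z‖ ≤
        Real.exp (g1 φ p b lam Q u v t r y E m n z).toReal := by
    filter_upwards [hfin, ae_restrict_of_ae hkey, ae_restrict_mem measurableSet_closedBall]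
      with z hz hk hzD
    obtain ⟨z1, z2⟩ := ENNReal.add_ne_top.1 hz
    obtain ⟨z3, z4⟩ := ENNReal.add_ne_top.1 z2
    obtain ⟨z5, z6⟩ := ENNReal.add_ne_top.1 z4
    have z3' : be φ r y E m z ≠ ⊤ := by
      intro h0
      rw [h0] at z3
      simp at z3
    by_cases ht : t = 0
    · -- the trivial case
      have h3 : ∀ k : Fin n, hp Y a m (u k) z = bc φ a y E m (u k) z := fun k => by
        rw [hk k, ht, zero_mul, add_zero]
      have h4 : ∑ i, c i * hp Y a m (u i) z = ∑ i, c i * bc φ a y E m (u i) z :=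
        Finset.sum_congr rfl fun i _ => by rw [h3]
      have h8 := bc_unit hφ hu h1 hr y E m hzD z3' z5 c hc
      rw [h4]
      refine h8.trans (Real.exp_le_exp.2 ?_)
      unfold g1
      rw [ENNReal.toReal_add z1 z2, ENNReal.toReal_add z3 z4, ENNReal.toReal_add z5 z6]
      have e1 : 0 ≤ (lm ‖det2 (t • CM φ u v n z)‖).toReal := ENNReal.toReal_nonneg
      have e2 : 0 ≤ (4 * ENNReal.ofReal (‖t‖ ^ p) * (GG φ p b lam Q u n z +
        GG φ p b lam Q v n z) + 6).toReal := ENNReal.toReal_nonneg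
      linarith
    have htp : 0 < ‖t‖ ^ p := Real.rpow_pos_of_pos (norm_pos_iff.2 ht) _
    obtain ⟨z7, z8⟩ := ENNReal.add_ne_top.1 z6
    have z9 : GG φ p b lam Q u n z + GG φ p b lam Q v n z ≠ ⊤ := by
      intro h0
      apply z7
      rw [h0, ENNReal.mul_top]
      simpa using htp
    obtain ⟨-, zv⟩ := ENNReal.add_ne_top.1 z9
    have hPF := (pf_CM hφ hu hv h1 z5 zv).smul t
    have hdet : ((1 : Matrix (Fin n) (Fin n) ℂ) - t • CM φ u v n z).det ≠ 0 := by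
      intro h0
      apply z1
      unfold det2
      rw [h0, zero_mul, norm_zero]
      unfold lm
      simp
    have h3 : (fun i : Fin n => hp Y a m (u i) z) ᵥ*
        ((1 : Matrix (Fin n) (Fin n) ℂ) - t • CM φ u v n z) =
        fun k : Fin n => bc φ a y E m (u k) z := by
      funext k
      rw [Matrix.vecMul_sub, Matrix.vecMul_one, Matrix.vecMul_smul]
      simp only [Pi.sub_apply, Pi.smul_apply, smul_eq_mul, Matrix.vecMul, dotProduct, CM]
      rw [hk k, Finset.sum_range fun i => hp Y a m (u i) z * ct φ (v i) (u k) z]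
      ring
    have h4 := solve2 h1.le h2.le hPF hdet _ _ h3
    have hbsq : Real.sqrt (∑ k : Fin n, ‖bc φ a y E m (u k) z‖ ^ 2) ≤
        Real.exp ((be φ r y E m z ^ 2).toReal + (GG φ p b lam Q u n z).toReal) :=
      cs_sup _ (Real.exp_pos _).le fun d hd => bc_unit hφ hu h1 hr y E m hzD z3' z5 d hd
    have h5 := lm_exp z1 (norm_nonneg _)
    obtain ⟨s, hs⟩ : ∃ s, s = Real.sqrt (∑ i : Fin n, ‖hp Y a m (u i) z‖ ^ 2) := ⟨_, rfl⟩
    have hs0 : 0 ≤ s := by rw [hs]; exact Real.sqrt_nonneg _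
    rw [← hs] at h4
    have hfinal : s ≤ Real.exp (g1 φ p b lam Q u v t r y E m n z).toReal := by
      have e0 : (g1 φ p b lam Q u v t r y E m n z).toReal =
          (lm ‖det2 (t • CM φ u v n z)‖).toReal + ((be φ r y E m z ^ 2).toReal +
          (GG φ p b lam Q u n z).toReal) + (4 * (‖t‖ ^ p * (GG φ p b lam Q u n z +
          GG φ p b lam Q v n z).toReal) + 6) := by
        unfold g1
        rw [ENNReal.toReal_add z1 z2, ENNReal.toReal_add z3 z4, ENNReal.toReal_add z5 z6,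
          ENNReal.toReal_add z7 z8, ENNReal.toReal_mul, ENNReal.toReal_mul,
          ENNReal.toReal_ofReal htp.le]
        simp only [ENNReal.toReal_ofNat]
        ring
      rw [e0, Real.exp_add, Real.exp_add]
      calc s = s * 1 := (mul_one s).symm
        _ ≤ s * (‖det2 (t • CM φ u v n z)‖ * Real.exp (lm ‖det2 (t • CM φ u v n z)‖).toReal) :=
            mul_le_mul_of_nonneg_left h5 hs0
        _ = Real.exp (lm ‖det2 (t • CM φ u v n z)‖).toReal * (s * ‖det2 (t • CM φ u v n z)‖) := by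
            ring
        _ ≤ Real.exp (lm ‖det2 (t • CM φ u v n z)‖).toReal *
            (Real.sqrt (∑ k : Fin n, ‖bc φ a y E m (u k) z‖ ^ 2) * Real.exp (4 * (‖t‖ ^ p *
              (GG φ p b lam Q u n z + GG φ p b lam Q v n z).toReal) + 6)) :=
            mul_le_mul_of_nonneg_left h4 (Real.exp_pos _).le
        _ ≤ Real.exp (lm ‖det2 (t • CM φ u v n z)‖).toReal *
            (Real.exp ((be φ r y E m z ^ 2).toReal + (GG φ p b lam Q u n z).toReal) *
              Real.exp (4 * (‖t‖ ^ p *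
              (GG φ p b lam Q u n z + GG φ p b lam Q v n z).toReal) + 6)) := by
            gcongr
        _ = _ := by ring
    calc _ ≤ Real.sqrt (∑ i, ‖c i‖ ^ 2) * Real.sqrt (∑ i : Fin n, ‖hp Y a m (u i) z‖ ^ 2) :=
          cs Finset.univ c fun i => hp Y a m (u i) z
      _ ≤ 1 * Real.sqrt (∑ i : Fin n, ‖hp Y a m (u i) z‖ ^ 2) := by
          refine mul_le_mul_of_nonneg_right ?_ (Real.sqrt_nonneg _)
          rw [Real.sqrt_le_left zero_le_one, one_pow]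
          exact hc
      _ ≤ _ := by
          rw [one_mul, ← hs]
          exact hfinal
  have hsub : closedBall w (r / 2) ⊆ closedBall a r := by
    refine closedBall_subset_closedBall' ?_
    rw [mem_closedBall] at hw
    linarith
  refine submean (f := fun z => ∑ i, c i * hp Y a m (u i) z) ?_ w (s := r / 2) (by positivity) hA0
    (g1 φ p b lam Q u v t r y E m n) (g1_meas hφ t r y E m n) ?_ ?_
  · exact Differentiable.fun_sum fun i _ => (hp_diff Y a m (u i)).const_mul (c i)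
  · exact (lintegral_mono_set hsub).trans (hI.trans hAA)
  · exact ae_restrict_of_ae_restrict_of_subset hsub hbound

end Pool.Agent.Q98.NS
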