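import Pool.Agent.Q98.NS.Bel2
import Pool.Agent.Q98.NR.Sls
import Pool.Agent.Y283.NK.L2c
import Pool.Agent.Y77.NK.ADJ
import Pool.Agent.Y529.NK.ANN
import Pool.Agent.Y25.NK.SPN

/-!
# Normal operators plus operators of a Schatten class: the theorem
-/

set_option autoImplicit false

namespace Pool.Agent.Q98.NS

open MeasureTheory Set Metric Filter Topology
open Matrix
open scoped ENNReal NNReal ComplexConjugate InnerProductSpace
open Pool.Agent.Y283.NK (lm LogBd ct ea IsMul cj cj_apply W_cj cj_add_smul scalar_of_cj hyp_of_cj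
  LocVec locvec_of_cj)
open Pool.Agent.Q98.RB
open Pool.Agent.Q98.NR

/-! ### Conjugation of the coupling constant -/

theorem conj_meas : Measurable (fun t : ℂ => conj t) := Complex.continuous_conj.measurable

theorem lm_meas : Measurable lm := Pool.Agent.Y604.NK.meas_lm

theorem logBd_conj {m : Measure ℂ} (hm : LogBd m) : LogBd (m.map fun t : ℂ => conj t) := by
  intro R
  obtain ⟨C, h1, h2⟩ := hm R
  have hpre : (fun t : ℂ => conj t) ⁻¹' ball (0:ℂ) R = ball (0:ℂ) R := by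
    ext t
    simp
  refine ⟨C, ?_, fun s => ?_⟩
  · rw [Measure.map_apply conj_meas measurableSet_ball, hpre]
    exact h1
  · have h3 : Measurable fun t : ℂ => lm ‖t - s‖ := lm_meas.comp (measurable_id.sub_const s).norm
    rw [setLIntegral_map measurableSet_ball h3 conj_meas, hpre]
    refine le_trans (le_of_eq ?_) (h2 (conj s))
    refine lintegral_congr fun t => ?_
    have e : conj t - s = conj (t - conj s) := by
      rw [map_sub, Complex.conj_conj]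
    rw [e, RCLike.norm_conj]

/-! ### Orthogonal series -/

section orth

variable {H : Type} [NormedAddCommGroup H] [InnerProductSpace ℂ H]

/-- Bessel's inequality -/
theorem bessel {κ : Type} (v : κ → H) (hv : Pairwise fun i j => ⟪v i, v j⟫_ℂ = 0) (F : Finset κ)
    {M : ℝ} (hM0 : 0 ≤ M) (hM : ∀ i ∈ F, ‖v i‖ ^ 2 ≤ M) (x : H) :
    ∑ i ∈ F, ‖⟪v i, x⟫_ℂ‖ ^ 2 ≤ M * ‖x‖ ^ 2 := by
  obtain ⟨A, hA⟩ : ∃ A, A = ∑ i ∈ F, ‖⟪v i, x⟫_ℂ‖ ^ 2 := ⟨_, rfl⟩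
  have hA0 : 0 ≤ A := by
    rw [hA]
    exact Finset.sum_nonneg fun i _ => by positivity
  obtain ⟨y, hy⟩ : ∃ y, y = ∑ i ∈ F, ⟪v i, x⟫_ℂ • v i := ⟨_, rfl⟩
  have h1 : ‖y‖ ^ 2 ≤ M * A := by
    rw [hy, orth_sq v hv, hA, Finset.mul_sum]
    refine Finset.sum_le_sum fun i hi => ?_
    rw [mul_comm]
    exact mul_le_mul_of_nonneg_right (hM i hi) (by positivity)
  have h2 : ⟪y, x⟫_ℂ = (A : ℂ) := by
    rw [hy, sum_inner, hA, Complex.ofReal_sum]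
    refine Finset.sum_congr rfl fun i _ => ?_
    rw [inner_smul_left, Complex.conj_mul']
    push_cast
    rfl
  have h3 : A ≤ ‖y‖ * ‖x‖ := by
    have h4 := norm_inner_le_norm (𝕜 := ℂ) y x
    rw [h2, Complex.norm_real, Real.norm_of_nonneg hA0] at h4
    exact h4
  rw [← hA]
  rcases hA0.eq_or_lt with h0 | h0
  · rw [← h0]
    positivity
  · have h5 : A * A ≤ (M * ‖x‖ ^ 2) * A := by
      calc A * A ≤ (‖y‖ * ‖x‖) * (‖y‖ * ‖x‖) := mul_le_mul h3 h3 hA0 (by positivity)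
        _ = ‖y‖ ^ 2 * ‖x‖ ^ 2 := by ring
        _ ≤ (M * A) * ‖x‖ ^ 2 := mul_le_mul_of_nonneg_right h1 (by positivity)
        _ = _ := by ring
    exact le_of_mul_le_mul_right h5 h0

/-- the norm of a section -/
theorem sec_le {κ : Type} {u v : κ → H} (hu : Pairwise fun i j => ⟪u i, u j⟫_ℂ = 0)
    (hv : Pairwise fun i j => ⟪v i, v j⟫_ℂ = 0) (F : Finset κ) {M : ℝ} (hM0 : 0 ≤ M)
    (hMu : ∀ i ∈ F, ‖u i‖ ^ 2 ≤ M) (hMv : ∀ i ∈ F, ‖v i‖ ^ 2 ≤ M) (x : H) :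
    ‖∑ i ∈ F, ⟪v i, x⟫_ℂ • u i‖ ≤ M * ‖x‖ := by
  refine (pow_le_pow_iff_left₀ (norm_nonneg _) (by positivity) two_ne_zero).1 ?_
  rw [orth_sq u hu]
  calc ∑ i ∈ F, ‖⟪v i, x⟫_ℂ‖ ^ 2 * ‖u i‖ ^ 2 ≤ ∑ i ∈ F, ‖⟪v i, x⟫_ℂ‖ ^ 2 * M :=
        Finset.sum_le_sum fun i hi => mul_le_mul_of_nonneg_left (hMu i hi) (by positivity)
    _ = (∑ i ∈ F, ‖⟪v i, x⟫_ℂ‖ ^ 2) * M := by rw [Finset.sum_mul]
    _ ≤ (M * ‖x‖ ^ 2) * M := mul_le_mul_of_nonneg_right (bessel v hv F hM0 hMv x) hM0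
    _ = _ := by ring

/-- convergence of the sections in norm -/
theorem sec_lim {u v : ℕ → H} (hu : Pairwise fun i j => ⟪u i, u j⟫_ℂ = 0)
    (hv : Pairwise fun i j => ⟪v i, v j⟫_ℂ = 0) {s : ℕ → ℝ} (hus : ∀ i, ‖u i‖ ^ 2 = s i)
    (hvs : ∀ i, ‖v i‖ ^ 2 = s i) (hs : Tendsto s atTop (𝓝 0)) {K : H →L[ℂ] H}
    (hK : ∀ x, HasSum (fun i => ⟪v i, x⟫_ℂ • u i) (K x)) :
    Tendsto (fun n => ∑ i ∈ Finset.range n, (innerSL ℂ (v i)).smulRight (u i)) atTop (𝓝 K) := by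
  have happ : ∀ n x, (∑ i ∈ Finset.range n, (innerSL ℂ (v i)).smulRight (u i) : H →L[ℂ] H) x =
      ∑ i ∈ Finset.range n, ⟪v i, x⟫_ℂ • u i := by
    intro n x
    rw [_root_.sum_apply]
    rfl
  rw [tendsto_iff_norm_sub_tendsto_zero, Metric.tendsto_atTop]
  intro ε hε
  obtain ⟨n₀, hn₀⟩ := (Metric.tendsto_atTop.1 hs) (ε / 2) (by positivity)
  refine ⟨n₀, fun n hn => ?_⟩
  rw [Real.dist_0_eq_abs, abs_of_nonneg (norm_nonneg _)]
  have hM : ∀ i, n ≤ i → s i ≤ ε / 2 := by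
    intro i hi
    have := hn₀ i (hn.trans hi)
    rw [Real.dist_0_eq_abs] at this
    exact (le_abs_self _).trans this.le
  refine lt_of_le_of_lt (ContinuousLinearMap.opNorm_le_bound _ (by positivity : (0:ℝ) ≤ ε / 2)
    fun x => ?_) (by linarith)
  have h1 : Tendsto (fun m => (∑ i ∈ Finset.range n, ⟪v i, x⟫_ℂ • u i) -
      ∑ i ∈ Finset.range m, ⟪v i, x⟫_ℂ • u i) atTop
      (𝓝 ((∑ i ∈ Finset.range n, ⟪v i, x⟫_ℂ • u i) - K x)) :=
    tendsto_const_nhds.sub (hK x).tendsto_sum_nat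
  have h2 : ((∑ i ∈ Finset.range n, (innerSL ℂ (v i)).smulRight (u i) : H →L[ℂ] H) - K) x =
      (∑ i ∈ Finset.range n, ⟪v i, x⟫_ℂ • u i) - K x := by
    rw [← happ]
    rfl
  rw [h2]
  refine le_of_tendsto h1.norm ?_
  filter_upwards [eventually_ge_atTop n] with m hm
  have h3 : (∑ i ∈ Finset.range n, ⟪v i, x⟫_ℂ • u i) - ∑ i ∈ Finset.range m, ⟪v i, x⟫_ℂ • u i =
      -∑ i ∈ Finset.Ico n m, ⟪v i, x⟫_ℂ • u i := by
    rw [Finset.sum_Ico_eq_sub _ hm]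
    abel
  rw [h3, norm_neg]
  refine sec_le hu hv _ (by positivity) (fun i hi => ?_) (fun i hi => ?_) x
  · rw [hus]
    exact hM i (Finset.mem_Ico.1 hi).1
  · rw [hvs]
    exact hM i (Finset.mem_Ico.1 hi).1

end orth

end Pool.Agent.Q98.NS
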