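import Pool.Agent.Q98.NS.Fin2

/-!
# Normal operators plus operators of a Schatten class: the theorem
-/

set_option autoImplicit false

namespace Pool.Agent.Q98.NS

open MeasureTheory Set Metric Filter Topology
open Matrix
open scoped ENNReal NNReal ComplexConjugate InnerProductSpace
open Pool.Agent.Y283.NK (lm LogBd ct ea IsMul cj cj_apply W_cj cj_add_smul scalar_of_cj hyp_of_cj
  LocVec locvec_of_cj)
open Pool.Agent.Q98.RB
open Pool.Agent.Q98.NR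

section fin

variable {S : Type} [MeasurableSpace S] {μ : Measure S} [SigmaFinite μ] {φ : S → ℂ} {R : ℝ}
variable {N : Lp ℂ 2 μ →L[ℂ] Lp ℂ 2 μ}

omit [SigmaFinite μ] in
/-- the adjoint of a section -/
theorem adj_Ks (u v : ℕ → Lp ℂ 2 μ) (n : ℕ) :
    ContinuousLinearMap.adjoint (Ks u (vv v) n) = Ks v (vv u) n := by
  refine (ContinuousLinearMap.eq_adjoint_iff _ _).2 (fun f g => ?_) |>.symm
  rw [Ks_apply, Ks_apply, sum_inner, inner_sum]
  refine Finset.sum_congr rfl fun i _ => ?_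
  show ⟪⟪u i, f⟫_ℂ • v i, g⟫_ℂ = ⟪f, ⟪v i, g⟫_ℂ • u i⟫_ℂ
  rw [inner_smul_left, inner_smul_right, inner_conj_symm, mul_comm]

omit [SigmaFinite μ] in
theorem adj_lim {u v : ℕ → Lp ℂ 2 μ} {K : Lp ℂ 2 μ →L[ℂ] Lp ℂ 2 μ}
    (hK : Tendsto (Ks u (vv v)) atTop (𝓝 K)) :
    Tendsto (Ks v (vv u)) atTop (𝓝 (ContinuousLinearMap.adjoint K)) := by
  have h1 := ((ContinuousLinearMap.adjoint (𝕜 := ℂ) (E := Lp ℂ 2 μ)
    (F := Lp ℂ 2 μ)).continuous.tendsto K).comp hK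
  refine h1.congr fun n => ?_
  exact adj_Ks u v n

theorem cf_conj (a : ℂ) (s : ℝ) (z : ℂ) : cf (conj a) s (conj z) = cf a s z := by
  unfold cf cfr
  rw [← map_sub, RCLike.norm_conj]

omit [SigmaFinite μ] in
/-- the essential points of the adjoint -/
theorem ess_conj (hφ : Measurable φ) (hb : ∀ s, ‖φ s‖ ≤ R)
    (hφ' : Measurable fun s => conj (φ s)) (hb' : ∀ s, ‖conj (φ s)‖ ≤ R) {a : ℂ}
    (h : Ess (mcal μ hφ hb) a) : Ess (mcal μ hφ' hb') (conj a) := by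
  intro t ht
  have e : op (mcal μ hφ' hb') (cf (conj a) t) = op (mcal μ hφ hb) (cf a t) := by
    ext1 f
    refine Lp.ext ?_
    filter_upwards [mcal_op (μ := μ) hφ' hb' (cf_cont (conj a) t) f,
      mcal_op (μ := μ) hφ hb (cf_cont a t) f] with s h1 h2
    rw [h1, h2, cf_conj]
  rw [e]
  exact h t ht

variable {p : ℝ} {b : ℕ → ℕ} {lam Q : ℝ≥0} {u v : ℕ → Lp ℂ 2 μ} {C : ℝ≥0}

theorem sls2 (hφ : Measurable φ) (hb : ∀ s, ‖φ s‖ ≤ R) (hΨ : Cal N R (mcal μ hφ hb))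
    (h1 : 1 < p) (h2 : p < 2) (hu : WS p b lam Q u C) (hv : WS p b lam Q v C) {t : ℂ}
    {K : Lp ℂ 2 μ →L[ℂ] Lp ℂ 2 μ} (hK : Tendsto (Ks u (vv v)) atTop (𝓝 K))
    (hG : ∀ ρ : ℕ, ∃ B : ℝ≥0, ∃ᶠ n in atTop, Gd2 φ u v t ρ B n) : LocVec (N + t • K) := by
  intro c hc ε hε
  by_cases hE : Ess (mcal μ hφ hb) c
  · exact sls_chain (chains2 hφ hb hΨ h1 h2 hu hv hK hG hE hε)
  · obtain ⟨x, hx, h⟩ := noness hΨ hE ((K_compact hK).smul t) hc
    exact sls_eig hx h hε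

/-- the theorem for multiplication operators -/
theorem fin3 {K : Lp ℂ 2 μ →L[ℂ] Lp ℂ 2 μ} (hN : IsMul φ N)
    (hu : Pairwise fun i j => ⟪u i, u j⟫_ℂ = 0) (hv : Pairwise fun i j => ⟪v i, v j⟫_ℂ = 0)
    {s : ℕ → ℝ} (hus : ∀ i, ‖u i‖ ^ 2 = s i) (hvs : ∀ i, ‖v i‖ ^ 2 = s i) {q : ℝ} (hq : 0 < q)
    (hq2 : q < 2) (hs : Summable fun i => s i ^ q) (hK : Tendsto (Ks u (vv v)) atTop (𝓝 K))
    (m : Measure ℂ) [SFinite m] (hm : LogBd m) :
    ∀ᵐ t ∂m, ((∃ c : ℂ, N + t • K = c • 1) ∨ Pool.Agent.Y283.NK.HasHyp (N + t • K)) ∧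
      LocVec (N + t • K) ∧ LocVec (ContinuousLinearMap.adjoint (N + t • K)) := by
  have hs0 : ∀ i, 0 ≤ s i := fun i => by rw [← hus]; positivity
  obtain ⟨M, hM⟩ := hN.bdd
  have hφ := hN.meas
  obtain ⟨R, hR⟩ : ∃ R : ℝ, R = |M| + 1 := ⟨_, rfl⟩
  have hR0 : 0 < R := by rw [hR]; positivity
  have hb : ∀ s, ‖φ s‖ ≤ R := fun s => by
    have := hM s
    have := le_abs_self M
    rw [hR]
    linarith
  have hN' := Pool.Agent.Y77.NK.isMul_adj hN
  have hφ' : Measurable fun s => conj (φ s) := hN'.meas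
  have hb' : ∀ s, ‖conj (φ s)‖ ≤ R := fun s => by
    rw [RCLike.norm_conj]
    exact hb s
  have hΨ := mcal_cal (μ := μ) hφ hb hR0 hN
  have hΨ' := mcal_cal (μ := μ) hφ' hb' hR0 hN'
  obtain ⟨p, b, lam, Q, C, h1, h2, hWS⟩ := exists_WS hs0 hq hq2 hs
  have hWu := hWS S μ u hu hus
  have hWv := hWS S μ v hv hvs
  have hK' := adj_lim hK
  have hsel' := sel2 hφ' h1 h2 hWv hWu (m.map fun t : ℂ => conj t) (logBd_conj hm)
  filter_upwards [sel2 hφ h1 h2 hWu hWv m hm, ae_of_ae_map conj_meas.aemeasurable hsel']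
    with t g1 g2
  have hadj : ContinuousLinearMap.adjoint (N + t • K) =
      ContinuousLinearMap.adjoint N + (conj t) • ContinuousLinearMap.adjoint K := by
    rw [map_add]
    congr 1
    ext1 f
    refine ext_inner_right ℂ fun y => ?_
    rw [ContinuousLinearMap.adjoint_inner_left]
    show ⟪f, t • K y⟫_ℂ = ⟪(conj t) • ContinuousLinearMap.adjoint K f, y⟫_ℂ
    rw [inner_smul_right, inner_smul_left, ContinuousLinearMap.adjoint_inner_left,
      Complex.conj_conj]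
  refine ⟨?_, sls2 hφ hb hΨ h1 h2 hWu hWv hK g1, ?_⟩
  · by_cases h : ∃ a b : ℂ, a ≠ b ∧ Ess (mcal μ hφ hb) a ∧ Ess (mcal μ hφ hb) b
    · right
      obtain ⟨a, d, had, ha, hd⟩ := h
      have hdist : 0 < ‖a - d‖ := norm_pos_iff.2 (sub_ne_zero.2 had)
      obtain ⟨X, ⟨X1, C₁, X2⟩, X3⟩ := chains2 hφ hb hΨ h1 h2 hWu hWv hK g1 ha
        (r := ‖a - d‖ / 3) (by positivity)
      obtain ⟨Y, ⟨Y1, C₂, Y2⟩, Y3⟩ := chains2 hφ' hb' hΨ' h1 h2 hWv hWu hK' g2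
        (ess_conj hφ hb hφ' hb' hd) (r := ‖a - d‖ / 3) (by positivity)
      rw [← hadj] at Y1
      exact Pool.Agent.Y529.NK.ANN.main (Lp ℂ 2 μ) (N + t • K) a d _ _ C₁ C₂ X Y (by positivity)
        (by positivity) (by linarith) X1 X2 Y1 Y2 X3 Y3
    · have h3 : ∃ a₀ : ℂ, ∀ a, a ≠ a₀ → ¬ Ess (mcal μ hφ hb) a := by
        by_cases h2 : ∃ a, Ess (mcal μ hφ hb) a
        · obtain ⟨a, ha⟩ := h2
          exact ⟨a, fun b hb' hE => h ⟨a, b, hb'.symm, ha, hE⟩⟩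
        · exact ⟨0, fun a _ hE => h2 ⟨a, hE⟩⟩
      obtain ⟨a, ha⟩ := h3
      have hc := compact_of_one hΨ a ha
      by_cases hsc : ∃ c : ℂ, N + t • K = c • 1
      · exact Or.inl hsc
      right
      have h4 : IsCompactOperator (⇑((N + t • K) - a • (1 : Lp ℂ 2 μ →L[ℂ] Lp ℂ 2 μ))) := by
        have h5 : (N + t • K) - a • (1 : Lp ℂ 2 μ →L[ℂ] Lp ℂ 2 μ) =
            (N - a • (1 : Lp ℂ 2 μ →L[ℂ] Lp ℂ 2 μ)) + t • K := by abel
        rw [h5]
        exact hc.add ((K_compact hK).smul t)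
      refine hyp_shift a (Pool.Agent.W577.HI.G1.main _ _ h4 ?_)
      rintro ⟨c, hc⟩
      apply hsc
      refine ⟨c + a, ?_⟩
      rw [add_smul, ← hc]
      abel
  · rw [hadj]
    exact sls2 hφ' hb' hΨ' h1 h2 hWv hWu hK' g2

end fin

/-! ### Abstract Hilbert spaces -/

theorem main2 (H : Type) [NormedAddCommGroup H] [InnerProductSpace ℂ H] [CompleteSpace H]
    [TopologicalSpace.SeparableSpace H] (N K : H →L[ℂ] H) (hN : IsStarNormal N) (u v : ℕ → H)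
    (hu : Pairwise fun i j => ⟪u i, u j⟫_ℂ = 0) (hv : Pairwise fun i j => ⟪v i, v j⟫_ℂ = 0)
    {s : ℕ → ℝ} (hus : ∀ i, ‖u i‖ ^ 2 = s i) (hvs : ∀ i, ‖v i‖ ^ 2 = s i) {q : ℝ} (hq : 0 < q)
    (hq2 : q < 2) (hs : Summable fun i => s i ^ q)
    (hK : ∀ x, HasSum (fun i => ⟪v i, x⟫_ℂ • u i) (K x))
    (m : Measure ℂ) [SFinite m] (hm : LogBd m) :
    ∀ᵐ t ∂m, ((∃ c : ℂ, N + t • K = c • 1) ∨ Pool.Agent.Y283.NK.HasHyp (N + t • K)) ∧
      LocVec (N + t • K) ∧ LocVec (ContinuousLinearMap.adjoint (N + t • K)) := by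
  have hs0 : ∀ i, 0 ≤ s i := fun i => by rw [← hus]; positivity
  obtain ⟨S, _, μ, _, φ, W, hφ, hφb, hW⟩ := Pool.Agent.Y25.NK.SPN.main H N hN
  have hMul : IsMul φ (cj W N) := by
    refine ⟨hφ, ⟨‖N‖, hφb⟩, fun f => ?_⟩
    have h1 : MemLp (fun s => φ s * f s) 2 μ := mul_memLp hφ hφb f
    have h2 := hW f (h1.toLp _) h1.coeFn_toLp
    rw [cj_apply, h2, LinearIsometryEquiv.symm_apply_apply]
    exact h1.coeFn_toLp
  have hu' : Pairwise fun i j => ⟪W.symm (u i), W.symm (u j)⟫_ℂ = 0 := fun i j hij => by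
    show ⟪W.symm (u i), W.symm (u j)⟫_ℂ = 0
    rw [LinearIsometryEquiv.inner_map_map]
    exact hu hij
  have hv' : Pairwise fun i j => ⟪W.symm (v i), W.symm (v j)⟫_ℂ = 0 := fun i j hij => by
    show ⟪W.symm (v i), W.symm (v j)⟫_ℂ = 0
    rw [LinearIsometryEquiv.inner_map_map]
    exact hv hij
  have hus' : ∀ i, ‖W.symm (u i)‖ ^ 2 = s i := fun i => by
    rw [LinearIsometryEquiv.norm_map, hus]
  have hvs' : ∀ i, ‖W.symm (v i)‖ ^ 2 = s i := fun i => by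
    rw [LinearIsometryEquiv.norm_map, hvs]
  have hK' : ∀ x, HasSum (fun i => ⟪W.symm (v i), x⟫_ℂ • W.symm (u i)) (cj W K x) := by
    intro x
    have h1 := (hK (W x)).mapL (W.symm : H →L[ℂ] Lp ℂ 2 μ)
    have e : (fun i => ⟪W.symm (v i), x⟫_ℂ • W.symm (u i)) =
        fun i => (W.symm : H →L[ℂ] Lp ℂ 2 μ) (⟪v i, W x⟫_ℂ • u i) := by
      funext i
      have e1 : ⟪W.symm (v i), x⟫_ℂ = ⟪v i, W x⟫_ℂ := by
        rw [← W.inner_map_map, W.apply_symm_apply]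
      rw [map_smul, e1]
      rfl
    rw [e]
    exact h1
  have hs1 : Tendsto s atTop (𝓝 0) := by
    have h1 := hs.tendsto_atTop_zero.rpow_const (p := 1 / q) (Or.inr (by positivity))
    rw [Real.zero_rpow (by positivity)] at h1
    refine h1.congr fun i => ?_
    rw [← Real.rpow_mul (hs0 i), mul_one_div_cancel hq.ne', Real.rpow_one]
  have hlim := sec_lim hu' hv' hus' hvs' hs1 hK'
  filter_upwards [fin3 hMul hu' hv' hus' hvs' hq hq2 hs hlim m hm] with t ht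
  obtain ⟨t1, t2, t3⟩ := ht
  rw [← cj_add_smul] at t1 t2 t3
  refine ⟨?_, locvec_of_cj W t2, ?_⟩
  · rcases t1 with ⟨c, hc⟩ | h
    · exact Or.inl ⟨c, scalar_of_cj W hc⟩
    · exact Or.inr (hyp_of_cj W h)
  · have h2 : ContinuousLinearMap.adjoint (cj W (N + t • K)) =
        cj W (ContinuousLinearMap.adjoint (N + t • K)) := by
      ext1 f
      refine ext_inner_right ℂ fun y => ?_
      rw [ContinuousLinearMap.adjoint_inner_left, cj_apply, cj_apply]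
      calc ⟪f, W.symm ((N + t • K) (W y))⟫_ℂ = ⟪W f, (N + t • K) (W y)⟫_ℂ := by
            rw [← W.inner_map_map, LinearIsometryEquiv.apply_symm_apply]
        _ = ⟪ContinuousLinearMap.adjoint (N + t • K) (W f), W y⟫_ℂ := by
            rw [ContinuousLinearMap.adjoint_inner_left]
        _ = ⟪W.symm (ContinuousLinearMap.adjoint (N + t • K) (W f)), y⟫_ℂ := by
            rw [← W.inner_map_map, LinearIsometryEquiv.apply_symm_apply]
    rw [h2] at t3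
    exact locvec_of_cj W t3

end Pool.Agent.Q98.NS
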