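import Pool.Agent.Q98.NS.Det

/-!
# Normal operators plus operators of a Schatten class: potentials of regularised determinants
-/

set_option autoImplicit false

namespace Pool.Agent.Q98.NS

open MeasureTheory Set Metric Filter Topology Matrix
open scoped ENNReal NNReal ComplexConjugate
open Pool.Agent.Y283.NK (lm LogBd)
open Pool.Agent.Y891.NK (lm_mul lm_prod lm_le_of_exp one_factor measurable_lm)

theorem lm_exp_le (w : ℂ) : lm ‖Complex.exp w‖ ≤ ENNReal.ofReal ‖w‖ := by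
  refine lm_le_of_exp (norm_pos_iff.2 (Complex.exp_ne_zero _)) (norm_nonneg _) ?_
  rw [Complex.norm_exp, ← Real.exp_neg]
  refine Real.exp_le_exp.2 ?_
  have := Complex.abs_re_le_norm w
  have := (abs_le.1 this).1
  linarith

theorem fac_pot (m : Measure ℂ) (hm : LogBd m) {p : ℝ} (h1 : 1 ≤ p) (h2 : p ≤ 2) {R : ℝ}
    (hR : 0 < R) : ∃ C : ℝ≥0, ∀ μ : ℂ,
      ∫⁻ t in ball (0:ℂ) R, lm ‖(1 - t * μ) * Complex.exp (t * μ)‖ ∂m ≤
        C * ENNReal.ofReal (‖μ‖ ^ p) := by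
  obtain ⟨C₀, hmass, -⟩ := hm R
  obtain ⟨C₁, hC₁⟩ := one_factor m hm R
  obtain ⟨A, hA⟩ : ∃ A : ℝ≥0, (A : ℝ) = 4 * R ^ p := ⟨⟨4 * R ^ p, by positivity⟩, rfl⟩
  obtain ⟨B, hB⟩ : ∃ B : ℝ≥0, (B : ℝ) = (2 * R) ^ (p - 1) := ⟨⟨(2 * R) ^ (p - 1), by positivity⟩, rfl⟩
  obtain ⟨r, hr⟩ : ∃ r : ℝ≥0, (r : ℝ) = R := ⟨⟨R, hR.le⟩, rfl⟩
  refine ⟨max (A * C₀) ((C₁ + r * C₀) * B), fun μ => ?_⟩
  have hμ := norm_nonneg μ
  rcases le_total (‖μ‖ * R) (1 / 2) with h | h
  · have h3 : ∀ t ∈ ball (0:ℂ) R, lm ‖(1 - t * μ) * Complex.exp (t * μ)‖ ≤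
        A * ENNReal.ofReal (‖μ‖ ^ p) := by
      intro t ht
      rw [mem_ball_zero_iff] at ht
      have h4 : ‖t * μ‖ ≤ R * ‖μ‖ := by
        rw [norm_mul]
        exact mul_le_mul_of_nonneg_right ht.le hμ
      have h5 : ‖t * μ‖ ≤ 1 / 2 := h4.trans (by linarith)
      have h6 := fac_ge (t * μ) h5
      have hne : 0 < ‖(1 - t * μ) * Complex.exp (t * μ)‖ := by
        refine norm_pos_iff.2 (mul_ne_zero ?_ (Complex.exp_ne_zero _))
        intro h7
        rw [sub_eq_zero] at h7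
        rw [← h7, norm_one] at h5
        norm_num at h5
      refine (lm_le_of_exp hne (by positivity) h6).trans ?_
      have h8 : 4 * ‖t * μ‖ ^ 2 ≤ A * ‖μ‖ ^ p := by
        rw [hA, mul_assoc]
        refine mul_le_mul_of_nonneg_left ?_ (by norm_num)
        calc ‖t * μ‖ ^ 2 ≤ (R * ‖μ‖) ^ 2 := pow_le_pow_left₀ (norm_nonneg _) h4 2
          _ ≤ (R * ‖μ‖) ^ p := by
              rcases (mul_nonneg hR.le hμ).eq_or_lt with h0 | h0
              · rw [← h0, Real.zero_rpow (by linarith)]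
                norm_num
              · rw [← Real.rpow_two]
                exact Real.rpow_le_rpow_of_exponent_ge h0 (by linarith) h2
          _ = R ^ p * ‖μ‖ ^ p := Real.mul_rpow hR.le hμ
      calc ENNReal.ofReal (4 * ‖t * μ‖ ^ 2) ≤ ENNReal.ofReal (A * ‖μ‖ ^ p) :=
            ENNReal.ofReal_le_ofReal h8
        _ = _ := by rw [ENNReal.ofReal_mul (NNReal.coe_nonneg A), ENNReal.ofReal_coe_nnreal]
    calc _ ≤ ∫⁻ t in ball (0:ℂ) R, A * ENNReal.ofReal (‖μ‖ ^ p) ∂m :=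
          setLIntegral_mono' measurableSet_ball h3
      _ = A * ENNReal.ofReal (‖μ‖ ^ p) * m (ball (0:ℂ) R) := by
          rw [lintegral_const, Measure.restrict_apply_univ]
      _ ≤ A * ENNReal.ofReal (‖μ‖ ^ p) * C₀ := by gcongr
      _ = (A * C₀ : ℝ≥0) * ENNReal.ofReal (‖μ‖ ^ p) := by
          push_cast
          ring
      _ ≤ _ := by
          gcongr
          exact le_max_left _ _
  · have h3 : ∀ t ∈ ball (0:ℂ) R, lm ‖(1 - t * μ) * Complex.exp (t * μ)‖ ≤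
        lm ‖1 - t * μ‖ + r * ENNReal.ofReal ‖μ‖ := by
      intro t ht
      rw [mem_ball_zero_iff] at ht
      rw [norm_mul]
      refine (lm_mul _ _).trans (add_le_add le_rfl ((lm_exp_le _).trans ?_))
      calc ENNReal.ofReal ‖t * μ‖ ≤ ENNReal.ofReal (r * ‖μ‖) := by
            refine ENNReal.ofReal_le_ofReal ?_
            rw [norm_mul, hr]
            exact mul_le_mul_of_nonneg_right ht.le hμ
        _ = _ := by rw [ENNReal.ofReal_mul (NNReal.coe_nonneg r), ENNReal.ofReal_coe_nnreal]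
    have h4 : ‖μ‖ ≤ B * ‖μ‖ ^ p := by
      have h5 : 1 ≤ 2 * R * ‖μ‖ := by linarith
      have h6 : 2 * R * ‖μ‖ ≤ (2 * R * ‖μ‖) ^ p := by
        calc 2 * R * ‖μ‖ = (2 * R * ‖μ‖) ^ (1:ℝ) := (Real.rpow_one _).symm
          _ ≤ _ := Real.rpow_le_rpow_of_exponent_le h5 h1
      rw [Real.mul_rpow (by positivity) hμ] at h6
      have h7 : (2 * R) ^ p = 2 * R * (2 * R) ^ (p - 1) := by
        have h0 : (0:ℝ) < 2 * R := by positivity
        rw [← Real.rpow_one_add' h0.le (by linarith)]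
        congr 1
        ring
      rw [h7, mul_assoc (2 * R) ((2 * R) ^ (p - 1)), ← hB] at h6
      exact le_of_mul_le_mul_left h6 (by positivity)
    have hmeas : Measurable fun t : ℂ => lm ‖1 - t * μ‖ := measurable_lm.comp (by fun_prop)
    calc _ ≤ ∫⁻ t in ball (0:ℂ) R, (lm ‖1 - t * μ‖ + r * ENNReal.ofReal ‖μ‖) ∂m :=
          setLIntegral_mono' measurableSet_ball h3
      _ = (∫⁻ t in ball (0:ℂ) R, lm ‖1 - t * μ‖ ∂m) +
          r * ENNReal.ofReal ‖μ‖ * m (ball (0:ℂ) R) := by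
          rw [lintegral_add_left hmeas, lintegral_const, Measure.restrict_apply_univ]
      _ ≤ C₁ * ENNReal.ofReal ‖μ‖ + r * ENNReal.ofReal ‖μ‖ * C₀ := by
          gcongr
          exact hC₁ μ
      _ = (C₁ + r * C₀) * ENNReal.ofReal ‖μ‖ := by ring
      _ ≤ (C₁ + r * C₀) * (B * ENNReal.ofReal (‖μ‖ ^ p)) := by
          gcongr
          calc ENNReal.ofReal ‖μ‖ ≤ ENNReal.ofReal (B * ‖μ‖ ^ p) := ENNReal.ofReal_le_ofReal h4
            _ = _ := by rw [ENNReal.ofReal_mul (NNReal.coe_nonneg B), ENNReal.ofReal_coe_nnreal]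
      _ = ((C₁ + r * C₀) * B : ℝ≥0) * ENNReal.ofReal (‖μ‖ ^ p) := by
          push_cast
          ring
      _ ≤ _ := by
          gcongr
          exact le_max_right _ _

/-- the potential of the regularised determinant -/
theorem pot2 (m : Measure ℂ) (hm : LogBd m) {p : ℝ} (h1 : 1 ≤ p) (h2 : p ≤ 2) {R : ℝ}
    (hR : 0 < R) : ∃ C : ℝ≥0, ∀ (n : ℕ) (A : Matrix (Fin n) (Fin n) ℂ) (G : ℝ), PF p A G →
      ∫⁻ t in ball (0:ℂ) R, lm ‖det2 (t • A)‖ ∂m ≤ C * ENNReal.ofReal G := by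
  obtain ⟨C, hC⟩ := fac_pot m hm h1 h2 hR
  refine ⟨C, fun n A G hA => ?_⟩
  obtain ⟨U, hU, hd⟩ := det2_prod A
  have hmeas : ∀ k : Fin n, Measurable fun t : ℂ => lm ‖(1 - t * (star U * A * U) k k) *
      Complex.exp (t * (star U * A * U) k k)‖ := fun k => by
    refine measurable_lm.comp (Measurable.norm ?_)
    refine Measurable.mul (by fun_prop) ?_
    exact Complex.measurable_exp.comp (by fun_prop)
  calc ∫⁻ t in ball (0:ℂ) R, lm ‖det2 (t • A)‖ ∂m
      ≤ ∫⁻ t in ball (0:ℂ) R, ∑ k, lm ‖(1 - t * (star U * A * U) k k) *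
          Complex.exp (t * (star U * A * U) k k)‖ ∂m := by
        refine lintegral_mono fun t => ?_
        rw [hd t, norm_prod]
        exact lm_prod _ _
    _ = ∑ k, ∫⁻ t in ball (0:ℂ) R, lm ‖(1 - t * (star U * A * U) k k) *
          Complex.exp (t * (star U * A * U) k k)‖ ∂m := lintegral_finsetSum _ fun k _ => hmeas k
    _ ≤ ∑ k, C * ENNReal.ofReal (‖(star U * A * U) k k‖ ^ p) :=
        Finset.sum_le_sum fun k _ => hC _
    _ = C * ENNReal.ofReal (∑ k, ‖(star U * A * U) k k‖ ^ p) := by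
        rw [ENNReal.ofReal_sum_of_nonneg fun k _ => Real.rpow_nonneg (norm_nonneg _) _,
          Finset.mul_sum]
    _ ≤ _ := by
        gcongr
        exact hA U hU

end Pool.Agent.Q98.NS
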