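import Pool.Agent.Q98.NS.Cau2
import Pool.Agent.Q98.NS.Pot

/-!
# Normal operators plus operators of a Schatten class: the matrix of the Cauchy transforms
-/

set_option autoImplicit false

namespace Pool.Agent.Q98.NS

open MeasureTheory Set Metric Filter Topology
open Matrix
open scoped ENNReal NNReal ComplexConjugate InnerProductSpace
open Pool.Agent.Y283.NK (lm LogBd ct ea IsMul)
open Pool.Agent.Q98.RB
open Pool.Agent.Q98.NR

variable {S : Type} [MeasurableSpace S] {μ : Measure S} {φ : S → ℂ}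

/-- the data of the blocks -/
structure WS (p : ℝ) (b : ℕ → ℕ) (lam Q : ℝ≥0) (u : ℕ → Lp ℂ 2 μ) (C : ℝ≥0) : Prop where
  lam0 : lam ≠ 0
  blk : ∀ (n : ℕ) (g : Fin n → ℂ), ∑ i, ‖g i‖ ^ 2 ≤ 1 → ∀ j : ℕ,
    ∫⁻ s, ‖bl (fun i : Fin n => b i) (fun i : Fin n => ⇑(u i)) g j s‖ₑ ^ 2 ∂μ ≤
      Q * (2⁻¹ : ℝ≥0∞) ^ j
  sum : ∀ n : ℕ, ∑ i : Fin n, cb lam Q p (b i) * ‖u i‖ₑ ^ 2 ≤ C

/-- the majorant of the energies -/
noncomputable def GG (φ : S → ℂ) (p : ℝ) (b : ℕ → ℕ) (lam Q : ℝ≥0) (u : ℕ → Lp ℂ 2 μ) (n : ℕ)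
    (z : ℂ) : ℝ≥0∞ :=
  ∑ i : Fin n, cb lam Q p (b i) * ep μ φ p (u i) z

variable {p : ℝ} {b : ℕ → ℕ} {lam Q : ℝ≥0} {u v : ℕ → Lp ℂ 2 μ} {C : ℝ≥0}

theorem eg_unit (hφ : Measurable φ) (hW : WS p b lam Q u C) (hp : 1 < p) {n : ℕ} (g : Fin n → ℂ)
    (hg : ∑ i, ‖g i‖ ^ 2 ≤ 1) (z : ℂ) :
    (eg μ φ (fun s => ∑ i, g i * u i s) z) ^ p ≤ GG φ p b lam Q u n z :=
  blk_unit (μ := μ) (F := fun i : Fin n => ⇑(u i)) (fun i => coe_meas _) (ker_meas hφ z)
    (fun i : Fin n => b i) hW.lam0 hp (hW.blk n) g hg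

theorem eg_basis (hφ : Measurable φ) (hW : WS p b lam Q u C) (hp : 1 < p) {n : ℕ}
    (U : Matrix (Fin n) (Fin n) ℂ) (hU : U * star U = 1) (z : ℂ) :
    ∑ k, (eg μ φ (fun s => ∑ i, U i k * u i s) z) ^ p ≤ GG φ p b lam Q u n z :=
  blk_basis (μ := μ) (F := fun i : Fin n => ⇑(u i)) (fun i => coe_meas _) (ker_meas hφ z)
    (fun i : Fin n => b i) hW.lam0 hp (hW.blk n) U hU

theorem eg_fin (hφ : Measurable φ) (hW : WS p b lam Q u C) (hp : 1 < p) {n : ℕ} {z : ℂ}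
    (hz : GG φ p b lam Q u n z ≠ ⊤) (i : Fin n) : eg μ φ (u i) z ≠ ⊤ := by
  have h1 := eg_unit hφ hW hp (n := n) (fun k => if k = i then 1 else 0) (by
    rw [Finset.sum_eq_single i]
    · simp
    · intro k _ hk
      simp [hk]
    · simp) z
  have e : (fun s => ∑ k : Fin n, (if k = i then 1 else 0 : ℂ) * u k s) = fun s => u i s := by
    funext s
    rw [Finset.sum_eq_single i]
    · simp
    · intro k _ hk
      simp [hk]
    · simp
  rw [e] at h1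
  intro h0
  have h2 : eg μ φ (fun s => u i s) z = ⊤ := h0
  rw [h2, ENNReal.top_rpow_of_pos (by linarith)] at h1
  exact hz (top_le_iff.1 h1)

theorem sqrt_prod_rpow (X Y : ℝ≥0∞) {p : ℝ} (hp : 0 ≤ p) :
    (X ^ (1 / 2 : ℝ) * Y ^ (1 / 2 : ℝ)) ^ p ≤ X ^ p + Y ^ p := by
  rcases le_total X Y with h | h
  · calc (X ^ (1 / 2 : ℝ) * Y ^ (1 / 2 : ℝ)) ^ p ≤ (Y ^ (1 / 2 : ℝ) * Y ^ (1 / 2 : ℝ)) ^ p := by
          gcongr
      _ = Y ^ p := by
          rw [← ENNReal.rpow_add_of_nonneg _ _ (by norm_num) (by norm_num)]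
          norm_num
      _ ≤ _ := le_add_self
  · calc (X ^ (1 / 2 : ℝ) * Y ^ (1 / 2 : ℝ)) ^ p ≤ (X ^ (1 / 2 : ℝ) * X ^ (1 / 2 : ℝ)) ^ p := by
          gcongr
      _ = X ^ p := by
          rw [← ENNReal.rpow_add_of_nonneg _ _ (by norm_num) (by norm_num)]
          norm_num
      _ ≤ _ := le_self_add

/-- the matrix of the Cauchy transforms -/
noncomputable def CM (φ : S → ℂ) (u v : ℕ → Lp ℂ 2 μ) (n : ℕ) (z : ℂ) :
    Matrix (Fin n) (Fin n) ℂ := fun i k => ct φ (v i) (u k) z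

theorem pf_CM (hφ : Measurable φ) {C' : ℝ≥0} (hu : WS p b lam Q u C) (hv : WS p b lam Q v C')
    (hp : 1 < p) {n : ℕ} {z : ℂ} (hzu : GG φ p b lam Q u n z ≠ ⊤)
    (hzv : GG φ p b lam Q v n z ≠ ⊤) :
    PF p (CM φ u v n z) (GG φ p b lam Q u n z + GG φ p b lam Q v n z).toReal := by
  intro U hU
  have hp0 : 0 ≤ p := by linarith
  have e1 : ∀ k, (star U * CM φ u v n z * U) k k =
      cg μ φ (fun s => ∑ i : Fin n, U i k * v i s) (fun s => ∑ i : Fin n, U i k * u i s) z := by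
    intro k
    rw [cg_comb hφ (G := fun i : Fin n => ⇑(v i)) (F := fun i : Fin n => ⇑(u i))
      (fun i => coe_meas _) (fun i => coe_meas _) (fun i => eg_fin hφ hv hp hzv i)
      (fun i => eg_fin hφ hu hp hzu i)]
    rw [Matrix.mul_apply]
    simp only [Matrix.mul_apply, Finset.sum_mul]
    rw [Finset.sum_comm]
    refine Finset.sum_congr rfl fun i _ => Finset.sum_congr rfl fun l _ => ?_
    rw [Matrix.star_apply]
    show conj (U i k) * ct φ (v i) (u l) z * U l k = conj (U i k) * U l k * ct φ (v i) (u l) z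
    ring
  have h1 : ∀ k, ‖(star U * CM φ u v n z * U) k k‖ₑ ^ p ≤
      (eg μ φ (fun s => ∑ i : Fin n, U i k * v i s) z) ^ p +
      (eg μ φ (fun s => ∑ i : Fin n, U i k * u i s) z) ^ p := by
    intro k
    rw [e1]
    have mF : ∀ w : ℕ → Lp ℂ 2 μ, Measurable fun s => ∑ i : Fin n, U i k * w i s := fun w =>
      Finset.measurable_sum _ fun i _ => (coe_meas (w i)).const_mul _
    exact (ENNReal.rpow_le_rpow (cg_le hφ (mF v) (mF u) z) hp0).trans (sqrt_prod_rpow _ _ hp0)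
  have h2 : ∑ k, ‖(star U * CM φ u v n z * U) k k‖ₑ ^ p ≤
      GG φ p b lam Q u n z + GG φ p b lam Q v n z := by
    calc _ ≤ ∑ k, ((eg μ φ (fun s => ∑ i : Fin n, U i k * v i s) z) ^ p +
          (eg μ φ (fun s => ∑ i : Fin n, U i k * u i s) z) ^ p) :=
          Finset.sum_le_sum fun k _ => h1 k
      _ = _ + _ := Finset.sum_add_distrib
      _ ≤ GG φ p b lam Q v n z + GG φ p b lam Q u n z :=
          add_le_add (eg_basis hφ hv hp U hU z) (eg_basis hφ hu hp U hU z)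
      _ = _ := add_comm _ _
  have h3 := ENNReal.toReal_mono (ENNReal.add_ne_top.2 ⟨hzu, hzv⟩) h2
  rw [ENNReal.toReal_sum fun k _ => rpow_top hp0 _] at h3
  simpa only [rpow_toReal] using h3

/-- the integral of the majorant -/
theorem GG_meas [SigmaFinite μ] (hφ : Measurable φ) (n : ℕ) :
    Measurable (GG φ p b lam Q u n) := by
  unfold GG
  exact Finset.measurable_sum _ fun i _ => (ep_meas hφ p (coe_meas _)).const_mul _

theorem GG_int [SigmaFinite μ] (hφ : Measurable φ) (hW : WS p b lam Q u C) (n : ℕ) {ρ : ℝ}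
    {A : ℝ≥0} (hA : ∀ w : ℂ, ∫⁻ z in ball (0:ℂ) ρ, (‖z - w‖ₑ⁻¹) ^ p ≤ A) :
    ∫⁻ z in ball (0:ℂ) ρ, GG φ p b lam Q u n z ≤ A * C := by
  have m1 : ∀ i : Fin n, Measurable fun z => cb lam Q p (b i) * ep μ φ p (u i) z := fun i =>
    (ep_meas hφ p (coe_meas _)).const_mul _
  unfold GG
  rw [lintegral_finsetSum _ fun i _ => m1 i]
  calc _ ≤ ∑ i : Fin n, A * (cb lam Q p (b i) * ‖u i‖ₑ ^ 2) := by
        refine Finset.sum_le_sum fun i _ => ?_
        rw [lintegral_const_mul _ (ep_meas hφ p (coe_meas (u i)))]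
        calc cb lam Q p (b i) * ∫⁻ z in ball (0:ℂ) ρ, ep μ φ p (u i) z
            ≤ cb lam Q p (b i) * (A * ∫⁻ s, ‖u i s‖ₑ ^ 2 ∂μ) :=
              mul_le_mul' le_rfl (ep_ball hφ (coe_meas _) hA)
          _ = _ := by
              rw [lint_sq]
              ring
    _ = A * ∑ i : Fin n, cb lam Q p (b i) * ‖u i‖ₑ ^ 2 := by rw [Finset.mul_sum]
    _ ≤ _ := mul_le_mul' le_rfl (hW.sum n)

end Pool.Agent.Q98.NS
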