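import Pool.Agent.Q98.NS.Pfc
import Pool.Agent.Q98.NR.Fin

/-!
# Normal operators plus operators of a Schatten class: the blocks
-/

set_option autoImplicit false

namespace Pool.Agent.Q98.NS

open MeasureTheory Set Metric Filter Topology
open scoped ENNReal NNReal ComplexConjugate InnerProductSpace

/-- Pythagoras -/
theorem orth_sq {H : Type} [NormedAddCommGroup H] [InnerProductSpace ℂ H] {κ : Type}
    (w : κ → H) (hw : Pairwise fun i j => ⟪w i, w j⟫_ℂ = 0) (c : κ → ℂ) (F : Finset κ) :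
    ‖∑ i ∈ F, c i • w i‖ ^ 2 = ∑ i ∈ F, ‖c i‖ ^ 2 * ‖w i‖ ^ 2 := by
  classical
  induction F using Finset.induction_on with
  | empty => simp
  | insert a F ha ih =>
    rw [Finset.sum_insert ha, Finset.sum_insert ha, ← ih]
    have h0 : ⟪c a • w a, ∑ i ∈ F, c i • w i⟫_ℂ = 0 := by
      rw [inner_sum]
      refine Finset.sum_eq_zero fun i hi => ?_
      rw [inner_smul_left, inner_smul_right, hw (fun h : a = i => ha (by rw [h]; exact hi)), mul_zero, mul_zero]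
    have h1 := norm_add_sq_eq_norm_sq_add_norm_sq_of_inner_eq_zero _ _ h0
    rw [pow_two, h1, norm_smul]
    ring

theorem cb_eq {lam Q : ℝ≥0} (h0 : 0 < lam) (h1 : lam < 1) (hQ : 0 < Q) (p : ℝ) (j : ℕ) :
    cb lam Q p j = ENNReal.ofReal ((1 - (lam : ℝ))⁻¹ ^ (2 * p - 1) *
      ((lam : ℝ) ^ j * ((((lam : ℝ) ^ j)⁻¹) ^ 2) ^ p * ((Q : ℝ) * (2⁻¹ : ℝ) ^ j) ^ (p - 1))) := by
  have hl0 : (0:ℝ) < lam := by exact_mod_cast h0
  have hl1 : (lam : ℝ) < 1 := by exact_mod_cast h1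
  have hQ0 : (0:ℝ) < Q := by exact_mod_cast hQ
  have e1 : (1 - (lam : ℝ≥0∞))⁻¹ = ENNReal.ofReal ((1 - (lam : ℝ))⁻¹) := by
    rw [ENNReal.ofReal_inv_of_pos (by linarith), ENNReal.ofReal_sub _ hl0.le, ENNReal.ofReal_one,
      ENNReal.ofReal_coe_nnreal]
  have e2 : (lam : ℝ≥0∞) ^ j = ENNReal.ofReal ((lam : ℝ) ^ j) := by
    rw [ENNReal.ofReal_pow hl0.le, ENNReal.ofReal_coe_nnreal]
  have e3 : (Q : ℝ≥0∞) * (2⁻¹ : ℝ≥0∞) ^ j = ENNReal.ofReal ((Q : ℝ) * (2⁻¹ : ℝ) ^ j) := by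
    rw [ENNReal.ofReal_mul hQ0.le, ENNReal.ofReal_coe_nnreal, ENNReal.ofReal_pow (by norm_num),
      ENNReal.ofReal_inv_of_pos (by norm_num), ENNReal.ofReal_ofNat]
  unfold cb
  have p1 : 0 < (1 - (lam : ℝ))⁻¹ := by
    rw [inv_pos]
    linarith
  have p2 : 0 < (((lam : ℝ) ^ j)⁻¹) ^ 2 := by positivity
  have p3 : 0 < (Q : ℝ) * (2⁻¹ : ℝ) ^ j := by positivity
  rw [e1, e2, e3, ← ENNReal.ofReal_inv_of_pos (by positivity), ← ENNReal.ofReal_pow (by positivity),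
    ENNReal.ofReal_rpow_of_pos p1, ENNReal.ofReal_rpow_of_pos p2, ENNReal.ofReal_rpow_of_pos p3,
    ← ENNReal.ofReal_mul (by positivity), ← ENNReal.ofReal_mul (by positivity),
    ← ENNReal.ofReal_mul (Real.rpow_nonneg p1.le _)]

/-- the arithmetic of the weights -/
theorem wt_real {p p₀ δ Q x s : ℝ} (hδ : δ * (2 * p - 1) = p - p₀)
    (hp₀ : 1 ≤ p₀) (hQ : 0 < Q) (hx : 0 < x) (hs : 0 < s) (hxs : Q * x ≤ 2 * s) :
    (x ^ δ * (((x ^ δ)⁻¹) ^ 2) ^ p * (Q * x) ^ (p - 1)) * s ≤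
      Q ^ (p - 1) * (2 / Q) ^ (p₀ - 1) * s ^ p₀ := by
  have e1 : x ^ δ * (((x ^ δ)⁻¹) ^ 2) ^ p = x ^ (p₀ - p) := by
    have h1 : ((x ^ δ)⁻¹) ^ 2 = x ^ (-(2 * δ)) := by
      rw [← Real.rpow_neg hx.le, ← Real.rpow_natCast, ← Real.rpow_mul hx.le]
      congr 1
      push_cast
      ring
    rw [h1, ← Real.rpow_mul hx.le, ← Real.rpow_add hx]
    congr 1
    linear_combination -hδ
  have e2 : x ^ (p₀ - p) * (Q * x) ^ (p - 1) = Q ^ (p - 1) * x ^ (p₀ - 1) := by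
    rw [Real.mul_rpow hQ.le hx.le]
    have h2 : x ^ (p₀ - 1) = x ^ (p₀ - p) * x ^ (p - 1) := by
      rw [← Real.rpow_add hx]
      congr 1
      ring
    rw [h2]
    ring
  have e3 : x ^ (p₀ - 1) ≤ (2 / Q) ^ (p₀ - 1) * s ^ (p₀ - 1) := by
    rw [← Real.mul_rpow (by positivity) hs.le]
    refine Real.rpow_le_rpow hx.le ?_ (by linarith)
    rw [div_mul_eq_mul_div, le_div_iff₀ hQ]
    linarith
  have e4 : s ^ p₀ = s ^ (p₀ - 1) * s := by
    conv_rhs =>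
      arg 2
      rw [← Real.rpow_one s]
    rw [← Real.rpow_add hs]
    congr 1
    ring
  rw [e1, e2, e4]
  calc Q ^ (p - 1) * x ^ (p₀ - 1) * s ≤ Q ^ (p - 1) * ((2 / Q) ^ (p₀ - 1) * s ^ (p₀ - 1)) * s := by
        gcongr
    _ = _ := by ring

/-- the blocks -/
theorem exists_WS {s : ℕ → ℝ} (hs0 : ∀ i, 0 ≤ s i) {q : ℝ} (hq : 0 < q) (hq2 : q < 2)
    (hs : Summable fun i => s i ^ q) :
    ∃ (p : ℝ) (b : ℕ → ℕ) (lam Q C : ℝ≥0), 1 < p ∧ p < 2 ∧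
      ∀ (S : Type) [MeasurableSpace S] (μ : Measure S) (u : ℕ → Lp ℂ 2 μ),
      (Pairwise fun i j => ⟪u i, u j⟫_ℂ = 0) → (∀ i, ‖u i‖ ^ 2 = s i) → WS p b lam Q u C := by
  obtain ⟨p₀, hp₀⟩ : ∃ p₀ : ℝ, p₀ = max q 1 := ⟨_, rfl⟩
  have hp₀1 : 1 ≤ p₀ := by rw [hp₀]; exact le_max_right _ _
  have hp₀2 : p₀ < 2 := by rw [hp₀]; exact max_lt hq2 (by norm_num)
  have hqp₀ : q ≤ p₀ := by rw [hp₀]; exact le_max_left _ _
  have hs1 : Summable fun i => s i ^ p₀ := Pool.Agent.Q98.NR.summable_mono hs0 hq hqp₀ hs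
  obtain ⟨p, hp⟩ : ∃ p : ℝ, p = (p₀ + 2) / 2 := ⟨_, rfl⟩
  have hp1 : 1 < p := by rw [hp]; linarith
  have hp2 : p < 2 := by rw [hp]; linarith
  have hpp : p₀ < p := by rw [hp]; linarith
  obtain ⟨δ, hδ⟩ : ∃ δ : ℝ, δ = (p - p₀) / (2 * p - 1) := ⟨_, rfl⟩
  have hδ0 : 0 < δ := by
    rw [hδ]
    exact div_pos (by linarith) (by linarith)
  have hδe : δ * (2 * p - 1) = p - p₀ := by
    rw [hδ]
    exact div_mul_cancel₀ _ (by linarith)
  -- the bound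
  obtain ⟨M, hM⟩ := hs1.tendsto_atTop_zero.bddAbove_range
  have hsM : ∀ i, s i ≤ 1 + |M| := by
    intro i
    have h1 : s i ^ p₀ ≤ M := hM ⟨i, rfl⟩
    rcases le_total (s i) 1 with h | h
    · have := abs_nonneg M
      linarith
    · have h2 : s i ≤ s i ^ p₀ := by
        calc s i = s i ^ (1:ℝ) := (Real.rpow_one _).symm
          _ ≤ _ := Real.rpow_le_rpow_of_exponent_le h hp₀1
      have := le_abs_self M
      linarith
  obtain ⟨Q, hQ⟩ : ∃ Q : ℝ≥0, (Q : ℝ) = 1 + |M| := ⟨⟨1 + |M|, by positivity⟩, rfl⟩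
  have hQ0 : (0:ℝ) < Q := by rw [hQ]; positivity
  have hQn : 0 < Q := by exact_mod_cast hQ0
  obtain ⟨lam, hlam⟩ : ∃ lam : ℝ≥0, (lam : ℝ) = (2⁻¹ : ℝ) ^ δ := ⟨⟨(2⁻¹ : ℝ) ^ δ, by positivity⟩, rfl⟩
  have hl0 : (0:ℝ) < lam := by rw [hlam]; positivity
  have hl1 : (lam:ℝ) < 1 := by
    rw [hlam]
    exact Real.rpow_lt_one (by norm_num) (by norm_num) hδ0
  have hln0 : 0 < lam := by exact_mod_cast hl0
  have hln1 : lam < 1 := by exact_mod_cast hl1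
  have hb : ∀ i, ∃ j : ℕ, s i ≤ Q * (2⁻¹ : ℝ) ^ j ∧ (0 < s i → Q * (2⁻¹ : ℝ) ^ j ≤ 2 * s i) := by
    intro i
    rcases (hs0 i).eq_or_lt with h0 | h0
    · refine ⟨0, ?_, fun h => ?_⟩
      · rw [← h0]
        positivity
      · rw [← h0] at h
        exact absurd h (lt_irrefl _)
    · have h1 : 1 ≤ Q / s i := by
        rw [le_div_iff₀ h0, one_mul, hQ]
        exact hsM i
      obtain ⟨j, hj1, hj2⟩ := exists_nat_pow_near h1 (one_lt_two : (1:ℝ) < 2)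
      refine ⟨j, ?_, fun _ => ?_⟩
      · rw [inv_pow, ← div_eq_mul_inv, le_div_iff₀ (by positivity)]
        rw [le_div_iff₀ h0] at hj1
        linarith
      · rw [inv_pow, ← div_eq_mul_inv, div_le_iff₀ (by positivity)]
        rw [div_lt_iff₀ h0, pow_succ] at hj2
        linarith
  choose b hb1 hb2 using hb
  obtain ⟨W, hW⟩ : ∃ W : ℝ, W = (1 - (lam : ℝ))⁻¹ ^ (2 * p - 1) *
    (Q ^ (p - 1) * (2 / Q) ^ (p₀ - 1)) := ⟨_, rfl⟩
  have hW0 : 0 ≤ W := by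
    rw [hW]
    have : 0 ≤ (1 - (lam : ℝ))⁻¹ := by
      rw [inv_nonneg]
      linarith
    positivity
  -- one term
  have hterm : ∀ i, cb lam Q p (b i) * ENNReal.ofReal (s i) ≤ ENNReal.ofReal (W * s i ^ p₀) := by
    intro i
    rcases (hs0 i).eq_or_lt with h0 | h0
    · rw [← h0]
      simp
    · rw [cb_eq hln0 hln1 hQn, ← ENNReal.ofReal_mul (by
        have : 0 ≤ (1 - (lam : ℝ))⁻¹ := by
          rw [inv_nonneg]
          linarith
        positivity)]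
      refine ENNReal.ofReal_le_ofReal ?_
      have hx : (lam : ℝ) ^ (b i) = ((2⁻¹ : ℝ) ^ (b i)) ^ δ := by
        rw [hlam, ← Real.rpow_natCast, ← Real.rpow_natCast, ← Real.rpow_mul (by norm_num),
          ← Real.rpow_mul (by norm_num), mul_comm]
      have h1 := wt_real hδe hp₀1 hQ0 (x := (2⁻¹ : ℝ) ^ (b i)) (by positivity) h0 (hb2 i h0)
      rw [← hx] at h1
      calc (1 - (lam : ℝ))⁻¹ ^ (2 * p - 1) * ((lam : ℝ) ^ b i * (((lam : ℝ) ^ b i)⁻¹ ^ 2) ^ p *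
            ((Q : ℝ) * 2⁻¹ ^ b i) ^ (p - 1)) * s i
          = (1 - (lam : ℝ))⁻¹ ^ (2 * p - 1) * (((lam : ℝ) ^ b i * (((lam : ℝ) ^ b i)⁻¹ ^ 2) ^ p *
            ((Q : ℝ) * 2⁻¹ ^ b i) ^ (p - 1)) * s i) := by ring
        _ ≤ (1 - (lam : ℝ))⁻¹ ^ (2 * p - 1) * (Q ^ (p - 1) * (2 / Q) ^ (p₀ - 1) * s i ^ p₀) := by
            refine mul_le_mul_of_nonneg_left h1 (Real.rpow_nonneg ?_ _)
            rw [inv_nonneg]
            linarith
        _ = _ := by rw [hW]; ring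
  refine ⟨p, b, lam, Q, Real.toNNReal (W * ∑' i, s i ^ p₀), hp1, hp2, ?_⟩
  intro S _ μ u hu hus
  have hue : ∀ i, ‖u i‖ₑ ^ 2 = ENNReal.ofReal (s i) := fun i => by
    rw [← hus, ENNReal.ofReal_pow (norm_nonneg _), ofReal_norm]
  refine ⟨hln0.ne', ?_, ?_⟩
  · intro n g hg j
    obtain ⟨F, hF⟩ : ∃ F : Finset (Fin n), F = Finset.univ.filter (fun i : Fin n => b i = j) :=
      ⟨_, rfl⟩
    have hae : (bl (fun i : Fin n => b i) (fun i : Fin n => ⇑(u i)) g j) =ᵐ[μ]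
        ⇑(∑ i ∈ F, g i • u i) := by
      have h1 : ∀ G : Finset (Fin n), (fun s => ∑ i ∈ G, g i * u i s) =ᵐ[μ]
          ⇑(∑ i ∈ G, g i • u i) := by
        intro G
        induction G using Finset.induction_on with
        | empty =>
          simp only [Finset.sum_empty]
          exact (Lp.coeFn_zero _ _ _).symm
        | insert a G ha ih =>
          filter_upwards [ih, Lp.coeFn_add (g a • u a) (∑ i ∈ G, g i • u i),
            Lp.coeFn_smul (g a) (u a)] with x h2 h3 h4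
          rw [Finset.sum_insert ha, Finset.sum_insert ha, h3, Pi.add_apply, h2, h4, Pi.smul_apply,
            smul_eq_mul]
      rw [hF]
      exact h1 _
    have h2 : ∫⁻ s, ‖bl (fun i : Fin n => b i) (fun i : Fin n => ⇑(u i)) g j s‖ₑ ^ 2 ∂μ =
        ‖∑ i ∈ F, g i • u i‖ₑ ^ 2 := by
      rw [← lint_sq]
      refine lintegral_congr_ae ?_
      filter_upwards [hae] with x hx
      rw [hx]
    have hun : Pairwise fun i j : Fin n => ⟪u i, u j⟫_ℂ = 0 := fun i j hij =>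
      hu (fun h => hij (Fin.ext h))
    rw [h2, ← ofReal_norm, ← ENNReal.ofReal_pow (norm_nonneg _),
      orth_sq (fun i : Fin n => u i) hun g F]
    have e3 : (Q : ℝ≥0∞) * (2⁻¹ : ℝ≥0∞) ^ j = ENNReal.ofReal ((Q : ℝ) * (2⁻¹ : ℝ) ^ j) := by
      rw [ENNReal.ofReal_mul hQ0.le, ENNReal.ofReal_coe_nnreal, ENNReal.ofReal_pow (by norm_num),
        ENNReal.ofReal_inv_of_pos (by norm_num), ENNReal.ofReal_ofNat]
    rw [e3]
    refine ENNReal.ofReal_le_ofReal ?_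
    calc ∑ i ∈ F, ‖g i‖ ^ 2 * ‖u i‖ ^ 2 ≤ ∑ i ∈ F, ‖g i‖ ^ 2 * ((Q : ℝ) * (2⁻¹ : ℝ) ^ j) := by
          refine Finset.sum_le_sum fun i hi => ?_
          rw [hus]
          refine mul_le_mul_of_nonneg_left ?_ (by positivity)
          rw [hF, Finset.mem_filter] at hi
          have := hb1 i
          rw [hi.2] at this
          exact this
      _ = (∑ i ∈ F, ‖g i‖ ^ 2) * ((Q : ℝ) * (2⁻¹ : ℝ) ^ j) := by rw [Finset.sum_mul]
      _ ≤ 1 * ((Q : ℝ) * (2⁻¹ : ℝ) ^ j) := by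
          refine mul_le_mul_of_nonneg_right ?_ (by positivity)
          exact (Finset.sum_le_sum_of_subset_of_nonneg (Finset.subset_univ F)
            fun i _ _ => by positivity).trans hg
      _ = _ := one_mul _
  · intro n
    have hf0 : ∀ i, 0 ≤ W * s i ^ p₀ := fun i => mul_nonneg hW0 (Real.rpow_nonneg (hs0 i) _)
    calc ∑ i : Fin n, cb lam Q p (b i) * ‖u i‖ₑ ^ 2
        ≤ ∑ i : Fin n, ENNReal.ofReal (W * s i ^ p₀) := by
          refine Finset.sum_le_sum fun i _ => ?_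
          rw [hue]
          exact hterm i
      _ = ∑ i ∈ Finset.range n, ENNReal.ofReal (W * s i ^ p₀) :=
          (Finset.sum_range fun i => ENNReal.ofReal (W * s i ^ p₀)).symm
      _ ≤ ENNReal.ofReal (∑' i, W * s i ^ p₀) :=
          Pool.Agent.Q98.NR.ofReal_sum_le hf0 (hs1.mul_left W) n
      _ = _ := by
          rw [tsum_mul_left]
          rfl

end Pool.Agent.Q98.NS
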