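import Pool.Agent.Q98.NS.Ell2

/-!
# Normal operators plus operators of a Schatten class: the operator is bounded below if there are no
chains
-/

set_option autoImplicit false

namespace Pool.Agent.Q98.NS

open MeasureTheory Set Metric Filter Topology
open Matrix
open scoped ENNReal NNReal ComplexConjugate InnerProductSpace
open Pool.Agent.Y283.NK (lm LogBd ct ea IsMul)
open Pool.Agent.Q98.RB
open Pool.Agent.Q98.NR

variable {S : Type} [MeasurableSpace S] {μ : Measure S} [SigmaFinite μ] {φ : S → ℂ} {R : ℝ}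
variable {N : Lp ℂ 2 μ →L[ℂ] Lp ℂ 2 μ}
variable {p : ℝ} {b : ℕ → ℕ} {lam Q : ℝ≥0} {u v : ℕ → Lp ℂ 2 μ} {C : ℝ≥0}

theorem mul_le_sq (x y : ℝ≥0∞) : x * y ≤ x ^ 2 + y ^ 2 := by
  rcases le_total x y with h | h
  · calc x * y ≤ y * y := by gcongr
      _ = y ^ 2 := (pow_two y).symm
      _ ≤ _ := le_add_self
  · calc x * y ≤ x * x := by gcongr
      _ = x ^ 2 := (pow_two x).symm
      _ ≤ _ := le_self_add

theorem rpow_le_one_add {q : ℝ} (hq0 : 0 ≤ q) (hq : q ≤ 1) (x : ℝ≥0∞) : x ^ q ≤ 1 + x := by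
  rcases le_total x 1 with h | h
  · calc x ^ q ≤ 1 ^ q := ENNReal.rpow_le_rpow h hq0
      _ = 1 := ENNReal.one_rpow q
      _ ≤ _ := le_self_add
  · calc x ^ q ≤ x ^ (1:ℝ) := ENNReal.rpow_le_rpow_of_exponent_le h hq
      _ = x := ENNReal.rpow_one x
      _ ≤ _ := le_add_self

omit [SigmaFinite μ] in
/-- combinations of the transforms -/
theorem comb_le (hφ : Measurable φ) (hv : WS p b lam Q v C) (hp : 1 < p) {n : ℕ} {z : ℂ}
    (hG : GG φ p b lam Q v n z ≠ ⊤) (x : Lp ℂ 2 μ) (hx : eg μ φ x z ≠ ⊤) (l : Fin n → ℂ) {Λ : ℝ}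
    (hΛ : 0 < Λ) (hl : Real.sqrt (∑ i, ‖l i‖ ^ 2) ≤ Λ) :
    ‖∑ i, l i * ct φ (v i) x z‖ₑ ≤
      ENNReal.ofReal Λ * (GG φ p b lam Q v n z ^ (1 / (2 * p)) * (eg μ φ x z) ^ (1 / 2 : ℝ)) := by
  obtain ⟨g, hg⟩ : ∃ g : Fin n → ℂ, g = fun i => conj (l i) / Λ := ⟨_, rfl⟩
  have hΛc : (Λ : ℂ) ≠ 0 := by exact_mod_cast hΛ.ne'
  have hg1 : ∑ i, ‖g i‖ ^ 2 ≤ 1 := by
    have e : ∀ i, ‖g i‖ ^ 2 = ‖l i‖ ^ 2 / Λ ^ 2 := by
      intro i
      rw [hg, norm_div, Complex.norm_real, RCLike.norm_conj, div_pow, Real.norm_of_nonneg hΛ.le]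
    simp only [e]
    rw [← Finset.sum_div, div_le_one (by positivity)]
    rw [Real.sqrt_le_left hΛ.le] at hl
    exact hl
  have e1 : ∑ i, l i * ct φ (v i) x z = (Λ : ℂ) * cg μ φ (fun s => ∑ i, g i * v i s) x z := by
    rw [cg_left hφ (G := fun i : Fin n => ⇑(v i)) (fun i => coe_meas _) (coe_meas x)
      (fun i => eg_fin hφ hv hp hG i) hx, Finset.mul_sum]
    refine Finset.sum_congr rfl fun i _ => ?_
    have e2 : conj (g i) = l i / Λ := by
      rw [hg]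
      simp
    rw [e2, ct_eq]
    field_simp
  have mF : Measurable fun s => ∑ i : Fin n, g i * v i s :=
    Finset.measurable_sum _ fun i _ => (coe_meas (v i)).const_mul _
  rw [e1, enorm_mul]
  refine mul_le_mul' (le_of_eq ?_) ((cg_le hφ mF (coe_meas x) z).trans
    (mul_le_mul' (eg_half hφ hv hp g hg1 z) le_rfl))
  rw [← ofReal_norm, Complex.norm_real, Real.norm_of_nonneg hΛ.le]

/-- the majorant -/
noncomputable def g2 (φ : S → ℂ) (p : ℝ) (b : ℕ → ℕ) (lam Q : ℝ≥0) (v : ℕ → Lp ℂ 2 μ) (κ : ℝ≥0∞)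
    (r : ℝ) (y : StrongDual ℂ (Lp ℂ 2 μ)) (E : ℕ → StrongDual ℂ (Lp ℂ 2 μ)) (m n : ℕ)
    (x : Lp ℂ 2 μ) (z : ℂ) : ℝ≥0∞ :=
  be φ r y E m z ^ 2 + (2 * eg μ φ x z + κ ^ 2 * (1 + GG φ p b lam Q v n z))

theorem g2_meas (hφ : Measurable φ) (κ : ℝ≥0∞) (r : ℝ) (y : StrongDual ℂ (Lp ℂ 2 μ))
    (E : ℕ → StrongDual ℂ (Lp ℂ 2 μ)) (m n : ℕ) (x : Lp ℂ 2 μ) :
    Measurable (g2 φ p b lam Q v κ r y E m n x) := by
  unfold g2
  exact ((be_meas hφ r y E m).pow_const 2).add (((eg_meas hφ (coe_meas _)).const_mul _).add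
    ((measurable_const.add (GG_meas hφ n)).const_mul _))

theorem g2_int (hφ : Measurable φ) (hv : WS p b lam Q v C) (κ : ℝ≥0∞) {n : ℕ} {ρ : ℝ} {A : ℝ≥0}
    (hA : AB p ρ A) {a : ℂ} {r : ℝ} (hr : 0 < r) (hD : closedBall a r ⊆ ball 0 ρ)
    (y : StrongDual ℂ (Lp ℂ 2 μ)) (E : ℕ → StrongDual ℂ (Lp ℂ 2 μ)) (m : ℕ)
    (hE : ∑ k ∈ Finset.range (m + 1), r ^ k * ‖E k‖ ≤ 1) (x : Lp ℂ 2 μ) :
    ∫⁻ z in closedBall a r, g2 φ p b lam Q v κ r y E m n x z ≤
      (2 * (A * ‖y‖ₑ ^ 2) + 2 * (3 * A)) + (2 * (A * ‖x‖ₑ ^ 2) +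
        κ ^ 2 * (1 * volume (ball (0:ℂ) ρ) + A * C)) := by
  have m1 : Measurable fun z => be φ r y E m z ^ 2 := (be_meas hφ r y E m).pow_const 2
  have m2 : Measurable (eg μ φ x) := eg_meas hφ (coe_meas _)
  have m3 : Measurable fun z => 2 * eg μ φ x z := m2.const_mul _
  have m4 : Measurable (GG φ p b lam Q v n) := GG_meas hφ n
  have m5 : Measurable fun z => 1 + GG φ p b lam Q v n z := measurable_const.add m4
  have m6 : Measurable fun _ : ℂ => (1 : ℝ≥0∞) := measurable_const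
  unfold g2
  rw [lintegral_add_left m1, lintegral_add_left m3, lintegral_const_mul _ m2,
    lintegral_const_mul _ m5, lintegral_add_left m6, lintegral_const,
    Measure.restrict_apply_univ]
  refine add_le_add (be_int hφ (fun w => (hA w).1) hr hD y E m hE) (add_le_add
    (mul_le_mul' le_rfl ?_) (mul_le_mul' le_rfl (add_le_add
    (mul_le_mul' le_rfl (measure_mono hD)) ?_)))
  · exact (lintegral_mono_set hD).trans (eg_ball hφ (fun w => (hA w).1) x)
  · exact (lintegral_mono_set hD).trans (GG_int hφ hv n fun w => (hA w).2)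

theorem y02 (hφ : Measurable φ) (hb : ∀ s, ‖φ s‖ ≤ R) (hΨ : Cal N R (mcal μ hφ hb)) (h1 : 1 < p)
    (h2 : p < 2) (hu : WS p b lam Q u C) (hv : WS p b lam Q v C) (t : ℂ) {ρ : ℝ} (B : ℝ≥0) {a : ℂ}
    {r : ℝ} (hr : 0 < r) (hD : closedBall a r ⊆ ball 0 ρ) (y : StrongDual ℂ (Lp ℂ 2 μ)) :
    ∃ Λ : ℝ, 0 < Λ ∧ ∀ n, Gd2 φ u v t ρ B n → ∀ (m : ℕ) (Y : ℕ → StrongDual ℂ (Lp ℂ 2 μ)),
      (∀ k, m ≤ k → Y k = 0) →
      ∑ k ∈ Finset.range (m + 1), r ^ k * ‖res (N + t • Ks u (vv v) n) a y Y k‖ ≤ 1 →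
      ∀ x, ‖Y 0 x‖ ≤ Λ * ‖x‖ := by
  obtain ⟨Λ, hΛ, hell⟩ := ell2 hφ hb hΨ h1 h2 hu hv t B hr hD y
  obtain ⟨A, hA⟩ := exists_AB h1 h2 ρ
  obtain ⟨κ, hκ⟩ : ∃ κ : ℝ≥0∞, κ = ‖t‖ₑ * ENNReal.ofReal Λ := ⟨_, rfl⟩
  have hκt : κ ^ 2 ≠ ⊤ := by
    rw [hκ]
    exact ENNReal.pow_ne_top (ENNReal.mul_ne_top enorm_ne_top ENNReal.ofReal_ne_top)
  obtain ⟨A₀, hA₀⟩ : ∃ A₀ : ℝ≥0∞, A₀ = (2 * (A * ‖y‖ₑ ^ 2) + 2 * (3 * A)) + (2 * (A * 1) +
        κ ^ 2 * (1 * volume (ball (0:ℂ) ρ) + A * C)) := ⟨_, rfl⟩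
  have hA₀t : A₀ ≠ ⊤ := by
    have hV : volume (ball (0:ℂ) ρ) ≠ ⊤ := measure_ball_lt_top.ne
    have hy : ‖y‖ₑ ^ 2 ≠ ⊤ := ENNReal.pow_ne_top enorm_ne_top
    have hAt : (A : ℝ≥0∞) ≠ ⊤ := ENNReal.coe_ne_top
    have hAC : (A : ℝ≥0∞) * C ≠ ⊤ := ENNReal.mul_ne_top hAt ENNReal.coe_ne_top
    rw [hA₀]
    refine ENNReal.add_ne_top.2 ⟨ENNReal.add_ne_top.2
      ⟨ENNReal.mul_ne_top (by simp) (ENNReal.mul_ne_top hAt hy), ENNReal.mul_ne_top (by simp)
      (ENNReal.mul_ne_top (by simp) hAt)⟩, ENNReal.add_ne_top.2 ⟨ENNReal.mul_ne_top (by simp)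
      (ENNReal.mul_ne_top hAt (by simp)), ENNReal.mul_ne_top hκt (ENNReal.add_ne_top.2
      ⟨ENNReal.mul_ne_top (by simp) hV, hAC⟩)⟩⟩
  have hAA : A₀ ≤ ENNReal.ofReal (A₀.toReal + 1) := by
    calc A₀ = ENNReal.ofReal A₀.toReal := (ENNReal.ofReal_toReal hA₀t).symm
      _ ≤ _ := ENNReal.ofReal_le_ofReal (by linarith)
  have hA0 : 0 < A₀.toReal + 1 := by positivity
  refine ⟨Real.exp ((A₀.toReal + 1) / (r / 2) ^ 2), Real.exp_pos _, ?_⟩
  intro n hG m Y hY hE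
  -- for unit vectors
  have hunit : ∀ x : Lp ℂ 2 μ, ‖x‖ ≤ 1 →
      ‖Y 0 x‖ ≤ Real.exp ((A₀.toReal + 1) / (r / 2) ^ 2) := by
    intro x hx
    have hxe : ‖x‖ₑ ^ 2 ≤ 1 := by
      have h3 : ‖x‖ₑ ≤ 1 := by
        rw [← ofReal_norm, ← ENNReal.ofReal_one]
        exact ENNReal.ofReal_le_ofReal hx
      exact pow_le_one' h3 2
    set E := res (N + t • Ks u (vv v) n) a y Y with hEdef
    have hint : ∫⁻ z in closedBall a r, g2 φ p b lam Q v κ r y E m n x z ≤ A₀ := by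
      refine (g2_int hφ hv κ hA hr hD y E m hE x).trans ?_
      rw [hA₀]
      exact add_le_add le_rfl (add_le_add (mul_le_mul' le_rfl (mul_le_mul' le_rfl hxe)) le_rfl)
    have hfin : ∀ᵐ z ∂(volume.restrict (closedBall a r)),
        g2 φ p b lam Q v κ r y E m n x z ≠ ⊤ := by
      filter_upwards [ae_lt_top (g2_meas hφ κ r y E m n x) (ne_top_of_le_ne_top hA₀t hint)]
        with z hz using hz.ne
    have hgfin : ∀ᵐ z ∂(volume.restrict (closedBall a r)), GG φ p b lam Q v n z ≠ ⊤ := by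
      have h3 : ∫⁻ z in closedBall a r, GG φ p b lam Q v n z ≠ ⊤ := by
        refine ne_top_of_le_ne_top (b := A * C) ?_ ?_
        · exact ENNReal.mul_ne_top ENNReal.coe_ne_top ENNReal.coe_ne_top
        · exact (lintegral_mono_set hD).trans (GG_int hφ hv n fun w => (hA w).2)
      filter_upwards [ae_lt_top (GG_meas hφ n) h3] with z hz using hz.ne
    have hsub : closedBall a (r / 2) ⊆ closedBall a r :=
      closedBall_subset_closedBall (by linarith)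
    have hb1 : ∀ᵐ z ∂(volume.restrict (closedBall a (r / 2))), ‖hp Y a m x z‖ ≤
        Real.exp (g2 φ p b lam Q v κ r y E m n x z).toReal := by
      filter_upwards [ae_restrict_of_ae (key2 hφ hb hΨ u v t a n y Y m hY x),
        ae_restrict_of_ae_restrict_of_subset hsub hfin,
        ae_restrict_of_ae_restrict_of_subset hsub hgfin,
        ae_restrict_mem measurableSet_closedBall] with z hk hz hg hzD
      have hxz : eg μ φ x z ≠ ⊤ := by
        intro h0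
        apply hz
        unfold g2
        rw [h0]
        simp
      rw [Finset.sum_range fun i => hp Y a m (u i) z * ct φ (v i) x z] at hk
      have h3 := bc_le hφ y E m (coe_meas x) (hsub hzD)
      have h4 := comb_le hφ hv h1 hg x hxz (fun i : Fin n => hp Y a m (u i) z) hΛ
        (hell n hG m Y hY hE z hzD)
      have hq : 1 / (2 * p) ≤ 1 := by
        rw [div_le_one (by linarith)]
        linarith
      have h5 : ‖hp Y a m x z‖ₑ ≤ g2 φ p b lam Q v κ r y E m n x z := by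
        rw [hk]
        calc _ ≤ ‖bc φ a y E m x z‖ₑ +
              ‖t * ∑ i : Fin n, hp Y a m (u i) z * ct φ (v i) x z‖ₑ := enorm_add_le _ _
          _ ≤ be φ r y E m z * (eg μ φ x z) ^ (1 / 2 : ℝ) + ‖t‖ₑ * (ENNReal.ofReal Λ *
              (GG φ p b lam Q v n z ^ (1 / (2 * p)) * (eg μ φ x z) ^ (1 / 2 : ℝ))) := by
              rw [enorm_mul]
              exact add_le_add h3 (mul_le_mul' le_rfl h4)
          _ = be φ r y E m z * (eg μ φ x z) ^ (1 / 2 : ℝ) +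
              (κ * GG φ p b lam Q v n z ^ (1 / (2 * p))) * (eg μ φ x z) ^ (1 / 2 : ℝ) := by
              rw [hκ]
              ring
          _ ≤ (be φ r y E m z ^ 2 + ((eg μ φ x z) ^ (1 / 2 : ℝ)) ^ 2) +
              ((κ * GG φ p b lam Q v n z ^ (1 / (2 * p))) ^ 2 +
                ((eg μ φ x z) ^ (1 / 2 : ℝ)) ^ 2) := add_le_add (mul_le_sq _ _) (mul_le_sq _ _)
          _ = be φ r y E m z ^ 2 + (2 * eg μ φ x z +
              κ ^ 2 * GG φ p b lam Q v n z ^ (1 / p)) := by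
              have e : (GG φ p b lam Q v n z ^ (1 / (2 * p))) ^ 2 =
                  GG φ p b lam Q v n z ^ (1 / p) := by
                rw [← ENNReal.rpow_two, ← ENNReal.rpow_mul]
                congr 1
                have : p ≠ 0 := by linarith
                field_simp
              rw [rpow_half_sq, mul_pow, e]
              ring
          _ ≤ _ := by
              unfold g2
              have hq2 : 1 / p ≤ 1 := by
                rw [div_le_one (by linarith)]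
                linarith
              exact add_le_add le_rfl (add_le_add le_rfl (mul_le_mul' le_rfl
                (rpow_le_one_add (by positivity) hq2 _)))
      have h6 := ENNReal.toReal_mono hz h5
      rw [toReal_enorm] at h6
      have := Real.add_one_le_exp (g2 φ p b lam Q v κ r y E m n x z).toReal
      linarith
    have h3 := submean (hp_diff Y a m x) a (s := r / 2) (by positivity) hA0
      (g2 φ p b lam Q v κ r y E m n x) (g2_meas hφ κ r y E m n x)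
      ((lintegral_mono_set hsub).trans (hint.trans hAA)) hb1
    rwa [hp_self] at h3
  intro x
  by_cases hx : x = 0
  · rw [hx, map_zero, norm_zero, norm_zero, mul_zero]
  have hx0 : 0 < ‖x‖ := norm_pos_iff.2 hx
  have h3 := hunit ((‖x‖⁻¹ : ℂ) • x) (by
    rw [norm_smul, norm_inv, Complex.norm_real, norm_norm, inv_mul_cancel₀ hx0.ne'])
  rw [map_smul, norm_smul, norm_inv, Complex.norm_real, norm_norm] at h3
  rwa [inv_mul_le_iff₀ hx0, mul_comm] at h3

end Pool.Agent.Q98.NS
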